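import Pool.Agent.DCC8.Flats

/-!
# [M5] The `X`-parts of flats are `K`-affine subspaces

`card_FX_lt`.  Both `X`-parts are of the form `{x | vec w (inl x) ∈ S}` (`mem_span`), hence closed
under `K`-affine combinations.  If `FX F` is empty trivial; otherwise translate a point `x₀` of
`FX F` to the origin: `{x - x₀ | x ∈ FX F}` and `{x - x₀ | x ∈ FX G}` are `K`-submodules of
`(Fin 3 → K) × L`, the first properly contained in the second, and the cardinality of a submodule is
`q ^ finrank`.

`card_FX_ge`.  `FX F` is a `K`-affine subspace of `X`; it contains `d = dX F` elements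
`x₁, …, x_d` with `L`-linearly independent vectors `((1, s), t)`; these vectors are `K`-linearly
independent, so the `x_i - x₁` (`i ≥ 2`) are `K`-independent; all `K`-affine combinations of
the `x_i` are in `FX F`.
-/

namespace DCC8

open DualChow Finset Module

variable {K L : Type} [Field K] [Fintype K] [Field L] [Fintype L] [Algebra K L]
  {w : Fin 4 → L} {hw : LinearIndependent K w}

namespace AffAux

/-- the linear part of `vec` on `X` -/
noncomputable def dlt (K L : Type) [Field K] [Field L] [Algebra K L] :
    ((Fin 3 → K) × L) →ₗ[K] ((Fin 4 → L) × L) where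
  toFun x := (Matrix.vecCons 0 (fun i => algebraMap K L (x.1 i)), x.2)
  map_add' x y := by
    refine Prod.ext ?_ rfl
    funext i
    refine Fin.cases ?_ (fun j => ?_) i
    · simp
    · simp
  map_smul' c x := by
    refine Prod.ext ?_ rfl
    funext i
    refine Fin.cases ?_ (fun j => ?_) i
    · simp
    · simp [Algebra.smul_def]

theorem vec_sub (w : Fin 4 → L) (x x₀ : (Fin 3 → K) × L) :
    vec w (Sum.inl x) - vec w (Sum.inl x₀) = dlt K L (x - x₀) := by
  refine Prod.ext ?_ rfl
  funext i
  refine Fin.cases ?_ (fun j => ?_) i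
  · simp [vec, one3, dlt]
  · simp [vec, one3, dlt]

/-- the direction space -/
noncomputable def dir (S : Submodule L ((Fin 4 → L) × L)) : Submodule K ((Fin 3 → K) × L) :=
  (S.restrictScalars K).comap (dlt K L)

theorem mem_dir (S : Submodule L ((Fin 4 → L) × L)) (d : (Fin 3 → K) × L) :
    d ∈ (dir S : Submodule K ((Fin 3 → K) × L)) ↔ dlt K L d ∈ S := by
  simp [dir]

theorem mem_iff {F : Flat (mat w hw)} {S : Submodule L ((Fin 4 → L) × L)}
    (hS : ∀ x, x ∈ FX F ↔ vec w (Sum.inl x) ∈ S) {x₀ : (Fin 3 → K) × L} (h0 : x₀ ∈ FX F)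
    (x : (Fin 3 → K) × L) : x ∈ FX F ↔ x - x₀ ∈ (dir S : Submodule K ((Fin 3 → K) × L)) := by
  rw [mem_dir, ← vec_sub w, hS]
  have h1 := (hS x₀).1 h0
  constructor
  · intro h
    exact S.sub_mem h h1
  · intro h
    have := S.add_mem h h1
    simpa using this

theorem card_eq {F : Flat (mat w hw)} {S : Submodule L ((Fin 4 → L) × L)}
    (hS : ∀ x, x ∈ FX F ↔ vec w (Sum.inl x) ∈ S) {x₀ : (Fin 3 → K) × L} (h0 : x₀ ∈ FX F) :
    #(FX F) = Fintype.card K ^ finrank K (dir S : Submodule K ((Fin 3 → K) × L)) := by
  classical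
  rw [← Nat.card_eq_fintype_card (α := K), ← Module.natCard_eq_pow_finrank (K := K)
    (V := (dir S : Submodule K ((Fin 3 → K) × L)))]
  rw [← Fintype.card_coe, ← Nat.card_eq_fintype_card]
  refine Nat.card_congr
    { toFun := fun x => ⟨x.1 - x₀, (mem_iff hS h0 x.1).1 x.2⟩
      invFun := fun d => ⟨d.1 + x₀, (mem_iff hS h0 _).2 (by simpa using d.2)⟩
      left_inv := fun x => by simp
      right_inv := fun d => by simp }

end AffAux

open AffAux

theorem card_FX_lt {F G : Flat (mat w hw)} (h : F ≤ G) (hX : FX F ≠ FX G) :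
    Fintype.card K * #(FX F) ≤ #(FX G) := by
  rcases (FX F).eq_empty_or_nonempty with h0 | ⟨x₀, h0⟩
  · rw [h0]; simp
  obtain ⟨S, hS, -, -⟩ := mem_span F
  obtain ⟨S', hS', -, -⟩ := mem_span G
  have hsub := FX_mono h
  have h0' : x₀ ∈ FX G := hsub h0
  rw [card_eq hS h0, card_eq hS' h0']
  have hlt : (dir S : Submodule K ((Fin 3 → K) × L)) < dir S' := by
    refine lt_of_le_of_ne ?_ ?_
    · intro d hd
      have h1 : d + x₀ ∈ FX F := (mem_iff hS h0 _).2 (by simpa using hd)
      have h2 := (mem_iff hS' h0' _).1 (hsub h1)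
      simpa using h2
    · intro he
      apply hX
      ext x
      rw [mem_iff hS h0, mem_iff hS' h0', he]
  have h3 := Submodule.finrank_lt_finrank_of_lt hlt
  have hq : 0 < Fintype.card K := Fintype.card_pos
  calc Fintype.card K * Fintype.card K ^ finrank K (dir S : Submodule K ((Fin 3 → K) × L))
      = Fintype.card K ^ (finrank K (dir S : Submodule K ((Fin 3 → K) × L)) + 1) := by ring
    _ ≤ _ := Nat.pow_le_pow_right hq h3

theorem card_FX_ge (F : Flat (mat w hw)) (h : 1 ≤ dX F) :
    Fintype.card K ^ (dX F - 1) ≤ #(FX F) := by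
  classical
  have hne : (FX F).Nonempty := by
    by_contra hc
    rw [not_nonempty_iff_eq_empty] at hc
    have h1 : F.1 ∩ Xs K L = ∅ := by
      ext e
      simp only [Set.mem_inter_iff, Xs, Set.mem_range, Set.mem_empty_iff_false, iff_false,
        not_and, not_exists]
      rintro he x rfl
      have : x ∈ FX F := by simp [FX, he]
      rw [hc] at this
      simp at this
    unfold dX sp at h
    rw [h1, Set.image_empty, Submodule.span_empty, finrank_bot] at h
    omega
  obtain ⟨x₀, h0⟩ := hne
  obtain ⟨S, hS, hsp, -⟩ := mem_span F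
  rw [card_eq hS h0]
  apply Nat.pow_le_pow_right Fintype.card_pos
  set U : Submodule K ((Fin 3 → K) × L) := dir S with hU
  set b := Module.finBasis K U with hb
  -- the vectors spanning
  have hle : sp w (F.1 ∩ Xs K L) ≤ Submodule.span L
      ((insert (vec w (Sum.inl x₀)) (univ.image fun i => dlt K L (b i).1) :
        Finset ((Fin 4 → L) × L)) : Set ((Fin 4 → L) × L)) := by
    unfold sp
    rw [Submodule.span_le]
    rintro _ ⟨e, ⟨he, ⟨x, rfl⟩⟩, rfl⟩
    have hx : x ∈ FX F := by simp [FX, he]
    have hd := (mem_iff hS h0 x).1 hx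
    have h1 : vec w (Sum.inl x) = vec w (Sum.inl x₀) + dlt K L (x - x₀) := by
      rw [← vec_sub w]; abel
    simp only [SetLike.mem_coe]
    rw [h1]
    apply Submodule.add_mem
    · apply Submodule.subset_span
      simp
    · have h2 : (x - x₀) = ∑ i, (b.repr ⟨x - x₀, hd⟩ i) • ((b i).1) := by
        have := congrArg Subtype.val (b.sum_repr ⟨x - x₀, hd⟩)
        simp only [Submodule.coe_sum, Submodule.coe_smul] at this
        exact this.symm
      rw [h2, map_sum]
      apply Submodule.sum_mem
      intro i _
      rw [map_smul, ← algebraMap_smul L]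
      apply Submodule.smul_mem
      apply Submodule.subset_span
      simp
  have h3 : dX F ≤ 1 + finrank K U := by
    unfold dX
    refine (Submodule.finrank_mono hle).trans ?_
    refine (finrank_span_finset_le_card _).trans ?_
    refine (card_insert_le _ _).trans ?_
    have : #(univ.image fun i => dlt K L (b i).1) ≤ finrank K U := by
      refine card_image_le.trans ?_
      simp
    omega
  omega

end DCC8
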