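import Pool.Agent.H66.DC.Moebius

/-!
# MP_1a95b2_co: a rank 5 matroid whose dual Chow polynomial has non-real zeros.  Definitions.

`K` a finite field with `q` elements, `L` an extension field with `q ^ 4` elements,
`w : Fin 4 → L` linearly independent over `K`.

Ground set: `X ⊔ Y` with `X = (Fin 3 → K) × L` and `Y = L`.
`X ∋ (s, t)` is represented by the vector `((1, s), t) ∈ L ^ 4 × L`,
`Y ∋ y` by the vector `(w, y)`.

A set `I` is independent iff it has at most `5` elements, `I ∩ X` is linearly independent over `L`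
and, if `I` contains at most one element of `Y`, the whole set `I` is linearly independent.
-/

namespace DCC8

open DualChow Finset

section Chains

variable {α : Type*} (M : Matroid α) [M.Finite]

/-- The flats of rank `k`. -/
noncomputable def lev (k : ℕ) : Finset (Flat M) := univ.filter fun F => rk M F = k

open Classical in
/-- Number of chains `A < B₁ < B₂ < ⋯` with ranks prescribed by the list. -/
noncomputable def cnt : List ℕ → Flat M → ℕ
  | [], _ => 1
  | k :: T, A => ∑ B ∈ (lev M k).filter (fun B => A < B), cnt T B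

/-- The flag numbers of the lattice of flats. -/
noncomputable def f (T : List ℕ) : ℕ := cnt M T ⊥

/-- `γ₀`. -/
noncomputable def g0 : ℤ :=
  1 - (f M [1] + f M [2] + f M [3] + f M [4])
    + (f M [1, 2] + f M [1, 3] + f M [1, 4] + f M [2, 3] + f M [2, 4] + f M [3, 4])
    - (f M [1, 2, 3] + f M [1, 2, 4] + f M [1, 3, 4] + f M [2, 3, 4]) + f M [1, 2, 3, 4]

/-- `γ₁`. -/
noncomputable def g1 : ℤ :=
  (f M [2, 3, 4] + f M [1, 3, 4] + f M [1, 2, 4])
    - (f M [1, 2] + f M [1, 3] + 2 * f M [1, 4] + f M [2, 3] + 2 * f M [2, 4] + 2 * f M [3, 4])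
    + (2 * f M [1] + 2 * f M [2] + 2 * f M [3] + 3 * f M [4]) - 3

/-- `γ₂`. -/
noncomputable def g2 : ℤ := f M [2, 4] - f M [2] - f M [4] + 1

end Chains

section Mat

variable {K L : Type} [Field K] [Fintype K] [Field L] [Fintype L] [Algebra K L]

/-- The ground set `X ⊔ Y`. -/
abbrev Ex (K L : Type) : Type := ((Fin 3 → K) × L) ⊕ L

/-- The vector `(1, s) ∈ L ^ 4`. -/
def one3 (L : Type) [Field L] [Algebra K L] (s : Fin 3 → K) : Fin 4 → L :=
  Matrix.vecCons 1 (fun i => algebraMap K L (s i))

/-- The vectors. -/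
def vec (w : Fin 4 → L) : Ex K L → (Fin 4 → L) × L
  | .inl x => (one3 L x.1, x.2)
  | .inr y => (w, y)

/-- The part `X` of the ground set. -/
def Xs (K L : Type) : Set (Ex K L) := Set.range Sum.inl

/-- The part `Y` of the ground set. -/
def Ys (K L : Type) : Set (Ex K L) := Set.range Sum.inr

/-- The `L`-span of the vectors of a set. -/
def sp (w : Fin 4 → L) (A : Set (Ex K L)) : Submodule L ((Fin 4 → L) × L) :=
  Submodule.span L (vec w '' A)

/-- The independent sets. -/
def Ind (w : Fin 4 → L) (I : Set (Ex K L)) : Prop :=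
  LinearIndepOn L (vec w) (I ∩ Xs K L) ∧ I.encard ≤ 5 ∧
    ((I ∩ Ys K L).Subsingleton → LinearIndepOn L (vec w) I)

end Mat

end DCC8
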