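import Pool.Agent.DCC8.Defs

/-!
# [E1] Covers in the lattice of flats of a matroid

`ins M F e = M.closure (insert e F)` has rank `rk F + 1` for `e ∈ M.E \ F`; between flats `A < B`
there is a flat of every intermediate rank (iterate `ins`); a cover `G` of `F` with `e ∈ G \ F` is
`ins M F e`, so two distinct covers meet in `F`, and the sets `G \ F` are pairwise disjoint.
-/

namespace DCC8

open DualChow Finset

variable {α : Type*} {M : Matroid α} [M.Finite]

theorem rk_top' {r : ℕ} (hr : M.eRank = (r : ℕ∞)) : rk M (⊤ : Flat M) = r := by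
  have h : ((rk M (⊤ : Flat M) : ℕ) : ℕ∞) = ((r : ℕ) : ℕ∞) := by
    rw [rk_cast, ← hr]
    exact M.eRk_ground
  exact_mod_cast h

/-- The flat spanned by a flat and an element. -/
noncomputable def ins (M : Matroid α) (F : Flat M) (e : α) : Flat M :=
  ⟨M.closure (insert e F.1), M.isFlat_closure _⟩

theorem rk_ins {F : Flat M} {e : α} (he : e ∈ M.E) (h : e ∉ F.1) :
    rk M (ins M F e) = rk M F + 1 := by
  have h1 : ((rk M (ins M F e) : ℕ) : ℕ∞) = ((rk M F + 1 : ℕ) : ℕ∞) := by
    push_cast
    rw [rk_cast, rk_cast]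
    change M.eRk (M.closure (insert e F.1)) = _
    rw [Matroid.eRk_closure_eq]
    apply Matroid.eRk_insert_eq_add_one
    rw [F.2.closure]
    exact ⟨he, h⟩
  exact_mod_cast h1

theorem le_ins {F : Flat M} {e : α} (he : e ∈ M.E) : F ≤ ins M F e ∧ e ∈ (ins M F e).1 := by
  have h1 : insert e F.1 ⊆ M.closure (insert e F.1) :=
    M.subset_closure _ (Set.insert_subset he F.2.subset_ground)
  exact ⟨fun x hx => h1 (Set.mem_insert_of_mem _ hx), h1 (Set.mem_insert _ _)⟩

theorem ins_le {F G : Flat M} {e : α} (h : F ≤ G) (he : e ∈ G.1) : ins M F e ≤ G := by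
  have h1 : M.closure (insert e F.1) ⊆ M.closure G.1 :=
    M.closure_subset_closure (Set.insert_subset he h)
  rw [G.2.closure] at h1
  exact h1

/-- An element of the difference of two flats. -/
theorem exists_mem_notMem_extA {A B : Flat M} (h : A < B) : ∃ e, e ∈ B.1 ∧ e ∉ A.1 := by
  by_contra hc
  push Not at hc
  exact not_le_of_gt h fun x hx => hc x hx

theorem exists_between {A B : Flat M} {k : ℕ} (h : A < B) (h1 : rk M A < k) (h2 : k < rk M B) :
    ∃ C, A < C ∧ C < B ∧ rk M C = k := by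
  obtain ⟨d, hd⟩ := Nat.exists_eq_add_of_lt h1
  induction d generalizing A with
  | zero =>
    obtain ⟨e, he, he'⟩ := exists_mem_notMem_extA h
    have hE := B.2.subset_ground he
    have hr := rk_ins hE he'
    refine ⟨ins M A e, lt_of_le_of_ne (le_ins hE).1 ?_, lt_of_le_of_ne (ins_le h.le he) ?_, ?_⟩
    · intro hh
      rw [← hh] at hr
      omega
    · intro hh
      rw [hh] at hr
      omega
    · omega
  | succ d ih =>
    obtain ⟨e, he, he'⟩ := exists_mem_notMem_extA h
    have hE := B.2.subset_ground he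
    have hr := rk_ins hE he'
    have hlt : ins M A e < B := by
      refine lt_of_le_of_ne (ins_le h.le he) ?_
      intro hh
      rw [hh] at hr
      omega
    obtain ⟨C, hC1, hC2, hC3⟩ := ih hlt (by omega) (by omega)
    exact ⟨C, lt_of_le_of_lt (le_ins hE).1 hC1, hC2, hC3⟩

theorem eq_ins {F G : Flat M} {e : α} (h : F < G) (hr : rk M G = rk M F + 1) (he : e ∈ G.1)
    (he' : e ∉ F.1) : G = ins M F e := by
  have h1 := ins_le h.le he
  rcases h1.eq_or_lt with h2 | h2
  · exact h2.symm
  · have h3 := rk_lt_of_lt h2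
    rw [rk_ins (G.2.subset_ground he) he'] at h3
    omega

open Classical in
/-- Counting covers: if each cover `G` of `F` in the finset `s` contains at least `b` elements
of `P` outside `F`, then `b * #s ≤ #P`. -/
theorem card_covers_mul_le {F : Flat M} (s : Finset (Flat M)) (P : Finset α) (b : ℕ)
    (hs : ∀ G ∈ s, F < G ∧ rk M G = rk M F + 1)
    (hb : ∀ G ∈ s, b ≤ #(P.filter fun e => e ∈ G.1 ∧ e ∉ F.1)) :
    b * #s ≤ #(P.filter fun e => e ∉ F.1) := by
  have h1 : #(s.biUnion fun G => P.filter fun e => e ∈ G.1 ∧ e ∉ F.1) =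
      ∑ G ∈ s, #(P.filter fun e => e ∈ G.1 ∧ e ∉ F.1) := by
    apply Finset.card_biUnion
    intro G hG G' hG' hne
    rw [Function.onFun, Finset.disjoint_left]
    intro e he he'
    rw [Finset.mem_filter] at he he'
    apply hne
    rw [eq_ins (hs G hG).1 (hs G hG).2 he.2.1 he.2.2,
      eq_ins (hs G' hG').1 (hs G' hG').2 he'.2.1 he'.2.2]
  have h2 : b * #s ≤ ∑ G ∈ s, #(P.filter fun e => e ∈ G.1 ∧ e ∉ F.1) := by
    rw [mul_comm, ← smul_eq_mul]
    exact Finset.card_nsmul_le_sum _ _ _ hb
  refine h2.trans (h1.symm.le.trans (Finset.card_le_card ?_))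
  intro e he
  rw [Finset.mem_biUnion] at he
  obtain ⟨G, hG, he⟩ := he
  rw [Finset.mem_filter] at he ⊢
  exact ⟨he.1, he.2.2⟩

end DCC8
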