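import Pool.Agent.DCC8.ExtA

/-!
# [E2] Chains of flats extend: monotonicity of the flag numbers

`cnt_insert`: inserting a rank at the front of the list does not decrease `cnt`
(`cnt (k :: h :: T) A = ∑ B ∑ C [A < B < C] cnt T C = ∑ (A < C) #{B | A < B < C} * cnt T C`, and
`exists_between`), `cnt_cons_le`: if `cnt T B ≤ cnt T' B` for all `B` of rank `k` then
`cnt (k :: T) A ≤ cnt (k :: T') A`.  The inequalities `f_mono` follow.
`two_f4_le`: a flat of rank `4` contains three independent elements `e₁, e₂, e₃` and the flats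
`closure {e₁, e₂} ≠ closure {e₁, e₃}` of rank `2`.
-/

namespace DCC8

open DualChow Finset

variable {α : Type*} {M : Matroid α} [M.Finite]

theorem mem_lev {F : Flat M} {k : ℕ} : F ∈ lev M k ↔ rk M F = k := by simp [lev]

theorem cnt_insert_nil (hr : M.eRank = ((5 : ℕ) : ℕ∞)) {A : Flat M} {k : ℕ} (h1 : rk M A < k)
    (h2 : k < 5) : cnt M [] A ≤ cnt M [k] A := by
  classical
  have htop := rk_top' hr
  have hA : A < ⊤ := by
    apply lt_of_le_of_ne le_top
    intro h
    rw [h, htop] at h1
    omega
  obtain ⟨C, hAC, -, hC⟩ := exists_between hA h1 (by rw [htop]; exact h2)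
  simp only [cnt]
  rw [sum_const, smul_eq_mul, mul_one, Nat.one_le_iff_ne_zero]
  apply card_ne_zero_of_mem (a := C)
  rw [mem_filter, mem_lev]
  exact ⟨hC, hAC⟩

theorem cnt_insert {A : Flat M} {k h : ℕ} (T : List ℕ) (h1 : rk M A < k)
    (h2 : k < h) : cnt M (h :: T) A ≤ cnt M (k :: h :: T) A := by
  classical
  calc cnt M (h :: T) A = ∑ C ∈ (lev M h).filter (fun C => A < C), cnt M T C := by
        simp only [cnt]
    _ ≤ ∑ C ∈ (lev M h).filter (fun C => A < C),
          ∑ B ∈ (lev M k).filter (fun B => A < B ∧ B < C), cnt M T C := by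
        apply sum_le_sum
        intro C hC
        rw [mem_filter, mem_lev] at hC
        obtain ⟨B, hAB, hBC, hB⟩ := exists_between hC.2 h1 (by rw [hC.1]; exact h2)
        rw [sum_const, smul_eq_mul]
        apply Nat.le_mul_of_pos_left
        apply card_pos.2
        exact ⟨B, by rw [mem_filter, mem_lev]; exact ⟨hB, hAB, hBC⟩⟩
    _ = ∑ B ∈ (lev M k).filter (fun B => A < B),
          ∑ C ∈ (lev M h).filter (fun C => B < C), cnt M T C := by
        apply sum_comm'
        intro C B
        simp only [mem_filter]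
        constructor
        · rintro ⟨⟨hC, hAC⟩, hB, hAB, hBC⟩
          exact ⟨⟨hC, hBC⟩, hB, hAB⟩
        · rintro ⟨⟨hC, hBC⟩, hB, hAB⟩
          exact ⟨⟨hC, hAB.trans hBC⟩, hB, hAB, hBC⟩
    _ = cnt M (k :: h :: T) A := by
        simp only [cnt]

theorem cnt_cons_le {A : Flat M} {k : ℕ} {T T' : List ℕ}
    (h : ∀ B, A < B → rk M B = k → cnt M T B ≤ cnt M T' B) :
    cnt M (k :: T) A ≤ cnt M (k :: T') A := by
  classical
  simp only [cnt]
  apply sum_le_sum
  intro B hB
  rw [mem_filter, mem_lev] at hB
  exact h B hB.2 hB.1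

/-- Every flag number of a subset is at most that of the set. -/
theorem f_mono (hr : M.eRank = ((5 : ℕ) : ℕ∞)) {i j k : ℕ} (h0 : 0 < i) (hij : i < j)
    (hjk : j < k) (hk : k < 5) :
    f M [i] ≤ f M [i, j, k] ∧ f M [j] ≤ f M [i, j, k] ∧ f M [k] ≤ f M [i, j, k] ∧
      f M [i, j] ≤ f M [i, j, k] ∧ f M [i, k] ≤ f M [i, j, k] ∧ f M [j, k] ≤ f M [i, j, k] := by
  have hb : rk M (⊥ : Flat M) = 0 := rk_bot
  have hij' : f M [i, j] ≤ f M [i, j, k] := by
    apply cnt_cons_le
    intro B _ _
    apply cnt_cons_le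
    intro C _ hC
    exact cnt_insert_nil hr (by rw [hC]; exact hjk) hk
  have hik' : f M [i, k] ≤ f M [i, j, k] := by
    apply cnt_cons_le
    intro B _ hB
    exact cnt_insert _ (by rw [hB]; exact hij) hjk
  have hjk' : f M [j, k] ≤ f M [i, j, k] := cnt_insert _ (by rw [hb]; exact h0) hij
  have hi : f M [i] ≤ f M [i, j] := by
    apply cnt_cons_le
    intro B _ hB
    exact cnt_insert_nil hr (by rw [hB]; exact hij) (by omega)
  have hj : f M [j] ≤ f M [i, j] := cnt_insert _ (by rw [hb]; exact h0) hij
  have hk' : f M [k] ≤ f M [j, k] := cnt_insert _ (by rw [hb]; omega) hjk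
  exact ⟨hi.trans hij', hj.trans hij', hk'.trans hjk', hij', hik', hjk'⟩

theorem two_f4_le : 2 * f M [4] ≤ f M [2, 4] := by
  classical
  have hb : rk M (⊥ : Flat M) = 0 := rk_bot
  calc 2 * f M [4] = ∑ C ∈ (lev M 4).filter (fun C => ⊥ < C), 2 := by
        unfold f
        simp only [cnt]
        rw [sum_const, sum_const, smul_eq_mul, smul_eq_mul]
        ring
    _ ≤ ∑ C ∈ (lev M 4).filter (fun C => ⊥ < C),
          ∑ B ∈ (lev M 2).filter (fun B => ⊥ < B ∧ B < C), 1 := by
        apply sum_le_sum
        intro C hC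
        rw [mem_filter, mem_lev] at hC
        obtain ⟨B, hAB, hBC, hB⟩ := exists_between (k := 2) hC.2 (by rw [hb]; norm_num)
          (by rw [hC.1]; norm_num)
        obtain ⟨P, hAP, hPB, hP⟩ := exists_between (k := 1) hAB (by rw [hb]; norm_num)
          (by rw [hB]; norm_num)
        obtain ⟨e, heC, heB⟩ : ∃ e ∈ C.1, e ∉ B.1 := by
          by_contra hcon
          push Not at hcon
          exact absurd (lt_of_lt_of_le hBC hcon) (lt_irrefl _)
        have heE : e ∈ M.E := C.2.subset_ground heC
        have heP : e ∉ P.1 := fun h => heB (hPB.le h)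
        have h1 : rk M (ins M P e) = 2 := by rw [rk_ins heE heP, hP]
        have h2 : ins M P e ≤ C := ins_le (hPB.le.trans hBC.le) heC
        have h3 : e ∈ (ins M P e).1 := (le_ins heE).2
        have h4 : ins M P e ≠ B := fun h => heB (h ▸ h3)
        rw [sum_const, smul_eq_mul, mul_one]
        have h5 : ({B, ins M P e} : Finset (Flat M)) ⊆
            (lev M 2).filter (fun B => ⊥ < B ∧ B < C) := by
          intro x hx
          rw [mem_insert, mem_singleton] at hx
          rw [mem_filter, mem_lev]
          rcases hx with rfl | rfl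
          · exact ⟨hB, hAB, hBC⟩
          · refine ⟨h1, ?_, ?_⟩
            · apply lt_of_le_of_ne bot_le
              intro h
              rw [← h, hb] at h1
              omega
            · apply lt_of_le_of_ne h2
              intro h
              rw [h, hC.1] at h1
              omega
        calc 2 = #({B, ins M P e} : Finset (Flat M)) := by
              rw [card_pair (Ne.symm h4)]
          _ ≤ _ := card_le_card h5
    _ = ∑ B ∈ (lev M 2).filter (fun B => ⊥ < B),
          ∑ C ∈ (lev M 4).filter (fun C => B < C), 1 := by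
        apply sum_comm'
        intro C B
        simp only [mem_filter]
        constructor
        · rintro ⟨⟨hC, hAC⟩, hB, hAB, hBC⟩
          exact ⟨⟨hC, hBC⟩, hB, hAB⟩
        · rintro ⟨⟨hC, hBC⟩, hB, hAB⟩
          exact ⟨⟨hC, hAB.trans hBC⟩, hB, hAB, hBC⟩
    _ = f M [2, 4] := by
        unfold f
        simp only [cnt]

end DCC8
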