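import Pool.Agent.DCC8.RankF

/-!
# [M4] Flats of the matroid

`rk_one`, `rk_two` are the rank formula of `RankF.lean`.  `mem_span`: `S = sp w F` if `#(FY F) ≤ 1`,
`S = sp w (F ∩ X)` if `#(FY F) ≥ 2` and `rk F ≤ 4`, `S = ⊤` if `rk F = 5` (then `F = ⊤`): adding `x`
with `vec x ∈ S` does not change the rank of `F` by the rank formula, so `x ∈ F` as `F` is a flat.
`dX_lt`: take `x ∈ FX G \ FX F`; then `vec x ∉ sp w (F ∩ X)` (which is contained in the `S` of
`mem_span`).
-/

namespace DCC8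

open DualChow Finset Module

variable {K L : Type} [Field K] [Fintype K] [Field L] [Fintype L] [Algebra K L]
  {w : Fin 4 → L} {hw : LinearIndependent K w}

theorem mem_FX (F : Flat (mat w hw)) (x : (Fin 3 → K) × L) :
    x ∈ FX F ↔ (Sum.inl x : Ex K L) ∈ F.1 := by
  simp [FX]

theorem mem_FY (F : Flat (mat w hw)) (y : L) :
    y ∈ FY F ↔ (Sum.inr y : Ex K L) ∈ F.1 := by
  simp [FY]

theorem inter_Ys (F : Flat (mat w hw)) :
    F.1 ∩ Ys K L = Sum.inr '' (FY F : Set L) := by
  ext e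
  constructor
  · rintro ⟨h, y, rfl⟩
    exact ⟨y, by simpa [mem_FY] using h, rfl⟩
  · rintro ⟨y, hy, rfl⟩
    exact ⟨by simpa [mem_FY] using hy, y, rfl⟩

theorem encard_Ys (F : Flat (mat w hw)) : (F.1 ∩ Ys K L).encard = (#(FY F) : ℕ∞) := by
  rw [inter_Ys, Sum.inr_injective.encard_image, Set.encard_coe_eq_coe_finsetCard]

theorem subsingleton_Ys (F : Flat (mat w hw)) :
    (F.1 ∩ Ys K L).Subsingleton ↔ #(FY F) ≤ 1 := by
  rw [← Set.encard_le_one_iff_subsingleton, encard_Ys]
  norm_cast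

theorem rk_one (F : Flat (mat w hw)) (h : #(FY F) ≤ 1) :
    rk (mat w hw) F = finrank L (sp w F.1) := by
  have h1 := eRk_one w hw F.1 ((subsingleton_Ys F).2 h)
  rw [← rk_cast] at h1
  exact_mod_cast h1

theorem rk_two (F : Flat (mat w hw)) (h4 : rk (mat w hw) F ≤ 4) (h : 2 ≤ #(FY F)) :
    rk (mat w hw) F = dX F + #(FY F) := by
  have h0 : ¬ (F.1 ∩ Ys K L).Subsingleton := by
    rw [subsingleton_Ys]; omega
  have h1 := eRk_two w hw F.1 h0
  rw [← rk_cast, encard_Ys] at h1
  change ((rk (mat w hw) F : ℕ) : ℕ∞) = min 5 (((dX F : ℕ) : ℕ∞) + _) at h1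
  rcases min_choice (5 : ℕ∞) (((dX F : ℕ) : ℕ∞) + (#(FY F) : ℕ∞)) with h2 | h2
  · rw [h2] at h1
    have h3 : rk (mat w hw) F = 5 := by exact_mod_cast h1
    omega
  · rw [h2] at h1
    exact_mod_cast h1

theorem mem_of_eRk (F : Flat (mat w hw)) (e : Ex K L)
    (h : (mat w hw).eRk (insert e F.1) = (mat w hw).eRk F.1) : e ∈ F.1 := by
  by_contra he
  have h1 : e ∉ (mat w hw).closure F.1 := by rw [F.2.closure]; exact he
  have h2 := Matroid.eRk_insert_eq_add_one (M := mat w hw) (e := e) (X := F.1)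
    ⟨by simp, h1⟩
  rw [h, ← rk_cast] at h2
  have h3 : rk (mat w hw) F = rk (mat w hw) F + 1 := by exact_mod_cast h2
  omega

theorem sp_insert_of_mem (A : Set (Ex K L)) (e : Ex K L) (h : vec w e ∈ sp w A) :
    sp w (insert e A) = sp w A := by
  unfold sp at h ⊢
  rw [Set.image_insert_eq, Submodule.span_insert_eq_span h]

theorem insert_inl_Ys (A : Set (Ex K L)) (x : (Fin 3 → K) × L) :
    insert (Sum.inl x : Ex K L) A ∩ Ys K L = A ∩ Ys K L := by
  ext e
  constructor
  · rintro ⟨h1, h2⟩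
    obtain ⟨y, rfl⟩ := h2
    exact ⟨by simpa using h1, y, rfl⟩
  · rintro ⟨h1, h2⟩
    exact ⟨Set.mem_insert_of_mem _ h1, h2⟩

theorem insert_inl_Xs (A : Set (Ex K L)) (x : (Fin 3 → K) × L) :
    insert (Sum.inl x : Ex K L) A ∩ Xs K L = insert (Sum.inl x) (A ∩ Xs K L) := by
  have h : (Sum.inl x : Ex K L) ∈ Xs K L := ⟨x, rfl⟩
  rw [Set.insert_inter_of_mem h]

/-- The version of `mem_span` used for flats with at most one element of `Y`. -/
theorem mem_span_one (F : Flat (mat w hw)) (h : #(FY F) ≤ 1) (x : (Fin 3 → K) × L) :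
    x ∈ FX F ↔ vec w (Sum.inl x) ∈ sp w F.1 := by
  rw [mem_FX]
  constructor
  · intro hx
    exact Submodule.subset_span ⟨_, hx, rfl⟩
  · intro hx
    apply mem_of_eRk
    have h1 := (subsingleton_Ys F).2 h
    rw [eRk_one w hw _ h1, eRk_one w hw _ (by rw [insert_inl_Ys]; exact h1),
      sp_insert_of_mem _ _ hx]

/-- The version of `mem_span` used for flats with at least two elements of `Y`. -/
theorem mem_span_two (F : Flat (mat w hw)) (h4 : rk (mat w hw) F ≤ 4) (h : 2 ≤ #(FY F))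
    (x : (Fin 3 → K) × L) :
    x ∈ FX F ↔ vec w (Sum.inl x) ∈ sp w (F.1 ∩ Xs K L) := by
  have _ := h4
  rw [mem_FX]
  constructor
  · intro hx
    exact Submodule.subset_span ⟨_, ⟨hx, x, rfl⟩, rfl⟩
  · intro hx
    apply mem_of_eRk
    have h1 : ¬ (F.1 ∩ Ys K L).Subsingleton := by
      rw [subsingleton_Ys]; omega
    rw [eRk_two w hw _ h1, eRk_two w hw _ (by rw [insert_inl_Ys]; exact h1),
      insert_inl_Ys, insert_inl_Xs, sp_insert_of_mem _ _ hx]

theorem mem_span (F : Flat (mat w hw)) :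
    ∃ S : Submodule L ((Fin 4 → L) × L), (∀ x, x ∈ FX F ↔ vec w (Sum.inl x) ∈ S) ∧
      sp w (F.1 ∩ Xs K L) ≤ S ∧ finrank L S ≤ rk (mat w hw) F := by
  by_cases h : #(FY F) ≤ 1
  · refine ⟨sp w F.1, mem_span_one F h, ?_, (rk_one F h).ge⟩
    exact Submodule.span_mono (Set.image_mono Set.inter_subset_left)
  · by_cases h4 : rk (mat w hw) F ≤ 4
    · refine ⟨sp w (F.1 ∩ Xs K L), mem_span_two F h4 (by omega), le_rfl, ?_⟩
      rw [rk_two F h4 (by omega)]
      unfold dX
      omega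
    · have h5 : 5 ≤ rk (mat w hw) F := by omega
      have hfr : finrank L ((Fin 4 → L) × L) = 5 := by simp
      refine ⟨⊤, ?_, le_top, by rw [finrank_top, hfr]; exact h5⟩
      intro x
      simp only [Submodule.mem_top, iff_true]
      rw [mem_FX]
      apply mem_of_eRk
      apply le_antisymm
      · refine ((mat w hw).eRk_le_eRank _).trans ?_
        rw [eRank_mat, ← rk_cast]
        exact_mod_cast h5
      · exact (mat w hw).eRk_mono (Set.subset_insert _ _)

theorem dX_le_rk (F : Flat (mat w hw)) : dX F ≤ rk (mat w hw) F := by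
  obtain ⟨S, -, h2, h3⟩ := mem_span F
  exact (Submodule.finrank_mono h2).trans h3

/-- Flats are equal iff both parts are. -/
theorem flat_ext {F G : Flat (mat w hw)} (h1 : FX F = FX G) (h2 : FY F = FY G) : F = G := by
  apply Subtype.ext
  ext e
  cases e with
  | inl x => rw [← mem_FX, ← mem_FX, h1]
  | inr y => rw [← mem_FY, ← mem_FY, h2]

theorem FX_mono {F G : Flat (mat w hw)} (h : F ≤ G) : FX F ⊆ FX G := by
  intro x hx
  rw [mem_FX] at hx ⊢
  exact h hx

theorem FY_mono {F G : Flat (mat w hw)} (h : F ≤ G) : FY F ⊆ FY G := by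
  intro x hx
  rw [mem_FY] at hx ⊢
  exact h hx

theorem dX_mono {F G : Flat (mat w hw)} (h : F ≤ G) : dX F ≤ dX G := by
  apply Submodule.finrank_mono
  exact Submodule.span_mono (Set.image_mono (Set.inter_subset_inter_left _ h))

theorem dX_lt {F G : Flat (mat w hw)} (h4 : rk (mat w hw) F ≤ 4) (h : F < G)
    (hX : FX F ≠ FX G) : dX F < dX G := by
  have _ := h4
  have h1 : ∃ x ∈ FX G, x ∉ FX F := by
    by_contra hcon
    push Not at hcon
    exact hX (Finset.Subset.antisymm (FX_mono h.le) hcon)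
  obtain ⟨x, hxG, hxF⟩ := h1
  obtain ⟨S, hS, h2, -⟩ := mem_span F
  rw [hS] at hxF
  apply Submodule.finrank_lt_finrank_of_lt
  refine lt_of_le_of_ne
    (Submodule.span_mono (Set.image_mono (Set.inter_subset_inter_left _ h.le))) ?_
  intro heq
  apply hxF
  apply h2
  rw [heq]
  rw [mem_FX] at hxG
  exact Submodule.subset_span ⟨_, ⟨hxG, x, rfl⟩, rfl⟩

theorem vec_ne_zero (hw : LinearIndependent K w) (e : Ex K L) : vec w e ≠ 0 := by
  cases e with
  | inl x =>
    intro h
    have h1 := congrArg (fun v : (Fin 4 → L) × L => v.1 0) h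
    simp [vec, one3] at h1
  | inr y =>
    intro h
    have h1 := congrArg (fun v : (Fin 4 → L) × L => v.1 0) h
    exact hw.ne_zero 0 (by simpa [vec] using h1)

theorem indep_singleton (hw : LinearIndependent K w) (e : Ex K L) :
    (mat w hw).Indep {e} := by
  rw [mat_indep]
  have h : LinearIndepOn L (vec w) ({e} : Set (Ex K L)) :=
    LinearIndepOn.singleton (vec_ne_zero hw e)
  refine ⟨h.mono Set.inter_subset_left, ?_, fun _ => h⟩
  rw [Set.encard_singleton]
  norm_num

theorem notMem_bot (e : Ex K L) : e ∉ (⊥ : Flat (mat w hw)).1 := by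
  intro h
  change e ∈ (mat w hw).closure ∅ at h
  have h1 : (mat w hw).IsLoop e := h
  rw [← Matroid.singleton_not_indep] at h1
  exact h1 (indep_singleton hw e)

theorem FX_bot : FX (⊥ : Flat (mat w hw)) = ∅ := by
  apply Finset.eq_empty_of_forall_notMem
  intro x hx
  rw [mem_FX] at hx
  exact notMem_bot _ hx

theorem FY_bot : FY (⊥ : Flat (mat w hw)) = ∅ := by
  apply Finset.eq_empty_of_forall_notMem
  intro x hx
  rw [mem_FY] at hx
  exact notMem_bot _ hx

end DCC8
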