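import Pool.Agent.DCC8.HallA

/-!
# [P2b] The Möbius sums in terms of the flag numbers

Insert `mu_bot*`, `mu_top*`, `mu_mid` of `HallA.lean` in the definitions of `S M 1`, `S M 2`,
`S M 3`, `S13 M`, multiply out and use `f_cons`, `swap` (and a similar exchange of three sums).
-/

namespace DCC8

open DualChow Finset Polynomial IncidenceAlgebra

variable {α : Type*} (M : Matroid α) [M.Finite]

private theorem mem_lev {k : ℕ} {F : Flat M} : F ∈ lev M k ↔ rk M F = k := by
  unfold lev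
  rw [mem_filter]
  exact ⟨fun h => h.2, fun h => ⟨mem_univ _, h⟩⟩

/-- The one-step sum, in `ℤ`. -/
private theorem hb_one (k : ℕ) (T : List ℕ) (hk : 0 < k) :
    ∑ B ∈ lev M k, (cnt M T B : ℤ) = f M (k :: T) := by
  rw [f_cons M k T hk]
  push_cast
  rfl

/-- The one-step sum for the empty list, in `ℤ`. -/
private theorem hb_nil (k : ℕ) (hk : 0 < k) :
    ∑ _B ∈ lev M k, (1 : ℤ) = f M [k] := by
  rw [← hb_one M k [] hk]
  apply sum_congr rfl
  intro B _
  simp [cnt]

open Classical in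
/-- The exchange of two sums, in `ℤ`. -/
private theorem hb_swap (j k : ℕ) (T : List ℕ) (hj : 0 < j) :
    ∑ B ∈ lev M k, ((#((lev M j).filter (fun A => A < B)) : ℤ) * cnt M T B)
      = f M (j :: k :: T) := by
  rw [← swap M j k T hj]
  push_cast
  rfl

open Classical in
private theorem hb_swap_nil (j k : ℕ) (hj : 0 < j) :
    ∑ B ∈ lev M k, (#((lev M j).filter (fun A => A < B)) : ℤ) = f M [j, k] := by
  rw [← hb_swap M j k [] hj]
  apply sum_congr rfl
  intro B _
  simp [cnt]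

open Classical in
/-- The exchange of three sums, in `ℤ`. -/
private theorem hb_swap3 (i j k : ℕ) (T : List ℕ) (hi : 0 < i) :
    ∑ F ∈ lev M k, ((∑ B ∈ (lev M j).filter (fun B => B < F),
      (#((lev M i).filter (fun A => A < B)) : ℤ)) * cnt M T F) = f M (i :: j :: k :: T) := by
  rw [← hb_swap M i j (k :: T) hi]
  have h1 : ∀ B ∈ lev M j, (#((lev M i).filter (fun A => A < B)) : ℤ) * cnt M (k :: T) B
      = ∑ F ∈ (lev M k).filter (fun F => B < F),
        (#((lev M i).filter (fun A => A < B)) : ℤ) * cnt M T F := by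
    intro B _
    rw [← mul_sum]
    congr 1
    simp only [cnt]
    push_cast
    rfl
  rw [sum_congr rfl h1]
  simp_rw [sum_mul]
  rw [sum_comm']
  intro F B
  simp only [mem_filter]
  tauto

open Classical in
private theorem hb_swap3_nil (i j k : ℕ) (hi : 0 < i) :
    ∑ F ∈ lev M k, (∑ B ∈ (lev M j).filter (fun B => B < F),
      (#((lev M i).filter (fun A => A < B)) : ℤ)) = f M [i, j, k] := by
  rw [← hb_swap3 M i j k [] hi]
  apply sum_congr rfl
  intro B _
  simp [cnt]

open Classical in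
/-- Double counting of the pairs `A < B < F`. -/
private theorem hb_pairs (F : Flat M) :
    ∑ A ∈ (lev M 1).filter (fun A => A < F), (#((lev M 2).filter (fun B => A < B ∧ B < F)) : ℤ)
      = ∑ B ∈ (lev M 2).filter (fun B => B < F), (#((lev M 1).filter (fun A => A < B)) : ℤ) := by
  have h1 : ∀ A : Flat M, (#((lev M 2).filter (fun B => A < B ∧ B < F)) : ℤ)
      = ∑ B ∈ (lev M 2).filter (fun B => A < B ∧ B < F), 1 := by
    intro A; simp
  have h2 : ∀ B : Flat M, (#((lev M 1).filter (fun A => A < B)) : ℤ)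
      = ∑ A ∈ (lev M 1).filter (fun A => A < B), 1 := by
    intro A; simp
  simp_rw [h1, h2]
  apply sum_comm'
  intro A B
  simp only [mem_filter]
  constructor
  · rintro ⟨⟨h3, -⟩, h4, h5, h6⟩
    exact ⟨⟨h3, h5⟩, h4, h6⟩
  · rintro ⟨⟨h3, h5⟩, h4, h6⟩
    exact ⟨⟨h3, h5.trans h6⟩, h4, h5, h6⟩

theorem hall_S1 (hr : M.eRank = ((5 : ℕ) : ℕ∞)) :
    S M 1 = f M [1] - f M [1, 2] - f M [1, 3] - f M [1, 4] + f M [1, 2, 3] + f M [1, 2, 4]
      + f M [1, 3, 4] - f M [1, 2, 3, 4] := by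
  have h : S M 1 = ∑ F ∈ lev M 1, ((1 : ℤ) - cnt M [2] F - cnt M [3] F - cnt M [4] F
      + cnt M [2, 3] F + cnt M [2, 4] F + cnt M [3, 4] F - cnt M [2, 3, 4] F) := by
    unfold S
    apply sum_congr rfl
    intro F hF
    rw [mem_lev] at hF
    rw [mu_bot1 M hF, mu_top1 M hr hF]
    ring
  rw [h]
  simp only [sum_sub_distrib, sum_add_distrib]
  rw [hb_nil M 1 one_pos, hb_one M 1 [2] one_pos, hb_one M 1 [3] one_pos, hb_one M 1 [4] one_pos,
    hb_one M 1 [2, 3] one_pos, hb_one M 1 [2, 4] one_pos, hb_one M 1 [3, 4] one_pos,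
    hb_one M 1 [2, 3, 4] one_pos]

theorem hall_S2 (hr : M.eRank = ((5 : ℕ) : ℕ∞)) :
    S M 2 = f M [2] - f M [2, 3] - f M [2, 4] + f M [2, 3, 4] - f M [1, 2] + f M [1, 2, 3]
      + f M [1, 2, 4] - f M [1, 2, 3, 4] := by
  classical
  have h : S M 2 = ∑ F ∈ lev M 2, ((1 : ℤ) - cnt M [3] F - cnt M [4] F + cnt M [3, 4] F
      - #((lev M 1).filter (fun A => A < F)) + #((lev M 1).filter (fun A => A < F)) * cnt M [3] F
      + #((lev M 1).filter (fun A => A < F)) * cnt M [4] F
      - #((lev M 1).filter (fun A => A < F)) * cnt M [3, 4] F) := by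
    unfold S
    apply sum_congr rfl
    intro F hF
    rw [mem_lev] at hF
    rw [mu_bot2 M hF, mu_top2 M hr hF]
    ring
  rw [h]
  simp only [sum_sub_distrib, sum_add_distrib]
  rw [hb_nil M 2 two_pos, hb_one M 2 [3] two_pos, hb_one M 2 [4] two_pos,
    hb_one M 2 [3, 4] two_pos, hb_swap_nil M 1 2 one_pos, hb_swap M 1 2 [3] one_pos,
    hb_swap M 1 2 [4] one_pos, hb_swap M 1 2 [3, 4] one_pos]

theorem hall_S3 (hr : M.eRank = ((5 : ℕ) : ℕ∞)) :
    S M 3 = f M [3] - f M [3, 4] - f M [1, 3] + f M [1, 3, 4] - f M [2, 3] + f M [2, 3, 4]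
      + f M [1, 2, 3] - f M [1, 2, 3, 4] := by
  classical
  have h : S M 3 = ∑ F ∈ lev M 3, ((1 : ℤ) - cnt M [4] F
      - #((lev M 1).filter (fun A => A < F)) + #((lev M 1).filter (fun A => A < F)) * cnt M [4] F
      - #((lev M 2).filter (fun A => A < F)) + #((lev M 2).filter (fun A => A < F)) * cnt M [4] F
      + (∑ B ∈ (lev M 2).filter (fun B => B < F), (#((lev M 1).filter (fun A => A < B)) : ℤ))
      - (∑ B ∈ (lev M 2).filter (fun B => B < F), (#((lev M 1).filter (fun A => A < B)) : ℤ))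
        * cnt M [4] F) := by
    unfold S
    apply sum_congr rfl
    intro F hF
    rw [mem_lev] at hF
    rw [mu_bot3 M hF, mu_top3 M hr hF]
    push_cast
    ring
  rw [h]
  simp only [sum_sub_distrib, sum_add_distrib]
  rw [hb_nil M 3 three_pos, hb_one M 3 [4] three_pos, hb_swap_nil M 1 3 one_pos,
    hb_swap M 1 3 [4] one_pos, hb_swap_nil M 2 3 two_pos, hb_swap M 2 3 [4] two_pos,
    hb_swap3_nil M 1 2 3 one_pos, hb_swap3 M 1 2 3 [4] one_pos]

theorem hall_S13 (hr : M.eRank = ((5 : ℕ) : ℕ∞)) :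
    S13 M = - (f M [1, 2, 3, 4] - f M [1, 2, 3] - f M [1, 3, 4] + f M [1, 3]) := by
  classical
  have h : S13 M = ∑ F ∈ lev M 3,
      (-(#((lev M 1).filter (fun A => A < F)) : ℤ)
      + #((lev M 1).filter (fun A => A < F)) * cnt M [4] F
      + (∑ B ∈ (lev M 2).filter (fun B => B < F), (#((lev M 1).filter (fun A => A < B)) : ℤ))
      - (∑ B ∈ (lev M 2).filter (fun B => B < F), (#((lev M 1).filter (fun A => A < B)) : ℤ))
        * cnt M [4] F) := by
    unfold S13
    apply sum_congr rfl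
    intro F hF
    rw [mem_lev] at hF
    rw [← hb_pairs M F, mu_top3 M hr hF]
    have h1 : ∀ G ∈ (lev M 1).filter (fun G => G < F),
        mu ℤ ⊥ G * mu ℤ G F * (-1 + (cnt M [4] F : ℤ))
          = (-1 + (cnt M [4] F : ℤ)) + (1 - (cnt M [4] F : ℤ)) *
            (#((lev M 2).filter (fun B => G < B ∧ B < F)) : ℤ) := by
      intro G hG
      rw [mem_filter, mem_lev] at hG
      rw [mu_bot1 M hG.1, mu_mid M hG.1 hF hG.2]
      ring
    rw [sum_congr rfl h1, sum_add_distrib, ← mul_sum, sum_const, nsmul_eq_mul]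
    ring
  rw [h]
  simp only [sum_sub_distrib, sum_add_distrib, sum_neg_distrib]
  rw [hb_swap_nil M 1 3 one_pos, hb_swap M 1 3 [4] one_pos,
    hb_swap3_nil M 1 2 3 one_pos, hb_swap3 M 1 2 3 [4] one_pos]
  ring

end DCC8
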