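import Pool.Agent.DCC8.Defs

/-!
# [P3] A quartic with a non-real zero

A quartic `g0 (1+x)^4 + g1 x (1+x)^2 + g2 x^2` with `g0 > 0`, `g1 ^ 2 < 4 g0 g2` has a non-real
zero: it has degree `4`, so it has a complex zero; at a real zero `x` the positive definite form
`g0 a ^ 2 + g1 a b + g2 b ^ 2` vanishes at `(a, b) = ((1 + x) ^ 2, x) ≠ 0`.
-/

namespace DCC8

open DualChow Finset Polynomial

theorem nonreal_root (g0 g1 g2 : ℤ) (h0 : 0 < g0) (hd : g1 ^ 2 < 4 * g0 * g2) :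
    ∃ z : ℂ, z.im ≠ 0 ∧
      aeval z (C g0 * (1 + X) ^ 4 + C g1 * X * (1 + X) ^ 2 + C g2 * X ^ 2 : ℤ[X]) = 0 := by
  set P : ℤ[X] := C g0 * (1 + X) ^ 4 + C g1 * X * (1 + X) ^ 2 + C g2 * X ^ 2 with hP
  have hval : ∀ z : ℂ, aeval z P = g0 * (1 + z) ^ 4 + g1 * z * (1 + z) ^ 2 + g2 * z ^ 2 := by
    intro z
    simp [hP]
  -- the polynomial over ℂ
  set R : ℂ[X] := P.map (Int.castRingHom ℂ) with hR
  have hR4 : R.coeff 4 ≠ 0 := by
    have h1 : P.coeff 4 = g0 := by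
      have h2 : P = C g0 * X ^ 4 + C (4 * g0 + g1) * X ^ 3 + C (6 * g0 + 2 * g1 + g2) * X ^ 2 +
          C (4 * g0 + g1) * X + C g0 := by
        rw [hP]
        simp only [C_add, C_mul, C_ofNat]
        ring
      rw [h2]
      simp only [coeff_add, coeff_C_mul, coeff_X_pow, coeff_X, coeff_C]
      norm_num
    rw [hR, coeff_map, h1]
    simp only [eq_intCast, ne_eq, Int.cast_eq_zero]
    exact h0.ne'
  have hdeg : R.degree ≠ 0 := by
    intro h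
    have h2 := le_degree_of_ne_zero hR4
    rw [h] at h2
    norm_num at h2
  obtain ⟨z, hz⟩ := Complex.exists_root (f := R) (by
    have h2 := le_degree_of_ne_zero hR4
    exact lt_of_lt_of_le (by norm_num) h2)
  have hz' : aeval z P = 0 := by
    rw [aeval_def, eval₂_eq_eval_map]
    exact hz
  refine ⟨z, ?_, hz'⟩
  intro him
  rw [hval] at hz'
  obtain ⟨x, rfl⟩ : ∃ x : ℝ, z = x := ⟨z.re, Complex.ext rfl (by simpa using him)⟩
  have h1 : (g0 : ℝ) * (1 + x) ^ 4 + g1 * x * (1 + x) ^ 2 + g2 * x ^ 2 = 0 := by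
    exact_mod_cast hz'
  have h0' : (0 : ℝ) < g0 := by exact_mod_cast h0
  have hd' : (g1 : ℝ) ^ 2 < 4 * g0 * g2 := by exact_mod_cast hd
  have h2 : (2 * g0 * (1 + x) ^ 2 + g1 * x) ^ 2 + (4 * g0 * g2 - g1 ^ 2) * x ^ 2 = 0 := by
    have : (2 * g0 * (1 + x) ^ 2 + g1 * x) ^ 2 + (4 * g0 * g2 - g1 ^ 2) * x ^ 2 =
        4 * g0 * ((g0 : ℝ) * (1 + x) ^ 4 + g1 * x * (1 + x) ^ 2 + g2 * x ^ 2) := by ring
    rw [this, h1, mul_zero]
  have hx : x = 0 := by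
    by_contra hx
    have h3 : 0 < (4 * g0 * g2 - (g1 : ℝ) ^ 2) * x ^ 2 := mul_pos (by linarith) (by positivity)
    have h4 : 0 ≤ (2 * g0 * (1 + x) ^ 2 + g1 * x) ^ 2 := sq_nonneg _
    linarith
  rw [hx] at h1
  norm_num at h1
  linarith

end DCC8
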