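import Pool.Agent.DCC8.PolyA
import Pool.Agent.DCC8.HallB
import Pool.Agent.DCC8.Root

/-!
# The `γ`-expansion
-/

namespace DCC8

open DualChow Finset Polynomial IncidenceAlgebra

variable {α : Type*} (M : Matroid α) [M.Finite]

theorem dualChow_gamma (hr : M.eRank = ((5 : ℕ) : ℕ∞)) :
    dualChow M = C (g0 M) * (1 + X) ^ 4 + C (g1 M) * X * (1 + X) ^ 2 + C (g2 M) * X ^ 2 := by
  rw [dualChow_rank5 M hr, hall_m5 M hr, hall_S1 M hr, hall_S2 M hr, hall_S3 M hr, hall_S13 M hr]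
  unfold g0 g1 g2
  simp only [map_sub, map_add, map_neg, map_mul, map_one, map_ofNat]
  ring

end DCC8
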