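import Pool.Agent.DCC8.PolyDefs

/-!
# [P2a] The Möbius function of the lattice of flats by counting chains

`mu_top k`: from `μ(F, ⊤) = - ∑ (F < G ≤ ⊤) μ(G, ⊤)` (`IncidenceAlgebra.mu_eq_neg_sum_Ioc_of_ne`),
splitting the sum by the rank of `G` (`⊤` is the only flat of rank `5`), downward induction on the
rank.  `mu_bot k`: from `μ(⊥, F) = - ∑ (⊥ ≤ G < F) μ(⊥, G)`.  `mu_mid`: the interval `(A, F)` only
contains flats of rank `2`.
`swap`: exchange of the order of summation.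
-/

namespace DCC8

open DualChow Finset Polynomial IncidenceAlgebra

variable {α : Type*} (M : Matroid α) [M.Finite]

theorem hallA_mem_lev {k : ℕ} {F : Flat M} : F ∈ lev M k ↔ rk M F = k := by
  unfold lev
  rw [mem_filter]
  exact ⟨fun h => h.2, fun h => ⟨mem_univ _, h⟩⟩

open Classical in
theorem hallA_sum_Ioc (hr : M.eRank = ((5 : ℕ) : ℕ∞)) (F : Flat M) (hF : rk M F < 5)
    (φ : Flat M → ℤ) : ∑ G ∈ Ioc F ⊤, φ G
      = φ ⊤ + ∑ k ∈ Ioo (rk M F) 5, ∑ G ∈ (lev M k).filter (fun G => F < G), φ G := by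
  have ht : rk M (⊤ : Flat M) = 5 := rk_top (K := 3) hr
  have h1 : Ioc F ⊤ = insert ⊤ (univ.filter fun G : Flat M => F < G ∧ G < ⊤) := by
    ext G
    rw [mem_Ioc, mem_insert, mem_filter]
    constructor
    · rintro ⟨h1, h2⟩
      rcases h2.eq_or_lt with h3 | h3
      · exact Or.inl h3
      · exact Or.inr ⟨mem_univ _, h1, h3⟩
    · rintro (h1 | ⟨-, h1, h2⟩)
      · subst h1
        refine ⟨lt_of_le_of_ne le_top ?_, le_rfl⟩
        rintro rfl
        omega
      · exact ⟨h1, h2.le⟩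
  have h2 : (⊤ : Flat M) ∉ univ.filter fun G : Flat M => F < G ∧ G < ⊤ := by
    rw [mem_filter]
    rintro ⟨-, -, h3⟩
    exact lt_irrefl _ h3
  rw [h1, sum_insert h2]
  congr 1
  rw [← sum_fiberwise_of_maps_to (t := Ioo (rk M F) 5) (g := fun G => rk M G)]
  · refine sum_congr rfl fun k hk => ?_
    rw [mem_Ioo] at hk
    refine sum_congr ?_ fun _ _ => rfl
    ext G
    rw [mem_filter, mem_filter, mem_filter, hallA_mem_lev]
    constructor
    · rintro ⟨⟨-, h3, h4⟩, h5⟩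
      exact ⟨h5, h3⟩
    · rintro ⟨h3, h4⟩
      refine ⟨⟨mem_univ _, h4, lt_of_le_of_ne le_top ?_⟩, h3⟩
      rintro rfl
      omega
  · intro G hG
    rw [mem_filter] at hG
    rw [mem_Ioo]
    have h3 := rk_lt_of_lt hG.2.1
    have h4 := rk_lt_of_lt hG.2.2
    omega

open Classical in
theorem hallA_sum_Ico (F : Flat M) (hF : 0 < rk M F) (φ : Flat M → ℤ) : ∑ G ∈ Ico ⊥ F, φ G
      = φ ⊥ + ∑ k ∈ Ioo 0 (rk M F), ∑ G ∈ (lev M k).filter (fun G => G < F), φ G := by
  have ht : rk M (⊥ : Flat M) = 0 := rk_bot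
  have h1 : Ico ⊥ F = insert ⊥ (univ.filter fun G : Flat M => ⊥ < G ∧ G < F) := by
    ext G
    rw [mem_Ico, mem_insert, mem_filter]
    constructor
    · rintro ⟨h1, h2⟩
      rcases h1.eq_or_lt with h3 | h3
      · exact Or.inl h3.symm
      · exact Or.inr ⟨mem_univ _, h3, h2⟩
    · rintro (h1 | ⟨-, h1, h2⟩)
      · subst h1
        refine ⟨le_rfl, lt_of_le_of_ne bot_le ?_⟩
        rintro rfl
        omega
      · exact ⟨h1.le, h2⟩
  have h2 : (⊥ : Flat M) ∉ univ.filter fun G : Flat M => ⊥ < G ∧ G < F := by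
    rw [mem_filter]
    rintro ⟨-, h3, -⟩
    exact lt_irrefl _ h3
  rw [h1, sum_insert h2]
  congr 1
  rw [← sum_fiberwise_of_maps_to (t := Ioo 0 (rk M F)) (g := fun G => rk M G)]
  · refine sum_congr rfl fun k hk => ?_
    rw [mem_Ioo] at hk
    refine sum_congr ?_ fun _ _ => rfl
    ext G
    rw [mem_filter, mem_filter, mem_filter, hallA_mem_lev]
    constructor
    · rintro ⟨⟨-, h3, h4⟩, h5⟩
      exact ⟨h5, h4⟩
    · rintro ⟨h3, h4⟩
      refine ⟨⟨mem_univ _, lt_of_le_of_ne bot_le ?_, h4⟩, h3⟩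
      rintro rfl
      omega
  · intro G hG
    rw [mem_filter] at hG
    rw [mem_Ioo]
    have h3 := rk_lt_of_lt hG.2.1
    have h4 := rk_lt_of_lt hG.2.2
    omega

theorem hallA_Ioo (a b : ℕ) (φ : ℕ → ℤ) :
    ∑ k ∈ Ioo a b, φ k = ∑ k ∈ range (b - (a + 1)), φ (a + 1 + k) := by
  have : Ioo a b = Ico (a + 1) b := by
    ext k
    rw [mem_Ioo, mem_Ico]
    omega
  rw [this, sum_Ico_eq_sum_range]

open Classical in
theorem hallA_cnt_nil (k : ℕ) (A : Flat M) :
    ((cnt M [k] A : ℕ) : ℤ) = ∑ _B ∈ (lev M k).filter (fun B => A < B), (1 : ℤ) := by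
  simp [cnt]

open Classical in
theorem hallA_cnt_cons (k : ℕ) (T : List ℕ) (A : Flat M) :
    ((cnt M (k :: T) A : ℕ) : ℤ)
      = ∑ B ∈ (lev M k).filter (fun B => A < B), ((cnt M T B : ℕ) : ℤ) := by
  simp [cnt]

theorem hallA_top_ne {F : Flat M} (hr : M.eRank = ((5 : ℕ) : ℕ∞)) (h : rk M F < 5) : F ≠ ⊤ := by
  have ht : rk M (⊤ : Flat M) = 5 := rk_top (K := 3) hr
  rintro rfl
  omega

theorem hallA_bot_ne {F : Flat M} (h : 0 < rk M F) : (⊥ : Flat M) ≠ F := by
  have ht : rk M (⊥ : Flat M) = 0 := rk_bot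
  rintro rfl
  omega

theorem mu_top4 (hr : M.eRank = ((5 : ℕ) : ℕ∞)) {F : Flat M} (h : rk M F = 4) :
    mu ℤ F ⊤ = -1 := by
  rw [mu_eq_neg_sum_Ioc_of_ne (hallA_top_ne M hr (by omega)), hallA_sum_Ioc M hr F (by omega),
    hallA_Ioo, h]
  simp

theorem mu_top3 (hr : M.eRank = ((5 : ℕ) : ℕ∞)) {F : Flat M} (h : rk M F = 3) :
    mu ℤ F ⊤ = -1 + cnt M [4] F := by
  classical
  rw [mu_eq_neg_sum_Ioc_of_ne (hallA_top_ne M hr (by omega)), hallA_sum_Ioc M hr F (by omega),
    hallA_Ioo, h]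
  have h4 : ∑ G ∈ (lev M 4).filter (fun G => F < G), mu ℤ G ⊤ = - cnt M [4] F := by
    rw [hallA_cnt_nil, ← sum_neg_distrib]
    refine sum_congr (by congr) fun G hG => ?_
    rw [mem_filter, hallA_mem_lev] at hG
    exact mu_top4 M hr hG.1
  simp only [Nat.reduceAdd, Nat.reduceSub, sum_range_succ, range_zero, sum_empty, zero_add,
    add_zero, h4, mu_self]
  ring

theorem mu_top2 (hr : M.eRank = ((5 : ℕ) : ℕ∞)) {F : Flat M} (h : rk M F = 2) :
    mu ℤ F ⊤ = -1 + cnt M [3] F + cnt M [4] F - cnt M [3, 4] F := by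
  classical
  rw [mu_eq_neg_sum_Ioc_of_ne (hallA_top_ne M hr (by omega)), hallA_sum_Ioc M hr F (by omega),
    hallA_Ioo, h]
  have h4 : ∑ G ∈ (lev M 4).filter (fun G => F < G), mu ℤ G ⊤ = - cnt M [4] F := by
    rw [hallA_cnt_nil, ← sum_neg_distrib]
    refine sum_congr (by congr) fun G hG => ?_
    rw [mem_filter, hallA_mem_lev] at hG
    exact mu_top4 M hr hG.1
  have h3 : ∑ G ∈ (lev M 3).filter (fun G => F < G), mu ℤ G ⊤ = - cnt M [3] F + cnt M [3, 4] F := by
    rw [hallA_cnt_nil, hallA_cnt_cons, ← sum_neg_distrib, ← sum_add_distrib]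
    refine sum_congr (by congr) fun G hG => ?_
    rw [mem_filter, hallA_mem_lev] at hG
    rw [mu_top3 M hr hG.1]
  simp only [Nat.reduceAdd, Nat.reduceSub, sum_range_succ, range_zero, sum_empty, zero_add,
    add_zero, h4, h3, mu_self]
  ring

theorem mu_top1 (hr : M.eRank = ((5 : ℕ) : ℕ∞)) {F : Flat M} (h : rk M F = 1) :
    mu ℤ F ⊤ = -1 + cnt M [2] F + cnt M [3] F + cnt M [4] F - cnt M [2, 3] F - cnt M [2, 4] F
      - cnt M [3, 4] F + cnt M [2, 3, 4] F := by
  classical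
  rw [mu_eq_neg_sum_Ioc_of_ne (hallA_top_ne M hr (by omega)), hallA_sum_Ioc M hr F (by omega),
    hallA_Ioo, h]
  have h4 : ∑ G ∈ (lev M 4).filter (fun G => F < G), mu ℤ G ⊤ = - cnt M [4] F := by
    rw [hallA_cnt_nil, ← sum_neg_distrib]
    refine sum_congr (by congr) fun G hG => ?_
    rw [mem_filter, hallA_mem_lev] at hG
    exact mu_top4 M hr hG.1
  have h3 : ∑ G ∈ (lev M 3).filter (fun G => F < G), mu ℤ G ⊤ = - cnt M [3] F + cnt M [3, 4] F := by
    rw [hallA_cnt_nil, hallA_cnt_cons, ← sum_neg_distrib, ← sum_add_distrib]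
    refine sum_congr (by congr) fun G hG => ?_
    rw [mem_filter, hallA_mem_lev] at hG
    rw [mu_top3 M hr hG.1]
  have h2 : ∑ G ∈ (lev M 2).filter (fun G => F < G), mu ℤ G ⊤
      = - cnt M [2] F + cnt M [2, 3] F + cnt M [2, 4] F - cnt M [2, 3, 4] F := by
    rw [hallA_cnt_nil, hallA_cnt_cons, hallA_cnt_cons, hallA_cnt_cons, ← sum_neg_distrib,
      ← sum_add_distrib, ← sum_add_distrib, ← sum_sub_distrib]
    refine sum_congr (by congr) fun G hG => ?_
    rw [mem_filter, hallA_mem_lev] at hG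
    rw [mu_top2 M hr hG.1]
  simp only [Nat.reduceAdd, Nat.reduceSub, sum_range_succ, range_zero, sum_empty, zero_add,
    add_zero, h4, h3, h2, mu_self]
  ring

theorem hall_m5 (hr : M.eRank = ((5 : ℕ) : ℕ∞)) : m5 M = - g0 M := by
  classical
  have h : rk M (⊥ : Flat M) = 0 := rk_bot
  unfold m5 g0 f
  rw [mu_eq_neg_sum_Ioc_of_ne (hallA_top_ne M hr (by omega)), hallA_sum_Ioc M hr ⊥ (by omega),
    hallA_Ioo, h]
  have h4 : ∑ G ∈ (lev M 4).filter (fun G => ⊥ < G), mu ℤ G ⊤ = - cnt M [4] ⊥ := by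
    rw [hallA_cnt_nil, ← sum_neg_distrib]
    refine sum_congr (by congr) fun G hG => ?_
    rw [mem_filter, hallA_mem_lev] at hG
    exact mu_top4 M hr hG.1
  have h3 : ∑ G ∈ (lev M 3).filter (fun G => ⊥ < G), mu ℤ G ⊤ = - cnt M [3] ⊥ + cnt M [3, 4] ⊥ := by
    rw [hallA_cnt_nil, hallA_cnt_cons, ← sum_neg_distrib, ← sum_add_distrib]
    refine sum_congr (by congr) fun G hG => ?_
    rw [mem_filter, hallA_mem_lev] at hG
    rw [mu_top3 M hr hG.1]
  have h2 : ∑ G ∈ (lev M 2).filter (fun G => ⊥ < G), mu ℤ G ⊤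
      = - cnt M [2] ⊥ + cnt M [2, 3] ⊥ + cnt M [2, 4] ⊥ - cnt M [2, 3, 4] ⊥ := by
    rw [hallA_cnt_nil, hallA_cnt_cons, hallA_cnt_cons, hallA_cnt_cons, ← sum_neg_distrib,
      ← sum_add_distrib, ← sum_add_distrib, ← sum_sub_distrib]
    refine sum_congr (by congr) fun G hG => ?_
    rw [mem_filter, hallA_mem_lev] at hG
    rw [mu_top2 M hr hG.1]
  have h1 : ∑ G ∈ (lev M 1).filter (fun G => ⊥ < G), mu ℤ G ⊤
      = - cnt M [1] ⊥ + cnt M [1, 2] ⊥ + cnt M [1, 3] ⊥ + cnt M [1, 4] ⊥ - cnt M [1, 2, 3] ⊥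
        - cnt M [1, 2, 4] ⊥ - cnt M [1, 3, 4] ⊥ + cnt M [1, 2, 3, 4] ⊥ := by
    rw [hallA_cnt_nil, hallA_cnt_cons, hallA_cnt_cons, hallA_cnt_cons, hallA_cnt_cons,
      hallA_cnt_cons, hallA_cnt_cons, hallA_cnt_cons, ← sum_neg_distrib,
      ← sum_add_distrib, ← sum_add_distrib, ← sum_add_distrib, ← sum_sub_distrib,
      ← sum_sub_distrib, ← sum_sub_distrib, ← sum_add_distrib]
    refine sum_congr (by congr) fun G hG => ?_
    rw [mem_filter, hallA_mem_lev] at hG
    rw [mu_top1 M hr hG.1]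
  simp only [Nat.reduceAdd, Nat.reduceSub, sum_range_succ, range_zero, sum_empty, zero_add,
    add_zero, h4, h3, h2, h1, mu_self]
  ring

open Classical in
theorem mu_bot1 {F : Flat M} (h : rk M F = 1) : mu ℤ (⊥ : Flat M) F = -1 := by
  rw [mu_eq_neg_sum_Ico_of_ne (hallA_bot_ne M (by omega)), hallA_sum_Ico M F (by omega),
    hallA_Ioo, h]
  simp

open Classical in
theorem mu_bot2 {F : Flat M} (h : rk M F = 2) :
    mu ℤ (⊥ : Flat M) F = -1 + #((lev M 1).filter (fun A => A < F)) := by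
  rw [mu_eq_neg_sum_Ico_of_ne (hallA_bot_ne M (by omega)), hallA_sum_Ico M F (by omega),
    hallA_Ioo, h]
  have h1 : ∑ G ∈ (lev M 1).filter (fun G => G < F), mu ℤ ⊥ G
      = - #((lev M 1).filter (fun A => A < F)) := by
    rw [card_eq_sum_ones]
    push_cast
    rw [← sum_neg_distrib]
    refine sum_congr (by congr) fun G hG => ?_
    rw [mem_filter, hallA_mem_lev] at hG
    exact mu_bot1 M hG.1
  simp only [Nat.reduceAdd, Nat.reduceSub, sum_range_succ, range_zero, sum_empty, zero_add,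
    add_zero, h1, mu_self]
  ring

open Classical in
theorem mu_bot3 {F : Flat M} (h : rk M F = 3) :
    mu ℤ (⊥ : Flat M) F = -1 + #((lev M 1).filter (fun A => A < F))
      + #((lev M 2).filter (fun B => B < F))
      - ∑ B ∈ (lev M 2).filter (fun B => B < F), #((lev M 1).filter (fun A => A < B)) := by
  rw [mu_eq_neg_sum_Ico_of_ne (hallA_bot_ne M (by omega)), hallA_sum_Ico M F (by omega),
    hallA_Ioo, h]
  have h1 : ∑ G ∈ (lev M 1).filter (fun G => G < F), mu ℤ ⊥ G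
      = - #((lev M 1).filter (fun A => A < F)) := by
    rw [card_eq_sum_ones]
    push_cast
    rw [← sum_neg_distrib]
    refine sum_congr (by congr) fun G hG => ?_
    rw [mem_filter, hallA_mem_lev] at hG
    exact mu_bot1 M hG.1
  have h2 : ∑ G ∈ (lev M 2).filter (fun G => G < F), mu ℤ ⊥ G
      = - #((lev M 2).filter (fun A => A < F))
        + ∑ B ∈ (lev M 2).filter (fun B => B < F), #((lev M 1).filter (fun A => A < B)) := by
    rw [card_eq_sum_ones]
    push_cast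
    rw [← sum_neg_distrib, ← sum_add_distrib]
    refine sum_congr (by congr) fun G hG => ?_
    rw [mem_filter, hallA_mem_lev] at hG
    rw [mu_bot2 M hG.1]
  simp only [Nat.reduceAdd, Nat.reduceSub, sum_range_succ, range_zero, sum_empty, zero_add,
    add_zero, h1, h2, mu_self]
  ring

open Classical in
theorem mu_mid {A F : Flat M} (hA : rk M A = 1) (hF : rk M F = 3) (h : A < F) :
    mu ℤ A F = -1 + #((lev M 2).filter (fun B => A < B ∧ B < F)) := by
  rw [mu_eq_neg_sum_Ico_of_ne h.ne]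
  have h1 : Ico A F = insert A ((lev M 2).filter (fun B => A < B ∧ B < F)) := by
    ext G
    rw [mem_Ico, mem_insert, mem_filter, hallA_mem_lev]
    constructor
    · rintro ⟨h1, h2⟩
      rcases h1.eq_or_lt with h3 | h3
      · exact Or.inl h3.symm
      · have h4 := rk_lt_of_lt h3
        have h5 := rk_lt_of_lt h2
        exact Or.inr ⟨by omega, h3, h2⟩
    · rintro (h1 | ⟨-, h1, h2⟩)
      · subst h1
        exact ⟨le_rfl, h⟩
      · exact ⟨h1.le, h2⟩
  have h2 : A ∉ (lev M 2).filter (fun B => A < B ∧ B < F) := by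
    rw [mem_filter]
    rintro ⟨-, h3, -⟩
    exact lt_irrefl _ h3
  rw [h1, sum_insert h2, mu_self, card_eq_sum_ones]
  push_cast
  have h3 : ∑ B ∈ (lev M 2).filter (fun B => A < B ∧ B < F), mu ℤ A B
      = - ∑ B ∈ (lev M 2).filter (fun B => A < B ∧ B < F), (1 : ℤ) := by
    rw [← sum_neg_distrib]
    refine sum_congr rfl fun B hB => ?_
    rw [mem_filter, hallA_mem_lev] at hB
    rw [mu_eq_neg_sum_Ico_of_ne hB.2.1.ne]
    have h4 : Ico A B = {A} := by
      ext G
      rw [mem_Ico, mem_singleton]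
      constructor
      · rintro ⟨h5, h6⟩
        rcases h5.eq_or_lt with h7 | h7
        · exact h7.symm
        · have h8 := rk_lt_of_lt h7
          have h9 := rk_lt_of_lt h6
          omega
      · rintro rfl
        exact ⟨le_rfl, hB.2.1⟩
    rw [h4, sum_singleton, mu_self]
  rw [h3]
  ring

/-- For positive rank lists the flag number is the plain sum. -/
theorem f_cons (k : ℕ) (T : List ℕ) (hk : 0 < k) : f M (k :: T) = ∑ B ∈ lev M k, cnt M T B := by
  classical
  unfold f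
  show ∑ B ∈ (lev M k).filter (fun B => ⊥ < B), cnt M T B = _
  refine sum_congr ?_ fun _ _ => rfl
  ext B
  rw [mem_filter, hallA_mem_lev]
  constructor
  · exact fun h => h.1
  · intro h
    exact ⟨h, lt_of_le_of_ne bot_le (hallA_bot_ne M (by omega))⟩

open Classical in
theorem swap (j k : ℕ) (T : List ℕ) (hj : 0 < j) :
    ∑ B ∈ lev M k, #((lev M j).filter (fun A => A < B)) * cnt M T B = f M (j :: k :: T) := by
  rw [f_cons M j (k :: T) hj]
  have h1 : ∀ A : Flat M, cnt M (k :: T) A = ∑ B ∈ lev M k, if A < B then cnt M T B else 0 := by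
    intro A
    show ∑ B ∈ (lev M k).filter (fun B => A < B), cnt M T B = _
    rw [sum_filter]
  simp only [h1]
  rw [sum_comm]
  refine sum_congr rfl fun B _ => ?_
  rw [← sum_filter, sum_const, smul_eq_mul]

end DCC8
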