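import Pool.Agent.DCC8.Flats

/-!
# [M6] A flat of rank `4` with exactly one element of `Y` has at least `q ^ 3` elements of `X`

By `rk_one` `finrank (sp w F) = 4`, so `sp w F` is the kernel of a nonzero functional
`(v, t) ↦ ∑ a j * v j + b * t` on `L ^ 4 × L`, and by `mem_span_one` `(s, t) ∈ FX F` iff
`a 0 + a 1 * s 0 + a 2 * s 1 + a 3 * s 2 + b * t = 0`.  If `b ≠ 0` there is exactly one `t` for each
`s`: `q ^ 3` elements.  If `b = 0` then, `FX F` being nonempty (otherwise `F` has just one element
and `finrank (sp w F) ≤ 1`), with `(s, t)` it contains `(s, t')` for all `t' : L`: at least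
`q ^ 4` elements.
-/

namespace DCC8

open DualChow Finset Module

variable {K L : Type} [Field K] [Fintype K] [Field L] [Fintype L] [Algebra K L]
  {w : Fin 4 → L} {hw : LinearIndependent K w}

private theorem finrank_V : finrank L ((Fin 4 → L) × L) = 5 := by
  rw [finrank_prod, finrank_fin_fun, finrank_self]

private theorem vec_split (w : Fin 4 → L) (φ : ((Fin 4 → L) × L) →ₗ[L] L) (s : Fin 3 → K) (t : L) :
    φ (vec w (Sum.inl (s, t))) = φ (one3 L s, 0) + t * φ (0, 1) := by
  have h : vec w (Sum.inl (s, t)) = ((one3 L s, 0) : (Fin 4 → L) × L) + t • ((0, 1) : (Fin 4 → L) × L) := by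
    simp [vec]
  rw [h, map_add, map_smul, smul_eq_mul]

theorem card_FX_hyp (hL : Fintype.card L = Fintype.card K ^ 4) (F : Flat (mat w hw))
    (h4 : rk (mat w hw) F = 4) (h : #(FY F) = 1) : Fintype.card K ^ 3 ≤ #(FX F) := by
  classical
  have hU : finrank L (sp w F.1) = 4 := by rw [← rk_one F h.le, h4]
  have hlt : sp w F.1 < ⊤ := by
    rw [lt_top_iff_ne_top]
    intro htop
    rw [htop, finrank_top, finrank_V] at hU
    omega
  obtain ⟨φ, hφ0, hφ⟩ := Submodule.exists_le_ker_of_lt_top _ hlt
  have hker : sp w F.1 = LinearMap.ker φ := by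
    apply Submodule.eq_of_le_of_finrank_le hφ
    have h1 : LinearMap.ker φ < ⊤ := by
      rw [lt_top_iff_ne_top]
      intro htop
      exact hφ0 (LinearMap.ker_eq_top.1 htop)
    have h2 := Submodule.finrank_lt h1.ne
    rw [finrank_V] at h2
    omega
  have hmem : ∀ (s : Fin 3 → K) (t : L), (s, t) ∈ FX F ↔ φ (one3 L s, 0) + t * φ (0, 1) = 0 := by
    intro s t
    rw [mem_span_one F h.le, hker, LinearMap.mem_ker, vec_split]
  have hKpos : 0 < Fintype.card K := Fintype.card_pos
  by_cases hb : φ (0, 1) = 0
  · -- the functional does not depend on `t`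
    have hne : (FX F).Nonempty := by
      rw [Finset.nonempty_iff_ne_empty]
      intro hem
      obtain ⟨y, hy⟩ := Finset.card_eq_one.1 h
      have hsub : F.1 ⊆ {Sum.inr y} := by
        rintro (x | y') hx
        · exfalso
          have : x ∈ FX F := by simp [FX, hx]
          rw [hem] at this
          simp at this
        · have : y' ∈ FY F := by simp [FY, hx]
          rw [hy, Finset.mem_singleton] at this
          rw [this]
          rfl
      have h1 : sp w F.1 ≤ Submodule.span L {vec w (Sum.inr y : Ex K L)} := by
        unfold sp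
        apply Submodule.span_mono
        rintro _ ⟨e, he, rfl⟩
        have := hsub he
        rw [Set.mem_singleton_iff] at this
        rw [this]
        rfl
      have h2 := Submodule.finrank_mono h1
      have h3 : finrank L (Submodule.span L {vec w (Sum.inr y : Ex K L)}) ≤ 1 := by
        refine (finrank_span_le_card _).trans ?_
        simp
      omega
    obtain ⟨⟨s, t⟩, hst⟩ := hne
    have h1 : φ (one3 L s, 0) = 0 := by
      have := (hmem s t).1 hst
      rwa [hb, mul_zero, add_zero] at this
    have h2 : Finset.univ.image (fun t' : L => (s, t')) ⊆ FX F := by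
      intro x hx
      obtain ⟨t', -, rfl⟩ := Finset.mem_image.1 hx
      rw [hmem, hb, mul_zero, add_zero, h1]
    have h3 := Finset.card_le_card h2
    rw [Finset.card_image_of_injective _ (fun a b hab => by simpa using hab), Finset.card_univ,
      hL] at h3
    exact (Nat.pow_le_pow_right hKpos (by norm_num)).trans h3
  · have h2 : Finset.univ.image (fun s : Fin 3 → K => (s, -φ (one3 L s, 0) / φ (0, 1))) ⊆ FX F := by
      intro x hx
      obtain ⟨s, -, rfl⟩ := Finset.mem_image.1 hx
      rw [hmem]
      field_simp
      ring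
    have h3 := Finset.card_le_card h2
    rw [Finset.card_image_of_injective _ (fun a b hab => (Prod.ext_iff.1 hab).1), Finset.card_univ,
      Fintype.card_fun, Fintype.card_fin] at h3
    exact h3

end DCC8
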