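import Pool.Agent.DCC8.Flats
import Pool.Agent.DCC8.ExtA

/-!
# [L1] Many complete flags: `q ^ 22 ≤ f [1,2,3,4]`

Inject `K^3 × K^3 × L^4` into the complete flags:
to `(s, (a, b, c), t₁, t₂, t₃, t₄)` attach the elements of `X`
`x₁ = (s, t₁)`, `x₂ = (s + (1, a, b), t₂)`, `x₃ = (s + (0, 1, c), t₃)`, `x₄ = (s + (0, 0, 1), t₄)`
and the flats `Fᵢ = closure {x₁, …, xᵢ}`.  The vectors of the `xᵢ` are linearly independent
(triangular), so `{x₁, …, xᵢ}` is independent and `rk Fᵢ = i`; and `x ∈ FX Fᵢ` iff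
`vec x ∈ span (vec x₁, …, vec xᵢ)`: `x ∈ closure I` iff `x ∈ I` or `insert x I` is not
independent, and all these sets are contained in `X`.  (No other facts about flats are needed.)
Injectivity: `F₁` determines `x₁`; if `x₂' = (s + (1, a', b'), t₂') ∈ F₂` then
`vec x₂' = c₁ vec x₁ + c₂ vec x₂`, the coordinates `1` and `s₀` give `c₁ + c₂ = 1`, `c₂ = 1`, so
`x₂' = x₂`; similarly for `x₃` (`c₂ = 0`, `c₃ = 1`, `c₁ = 0`) and `x₄`
(`c₂ = c₃ = c₁ = 0`, `c₄ = 1`).
-/

namespace DCC8

open DualChow Finset Module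

variable {K L : Type} [Field K] [Fintype K] [Field L] [Fintype L] [Algebra K L]
  {w : Fin 4 → L} {hw : LinearIndependent K w}

namespace LL1

lemma inter_Xs {I : Set (Ex K L)} (hI : I ⊆ Xs K L) : I ∩ Xs K L = I :=
  Set.inter_eq_left.2 hI

lemma inter_Ys {I : Set (Ex K L)} (hI : I ⊆ Xs K L) : I ∩ Ys K L = ∅ := by
  ext e
  constructor
  · rintro ⟨h1, h2⟩
    obtain ⟨x, rfl⟩ := hI h1
    obtain ⟨y, hy⟩ := h2
    exact absurd hy (by simp)
  · intro h; exact h.elim

lemma ind_X {w : Fin 4 → L} {I : Set (Ex K L)} (hI : I ⊆ Xs K L)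
    (h : LinearIndepOn L (vec w) I) (h5 : I.encard ≤ 5) : Ind w I := by
  refine ⟨?_, h5, fun _ => h⟩
  rw [inter_Xs hI]; exact h

/-- Membership in the closure of a small independent set of `X`'s. -/
lemma span_of_mem {I : Set (Ex K L)} (hI : I ⊆ Xs K L)
    (h : LinearIndepOn L (vec w) I) (h4 : I.encard ≤ 4) {x : (Fin 3 → K) × L}
    (hx : (Sum.inl x : Ex K L) ∈ (mat w hw).closure I) :
    vec w (Sum.inl x) ∈ Submodule.span L (vec w '' I) := by
  by_contra hns
  have hxI : (Sum.inl x : Ex K L) ∉ I := fun h' =>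
    hns (Submodule.subset_span ⟨_, h', rfl⟩)
  have h1 : LinearIndepOn L (vec w) (insert (Sum.inl x : Ex K L) I) :=
    (linearIndepOn_insert hxI).2 ⟨h, hns⟩
  have h2 : insert (Sum.inl x : Ex K L) I ⊆ Xs K L := by
    rw [Set.insert_subset_iff]; exact ⟨⟨x, rfl⟩, hI⟩
  have h3 : (insert (Sum.inl x : Ex K L) I).encard ≤ 5 := by
    rw [Set.encard_insert_of_notMem hxI]
    calc I.encard + 1 ≤ 4 + 1 := by gcongr
      _ = 5 := by norm_num
  have hind : (mat w hw).Indep I := (mat_indep w hw I).2 (ind_X hI h (h4.trans (by norm_num)))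
  have h5 := (hind.mem_closure_iff'.1 hx).2 ((mat_indep w hw _).2 (ind_X h2 h1 h3))
  exact hxI h5

section Pts

variable (s c : Fin 3 → K) (t : Fin 4 → L)

/-- The four points. -/
def pt : Fin 4 → (Fin 3 → K) × L
  | 0 => (s, t 0)
  | 1 => (![s 0 + 1, s 1 + c 0, s 2 + c 1], t 1)
  | 2 => (![s 0, s 1 + 1, s 2 + c 2], t 2)
  | 3 => (![s 0, s 1, s 2 + 1], t 3)

/-- The elements of the ground set. -/
def el (i : Fin 4) : Ex K L := Sum.inl (pt s c t i)

lemma vec_el0 (w : Fin 4 → L) : vec w (el s c t 0)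
    = (![1, algebraMap K L (s 0), algebraMap K L (s 1), algebraMap K L (s 2)], t 0) := by
  ext i
  · fin_cases i <;> simp [vec, el, pt, one3]
  · simp [vec, el, pt]

lemma vec_el1 (w : Fin 4 → L) : vec w (el s c t 1)
    = (![1, algebraMap K L (s 0) + 1, algebraMap K L (s 1) + algebraMap K L (c 0),
        algebraMap K L (s 2) + algebraMap K L (c 1)], t 1) := by
  ext i
  · fin_cases i <;> simp [vec, el, pt, one3]
  · simp [vec, el, pt]

lemma vec_el2 (w : Fin 4 → L) : vec w (el s c t 2)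
    = (![1, algebraMap K L (s 0), algebraMap K L (s 1) + 1,
        algebraMap K L (s 2) + algebraMap K L (c 2)], t 2) := by
  ext i
  · fin_cases i <;> simp [vec, el, pt, one3]
  · simp [vec, el, pt]

lemma vec_el3 (w : Fin 4 → L) : vec w (el s c t 3)
    = (![1, algebraMap K L (s 0), algebraMap K L (s 1), algebraMap K L (s 2) + 1], t 3) := by
  ext i
  · fin_cases i <;> simp [vec, el, pt, one3]
  · simp [vec, el, pt]

/-- The prefixes. -/
def I1 : Set (Ex K L) := {el s c t 0}
/-- The prefixes. -/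
def I2 : Set (Ex K L) := insert (el s c t 1) (I1 s c t)
/-- The prefixes. -/
def I3 : Set (Ex K L) := insert (el s c t 2) (I2 s c t)
/-- The prefixes. -/
def I4 : Set (Ex K L) := insert (el s c t 3) (I3 s c t)

lemma span1 {w : Fin 4 → L} {v : (Fin 4 → L) × L}
    (h : v ∈ Submodule.span L (vec w '' I1 s c t)) : ∃ a : L, v = a • vec w (el s c t 0) := by
  rw [I1, Set.image_singleton, Submodule.mem_span_singleton] at h
  obtain ⟨a, ha⟩ := h
  exact ⟨a, ha.symm⟩

lemma span2 {w : Fin 4 → L} {v : (Fin 4 → L) × L}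
    (h : v ∈ Submodule.span L (vec w '' I2 s c t)) :
    ∃ a b : L, v = a • vec w (el s c t 0) + b • vec w (el s c t 1) := by
  rw [I2, Set.image_insert_eq, Submodule.mem_span_insert] at h
  obtain ⟨b, z, hz, rfl⟩ := h
  obtain ⟨a, rfl⟩ := span1 s c t hz
  exact ⟨a, b, add_comm _ _⟩

lemma span3 {w : Fin 4 → L} {v : (Fin 4 → L) × L}
    (h : v ∈ Submodule.span L (vec w '' I3 s c t)) :
    ∃ a b d : L, v = a • vec w (el s c t 0) + b • vec w (el s c t 1)
      + d • vec w (el s c t 2) := by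
  rw [I3, Set.image_insert_eq, Submodule.mem_span_insert] at h
  obtain ⟨d, z, hz, rfl⟩ := h
  obtain ⟨a, b, rfl⟩ := span2 s c t hz
  exact ⟨a, b, d, add_comm _ _⟩

lemma span4 {w : Fin 4 → L} {v : (Fin 4 → L) × L}
    (h : v ∈ Submodule.span L (vec w '' I4 s c t)) :
    ∃ a b d e : L, v = a • vec w (el s c t 0) + b • vec w (el s c t 1)
      + d • vec w (el s c t 2) + e • vec w (el s c t 3) := by
  rw [I4, Set.image_insert_eq, Submodule.mem_span_insert] at h
  obtain ⟨e, z, hz, rfl⟩ := h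
  obtain ⟨a, b, d, rfl⟩ := span3 s c t hz
  exact ⟨a, b, d, e, add_comm _ _⟩

lemma vec_inj {w : Fin 4 → L} {x x' : (Fin 3 → K) × L}
    (h : vec w (Sum.inl x : Ex K L) = vec w (Sum.inl x')) : x = x' := by
  simp only [vec, Prod.mk.injEq] at h
  obtain ⟨h1, h2⟩ := h
  ext i
  · have h3 := congrFun h1 i.succ
    simp only [one3, Matrix.cons_val_succ] at h3
    exact (algebraMap K L).injective h3
  · exact h2

/-- A point with first coordinates those of `el 1` in the span of the first two is `el 1`. -/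
lemma det1 {w : Fin 4 → L} {v : (Fin 4 → L) × L}
    (h : v ∈ Submodule.span L (vec w '' I1 s c t)) (h0 : v.1 0 = 1) :
    v = vec w (el s c t 0) := by
  obtain ⟨a, rfl⟩ := span1 s c t h
  rw [vec_el0] at h0
  simp at h0
  rw [h0, one_smul]

lemma det2 {w : Fin 4 → L} {v : (Fin 4 → L) × L}
    (h : v ∈ Submodule.span L (vec w '' I2 s c t)) (h0 : v.1 0 = 1)
    (h1 : v.1 1 = algebraMap K L (s 0) + 1) :
    v = vec w (el s c t 1) := by
  obtain ⟨a, b, rfl⟩ := span2 s c t h
  rw [vec_el0, vec_el1] at h0 h1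
  simp at h0 h1
  have hb : b = 1 := by linear_combination h1 - (algebraMap K L (s 0)) * h0
  have ha : a = 0 := by linear_combination h0 - hb
  rw [ha, hb, one_smul, zero_smul, zero_add]

lemma det3 {w : Fin 4 → L} {v : (Fin 4 → L) × L}
    (h : v ∈ Submodule.span L (vec w '' I3 s c t)) (h0 : v.1 0 = 1)
    (h1 : v.1 1 = algebraMap K L (s 0)) (h2 : v.1 2 = algebraMap K L (s 1) + 1) :
    v = vec w (el s c t 2) := by
  obtain ⟨a, b, d, rfl⟩ := span3 s c t h
  rw [vec_el0, vec_el1, vec_el2] at h0 h1 h2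
  simp at h0 h1 h2
  have hb : b = 0 := by linear_combination h1 - (algebraMap K L (s 0)) * h0
  have hd : d = 1 := by
    linear_combination h2 - (algebraMap K L (s 1)) * h0 - (algebraMap K L (c 0)) * hb
  have ha : a = 0 := by linear_combination h0 - hb - hd
  rw [ha, hb, hd, one_smul, zero_smul, zero_smul, zero_add, zero_add]

lemma det4 {w : Fin 4 → L} {v : (Fin 4 → L) × L}
    (h : v ∈ Submodule.span L (vec w '' I4 s c t)) (h0 : v.1 0 = 1)
    (h1 : v.1 1 = algebraMap K L (s 0)) (h2 : v.1 2 = algebraMap K L (s 1))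
    (h3 : v.1 3 = algebraMap K L (s 2) + 1) :
    v = vec w (el s c t 3) := by
  obtain ⟨a, b, d, e, rfl⟩ := span4 s c t h
  rw [vec_el0, vec_el1, vec_el2, vec_el3] at h0 h1 h2 h3
  simp at h0 h1 h2 h3
  have hb : b = 0 := by linear_combination h1 - (algebraMap K L (s 0)) * h0
  have hd : d = 0 := by
    linear_combination h2 - (algebraMap K L (s 1)) * h0 - (algebraMap K L (c 0)) * hb
  have he : e = 1 := by
    linear_combination h3 - (algebraMap K L (s 2)) * h0 - (algebraMap K L (c 1)) * hb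
      - (algebraMap K L (c 2)) * hd
  have ha : a = 0 := by linear_combination h0 - hb - hd - he
  rw [ha, hb, hd, he, one_smul, zero_smul, zero_smul, zero_smul, zero_add, zero_add, zero_add]

lemma not1 (w : Fin 4 → L) : vec w (el s c t 1) ∉ Submodule.span L (vec w '' I1 s c t) := by
  intro h
  have h1 := det1 s c t h (by rw [vec_el1]; simp)
  rw [vec_el0, vec_el1] at h1
  have h2 := congrFun (Prod.ext_iff.1 h1).1 1
  simp at h2

lemma not2 (w : Fin 4 → L) : vec w (el s c t 2) ∉ Submodule.span L (vec w '' I2 s c t) := by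
  intro h
  obtain ⟨a, b, h1⟩ := span2 s c t h
  rw [vec_el0, vec_el1, vec_el2] at h1
  have e0 := congrFun (Prod.ext_iff.1 h1).1 0
  have e1 := congrFun (Prod.ext_iff.1 h1).1 1
  have e2 := congrFun (Prod.ext_iff.1 h1).1 2
  simp at e0 e1 e2
  have hb : b = 0 := by linear_combination -e1 + (algebraMap K L (s 0)) * e0
  have hn : (1 : L) = 0 := by
    linear_combination e2 - (algebraMap K L (s 1)) * e0 + (algebraMap K L (c 0)) * hb
  exact one_ne_zero hn

lemma not3 (w : Fin 4 → L) : vec w (el s c t 3) ∉ Submodule.span L (vec w '' I3 s c t) := by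
  intro h
  obtain ⟨a, b, d, h1⟩ := span3 s c t h
  rw [vec_el0, vec_el1, vec_el2, vec_el3] at h1
  have e0 := congrFun (Prod.ext_iff.1 h1).1 0
  have e1 := congrFun (Prod.ext_iff.1 h1).1 1
  have e2 := congrFun (Prod.ext_iff.1 h1).1 2
  have e3 := congrFun (Prod.ext_iff.1 h1).1 3
  simp at e0 e1 e2 e3
  have hb : b = 0 := by linear_combination -e1 + (algebraMap K L (s 0)) * e0
  have hd : d = 0 := by
    linear_combination -e2 + (algebraMap K L (s 1)) * e0 - (algebraMap K L (c 0)) * hb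
  have hn : (1 : L) = 0 := by
    linear_combination e3 - (algebraMap K L (s 2)) * e0 + (algebraMap K L (c 1)) * hb
      + (algebraMap K L (c 2)) * hd
  exact one_ne_zero hn

lemma lin1 (w : Fin 4 → L) : LinearIndepOn L (vec w) (I1 s c t) := by
  rw [I1, linearIndepOn_singleton_iff]
  intro h
  rw [vec_el0] at h
  have h2 := congrFun (Prod.ext_iff.1 h).1 0
  simp at h2

lemma el1_notMem : el s c t 1 ∉ I1 s c t := fun h =>
  not1 s c t (0 : Fin 4 → L) (Submodule.subset_span ⟨_, h, rfl⟩)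

lemma el2_notMem : el s c t 2 ∉ I2 s c t := fun h =>
  not2 s c t (0 : Fin 4 → L) (Submodule.subset_span ⟨_, h, rfl⟩)

lemma el3_notMem : el s c t 3 ∉ I3 s c t := fun h =>
  not3 s c t (0 : Fin 4 → L) (Submodule.subset_span ⟨_, h, rfl⟩)

lemma lin2 (w : Fin 4 → L) : LinearIndepOn L (vec w) (I2 s c t) :=
  (linearIndepOn_insert (el1_notMem s c t)).2 ⟨lin1 s c t w, not1 s c t w⟩

lemma lin3 (w : Fin 4 → L) : LinearIndepOn L (vec w) (I3 s c t) :=
  (linearIndepOn_insert (el2_notMem s c t)).2 ⟨lin2 s c t w, not2 s c t w⟩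

lemma lin4 (w : Fin 4 → L) : LinearIndepOn L (vec w) (I4 s c t) :=
  (linearIndepOn_insert (el3_notMem s c t)).2 ⟨lin3 s c t w, not3 s c t w⟩

lemma card1 : (I1 s c t).encard = 1 := by rw [I1, Set.encard_singleton]
lemma card2 : (I2 s c t).encard = 2 := by
  rw [I2, Set.encard_insert_of_notMem (el1_notMem s c t), card1]; norm_num
lemma card3 : (I3 s c t).encard = 3 := by
  rw [I3, Set.encard_insert_of_notMem (el2_notMem s c t), card2]; norm_num
lemma card4 : (I4 s c t).encard = 4 := by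
  rw [I4, Set.encard_insert_of_notMem (el3_notMem s c t), card3]; norm_num

lemma sub1 : I1 s c t ⊆ Xs K L := by
  rw [I1, Set.singleton_subset_iff]; exact ⟨_, rfl⟩
lemma sub2 : I2 s c t ⊆ Xs K L := by
  rw [I2, Set.insert_subset_iff]; exact ⟨⟨_, rfl⟩, sub1 s c t⟩
lemma sub3 : I3 s c t ⊆ Xs K L := by
  rw [I3, Set.insert_subset_iff]; exact ⟨⟨_, rfl⟩, sub2 s c t⟩
lemma sub4 : I4 s c t ⊆ Xs K L := by
  rw [I4, Set.insert_subset_iff]; exact ⟨⟨_, rfl⟩, sub3 s c t⟩

end Pts

/-- The flat spanned by a set. -/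
noncomputable def cl (w : Fin 4 → L) (hw : LinearIndependent K w) (I : Set (Ex K L)) :
    Flat (mat w hw) := ⟨(mat w hw).closure I, (mat w hw).isFlat_closure I⟩

lemma rk_cl {I : Set (Ex K L)} (hI : I ⊆ Xs K L) (h : LinearIndepOn L (vec w) I) {n : ℕ}
    (hn : I.encard = (n : ℕ∞)) (h5 : n ≤ 5) : rk (mat w hw) (cl w hw I) = n := by
  have hind : (mat w hw).Indep I := (mat_indep w hw I).2 (ind_X hI h (by
    rw [hn]; exact_mod_cast h5))
  have h1 : ((rk (mat w hw) (cl w hw I) : ℕ) : ℕ∞) = (n : ℕ∞) := by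
    rw [rk_cast, ← hn]
    change (mat w hw).eRk ((mat w hw).closure I) = _
    rw [Matroid.eRk_closure_eq, hind.eRk_eq_encard]
  exact_mod_cast h1

lemma cl_lt {I J : Set (Ex K L)} (h : I ⊆ J) (hr : rk (mat w hw) (cl w hw I) <
    rk (mat w hw) (cl w hw J)) : cl w hw I < cl w hw J := by
  have h1 : cl w hw I ≤ cl w hw J := (mat w hw).closure_subset_closure h
  refine lt_of_le_of_ne h1 ?_
  intro h2
  rw [h2] at hr
  exact lt_irrefl _ hr

lemma mem_cl {I : Set (Ex K L)} {e : Ex K L} (h : e ∈ I) : e ∈ (cl w hw I).1 :=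
  (mat w hw).subset_closure I (by simp) h

end LL1

open LL1

open Classical in
/-- The flag number as a number of quadruples. -/
theorem f_1234_eq {α : Type*} (M : Matroid α) [M.Finite] :
    f M [1, 2, 3, 4] = #((univ : Finset (Flat M × Flat M × Flat M × Flat M)).filter fun t =>
      rk M t.1 = 1 ∧ rk M t.2.1 = 2 ∧ rk M t.2.2.1 = 3 ∧ rk M t.2.2.2 = 4 ∧
      t.1 < t.2.1 ∧ t.2.1 < t.2.2.1 ∧ t.2.2.1 < t.2.2.2) := by
  have hb : ∀ A : Flat M, rk M A = 1 → ⊥ < A := by
    intro A hA
    rw [bot_lt_iff_ne_bot]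
    rintro rfl
    rw [rk_bot] at hA
    exact zero_ne_one hA
  rw [card_filter, Fintype.sum_prod_type]
  simp only [Fintype.sum_prod_type, f, cnt, lev, filter_filter, sum_filter]
  refine sum_congr rfl fun A _ => ?_
  by_cases hA : rk M A = 1
  · rw [if_pos ⟨hA, hb A hA⟩]
    refine sum_congr rfl fun B _ => ?_
    by_cases hB : rk M B = 2 ∧ A < B
    · rw [if_pos hB]
      refine sum_congr rfl fun C _ => ?_
      by_cases hC : rk M C = 3 ∧ B < C
      · rw [if_pos hC]
        refine sum_congr rfl fun D _ => ?_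
        by_cases hD : rk M D = 4 ∧ C < D
        · rw [if_pos hD, if_pos ⟨hA, hB.1, hC.1, hD.1, hB.2, hC.2, hD.2⟩]
        · rw [if_neg hD, if_neg]
          rintro ⟨-, -, -, h4, -, -, h7⟩
          exact hD ⟨h4, h7⟩
      · rw [if_neg hC]
        symm
        apply sum_eq_zero
        intro D _
        rw [if_neg]
        rintro ⟨-, -, h3, -, -, h6, -⟩
        exact hC ⟨h3, h6⟩
    · rw [if_neg hB]
      symm
      apply sum_eq_zero
      intro C _
      apply sum_eq_zero
      intro D _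
      rw [if_neg]
      rintro ⟨-, h2, -, -, h5, -, -⟩
      exact hB ⟨h2, h5⟩
  · rw [if_neg (fun h => hA h.1)]
    symm
    apply sum_eq_zero
    intro B _
    apply sum_eq_zero
    intro C _
    apply sum_eq_zero
    intro D _
    rw [if_neg]
    rintro ⟨h1, -⟩
    exact hA h1

theorem f_1234_ge (hL : Fintype.card L = Fintype.card K ^ 4) :
    Fintype.card K ^ 22 ≤ f (mat w hw) [1, 2, 3, 4] := by
  classical
  rw [f_1234_eq]
  let Φ : (Fin 3 → K) × (Fin 3 → K) × (Fin 4 → L) →
      Flat (mat w hw) × Flat (mat w hw) × Flat (mat w hw) × Flat (mat w hw) := fun p =>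
    (cl w hw (I1 p.1 p.2.1 p.2.2), cl w hw (I2 p.1 p.2.1 p.2.2), cl w hw (I3 p.1 p.2.1 p.2.2),
      cl w hw (I4 p.1 p.2.1 p.2.2))
  have hcard : Fintype.card ((Fin 3 → K) × (Fin 3 → K) × (Fin 4 → L)) = Fintype.card K ^ 22 := by
    rw [Fintype.card_prod, Fintype.card_prod, Fintype.card_fun, Fintype.card_fun, Fintype.card_fin,
      Fintype.card_fin, hL]
    ring
  rw [← hcard, ← card_univ]
  apply card_le_card_of_injOn Φ
  · rintro ⟨s, c, t⟩ _
    have r1 : rk (mat w hw) (cl w hw (I1 s c t)) = 1 :=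
      rk_cl (sub1 s c t) (lin1 s c t w) (by rw [card1]; rfl) (by norm_num)
    have r2 : rk (mat w hw) (cl w hw (I2 s c t)) = 2 :=
      rk_cl (sub2 s c t) (lin2 s c t w) (by rw [card2]; rfl) (by norm_num)
    have r3 : rk (mat w hw) (cl w hw (I3 s c t)) = 3 :=
      rk_cl (sub3 s c t) (lin3 s c t w) (by rw [card3]; rfl) (by norm_num)
    have r4 : rk (mat w hw) (cl w hw (I4 s c t)) = 4 :=
      rk_cl (sub4 s c t) (lin4 s c t w) (by rw [card4]; rfl) (by norm_num)
    rw [mem_coe, mem_filter]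
    refine ⟨mem_univ _, r1, r2, r3, r4, ?_, ?_, ?_⟩
    · exact cl_lt (Set.subset_insert _ _) (by rw [r1, r2]; norm_num)
    · exact cl_lt (Set.subset_insert _ _) (by rw [r2, r3]; norm_num)
    · exact cl_lt (Set.subset_insert _ _) (by rw [r3, r4]; norm_num)
  · rintro ⟨s, c, t⟩ _ ⟨s', c', t'⟩ _ h
    simp only [Φ, Prod.mk.injEq] at h
    obtain ⟨h1, h2, h3, h4⟩ := h
    -- first point
    have m1 : el s' c' t' 0 ∈ (cl w hw (I1 s c t)).1 := by
      rw [h1]; exact mem_cl (by rw [I1]; rfl)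
    have v1 := span_of_mem (hw := hw) (sub1 s c t) (lin1 s c t w) (by rw [card1]; norm_num) m1
    have e1 := det1 s c t v1 (by
      change (vec w (el s' c' t' 0)).1 0 = 1
      rw [vec_el0]; simp)
    have p1 := vec_inj e1
    simp only [pt, Prod.mk.injEq] at p1
    obtain ⟨rfl, ht0⟩ := p1
    -- second point
    have m2 : el s' c' t' 1 ∈ (cl w hw (I2 s' c t)).1 := by
      rw [h2]; exact mem_cl (by rw [I2]; exact Set.mem_insert _ _)
    have v2 := span_of_mem (hw := hw) (sub2 s' c t) (lin2 s' c t w) (by rw [card2]; norm_num) m2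
    have e2 := det2 s' c t v2 (by
      change (vec w (el s' c' t' 1)).1 0 = 1
      rw [vec_el1]; simp) (by
      change (vec w (el s' c' t' 1)).1 1 = _
      rw [vec_el1]; simp)
    have p2 := vec_inj e2
    simp only [pt, Prod.mk.injEq] at p2
    obtain ⟨hc1, ht1⟩ := p2
    have c0 : c' 0 = c 0 := by
      have := congrFun hc1 1
      simpa using this
    have c1 : c' 1 = c 1 := by
      have := congrFun hc1 2
      simpa using this
    -- third point
    have m3 : el s' c' t' 2 ∈ (cl w hw (I3 s' c t)).1 := by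
      rw [h3]; exact mem_cl (by rw [I3]; exact Set.mem_insert _ _)
    have v3 := span_of_mem (hw := hw) (sub3 s' c t) (lin3 s' c t w) (by rw [card3]; norm_num) m3
    have e3 := det3 s' c t v3 (by
      change (vec w (el s' c' t' 2)).1 0 = 1
      rw [vec_el2]; simp) (by
      change (vec w (el s' c' t' 2)).1 1 = _
      rw [vec_el2]; simp) (by
      change (vec w (el s' c' t' 2)).1 2 = _
      rw [vec_el2]; simp)
    have p3 := vec_inj e3
    simp only [pt, Prod.mk.injEq] at p3
    obtain ⟨hc2, ht2⟩ := p3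
    have c2 : c' 2 = c 2 := by
      have := congrFun hc2 2
      simpa using this
    -- fourth point
    have m4 : el s' c' t' 3 ∈ (cl w hw (I4 s' c t)).1 := by
      rw [h4]; exact mem_cl (by rw [I4]; exact Set.mem_insert _ _)
    have v4 := span_of_mem (hw := hw) (sub4 s' c t) (lin4 s' c t w) (by rw [card4]) m4
    have e4 := det4 s' c t v4 (by
      change (vec w (el s' c' t' 3)).1 0 = 1
      rw [vec_el3]; simp) (by
      change (vec w (el s' c' t' 3)).1 1 = _
      rw [vec_el3]; simp) (by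
      change (vec w (el s' c' t' 3)).1 2 = _
      rw [vec_el3]; simp) (by
      change (vec w (el s' c' t' 3)).1 3 = _
      rw [vec_el3]; simp)
    have p4 := vec_inj e4
    simp only [pt, Prod.mk.injEq] at p4
    obtain ⟨-, ht3⟩ := p4
    have hc : c = c' := by
      funext i
      fin_cases i
      · exact c0.symm
      · exact c1.symm
      · exact c2.symm
    have ht : t = t' := by
      funext i
      fin_cases i
      · exact ht0.symm
      · exact ht1.symm
      · exact ht2.symm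
      · exact ht3.symm
    rw [hc, ht]

end DCC8
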