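import Pool.Agent.DCC8.Flats
import Pool.Agent.DCC8.ExtA

/-!
# [L2] Many thin chains: `q ^ 21 ≤ f [2,4] + q ^ 17`

Inject `{(s₁, s₂, a, b, l, t₁, t₂, y, y') ∈ K^5 × L^4 | y ≠ y'}`
(`q ^ 5 * q ^ 8 * (q ^ 8 - q ^ 4) = q ^ 21 - q ^ 17` elements) into the chains `F₂ < F₄` of ranks
`2, 4`: with `x₁ = ((0, s₁, s₂), t₁)`, `x₂ = ((1, s₁ + a, s₂ + b), t₂)`,
`x = (1 - l) x₁ + l x₂` (in the `K`-vector space `X`):
`F₂ = closure {x, y}`, `F₄ = closure {x₁, x₂, y, y'}`.  `{x, y}` and `{x₁, x₂, y, y'}` are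
independent (`KEY`: `(w, y)` is not in the span of `vec x`).
The `Y`-part of `F₂` is `{y}` and that of `F₄` is `{y, y'}`, the `X`-part of `F₂` is `{x}` and that
of `F₄` is `{x | vec x ∈ span (vec x₁, vec x₂)}` (use: `e ∈ closure I` iff `e ∈ I` or `insert e I`
not independent, and the definition of `Ind`); the latter contains exactly one point with first
coordinate `0`, namely `x₁`, and one with first coordinate `1`, namely `x₂`.  So `F₄` determines
`s₁, s₂, a, b, t₁, t₂, {y, y'}` and `F₂` determines `x`, hence `l` (its first coordinate), and `y`.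
-/

namespace DCC8

open DualChow Finset Module

set_option linter.unusedSectionVars false

variable {K L : Type} [Field K] [Fintype K] [Field L] [Fintype L] [Algebra K L]
  {w : Fin 4 → L} {hw : LinearIndependent K w}

namespace L2aux

open Classical in
/-- Flag number for two ranks as the cardinality of a set of pairs. -/
theorem f_two {α : Type*} (M : Matroid α) [M.Finite] (i j : ℕ) :
    f M [i, j] = #((univ : Finset (Flat M × Flat M)).filter fun p =>
      rk M p.1 = i ∧ rk M p.2 = j ∧ ⊥ < p.1 ∧ p.1 < p.2) := by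
  have h1 : f M [i, j] = ∑ B ∈ (lev M i).filter (fun B => ⊥ < B),
      ∑ C ∈ (lev M j).filter (fun C => B < C), 1 := by
    simp [f, cnt]
  rw [h1, Finset.sum_sigma', Finset.sum_const, smul_eq_mul, mul_one]
  apply Finset.card_bij (fun p _ => (p.1, p.2))
  · rintro ⟨B, C⟩ h
    simp only [Finset.mem_sigma, Finset.mem_filter, lev, Finset.mem_univ, true_and] at h ⊢
    tauto
  · rintro ⟨B, C⟩ _ ⟨B', C'⟩ _ h
    simp only [Prod.mk.injEq] at h
    obtain ⟨rfl, rfl⟩ := h
    rfl
  · rintro ⟨B, C⟩ h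
    refine ⟨⟨B, C⟩, ?_, rfl⟩
    simp only [Finset.mem_sigma, Finset.mem_filter, lev, Finset.mem_univ, true_and] at h ⊢
    tauto

/-- Linear independence of the vectors of two distinct `X`-points. -/
theorem indep_two (w : Fin 4 → L) {x x' : (Fin 3 → K) × L} (h : x ≠ x') :
    LinearIndepOn L (vec (K := K) w) ({Sum.inl x, Sum.inl x'} : Set (Ex K L)) := by
  rw [LinearIndepOn.pair_iff]
  · intro c d hcd
    have h1 := congrArg Prod.fst hcd
    have h2 := congrArg Prod.snd hcd
    simp only [vec, Prod.smul_fst, Prod.smul_snd, Prod.fst_add, Prod.snd_add, Prod.fst_zero,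
      Prod.snd_zero, smul_eq_mul] at h1 h2
    have h3 : ∀ j : Fin 4, c * one3 (K := K) L x.1 j + d * one3 (K := K) L x'.1 j = 0 := by
      intro j
      have := congrFun h1 j
      simpa using this
    have h0 := h3 0
    simp only [one3, Matrix.cons_val_zero, mul_one] at h0
    have hd : d = -c := by linear_combination h0
    subst hd
    by_cases hc : c = 0
    · simp [hc]
    · exfalso
      apply h
      have h4 : ∀ j : Fin 3, x.1 j = x'.1 j := by
        intro j
        have h5 := h3 j.succ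
        simp only [one3, Matrix.cons_val_succ] at h5
        have h6 : c * (algebraMap K L (x.1 j) - algebraMap K L (x'.1 j)) = 0 := by
          linear_combination h5
        rcases mul_eq_zero.1 h6 with h7 | h7
        · exact absurd h7 hc
        · exact (algebraMap K L).injective (sub_eq_zero.1 h7)
      have h8 : c * (x.2 - x'.2) = 0 := by linear_combination h2
      rcases mul_eq_zero.1 h8 with h9 | h9
      · exact absurd h9 hc
      · exact Prod.ext (funext h4) (sub_eq_zero.1 h9)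
  · intro h'
    exact h (Sum.inl.inj h')

theorem inr_not_mem (hw : LinearIndependent K w) (x x' : (Fin 3 → K) × L) (y : L) :
    vec (K := K) w (Sum.inr y) ∉ sp w ({Sum.inl x, Sum.inl x'} : Set (Ex K L)) := by
  classical
  apply vec_inr_notMem hw
  · rintro e (rfl | rfl)
    · exact ⟨_, rfl⟩
    · exact ⟨_, rfl⟩
  · have h1 : sp w ({Sum.inl x, Sum.inl x'} : Set (Ex K L))
        = Submodule.span L (({vec (K := K) w (Sum.inl x), vec (K := K) w (Sum.inl x')} :
          Finset ((Fin 4 → L) × L)) : Set ((Fin 4 → L) × L)) := by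
      rw [sp, Set.image_pair]
      push_cast
      rfl
    rw [h1]
    refine (finrank_span_finset_le_card _).trans ?_
    refine (Finset.card_le_two).trans ?_
    norm_num

theorem indep_three (hw : LinearIndependent K w) {x x' : (Fin 3 → K) × L} (h : x ≠ x') (y : L) :
    LinearIndepOn L (vec (K := K) w)
      (insert (Sum.inr y) ({Sum.inl x, Sum.inl x'} : Set (Ex K L))) :=
  (indep_two w h).insert (inr_not_mem hw x x' y)

theorem encard_insert_le' {α : Type*} {s : Set α} {a : α} {k : ℕ∞} (h : s.encard ≤ k) :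
    (insert a s).encard ≤ k + 1 :=
  (Set.encard_insert_le s a).trans (by gcongr)

theorem encard_pair_le' {α : Type*} (a b : α) : ({a, b} : Set α).encard ≤ 2 := by
  refine (Set.encard_insert_le _ _).trans ?_
  rw [Set.encard_singleton]
  norm_num

theorem ind_three (hw : LinearIndependent K w) {x x' : (Fin 3 → K) × L} (h : x ≠ x') (y : L) :
    Ind w (insert (Sum.inr y) ({Sum.inl x, Sum.inl x'} : Set (Ex K L))) := by
  refine ⟨(indep_three hw h y).mono Set.inter_subset_left, ?_, fun _ => indep_three hw h y⟩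
  have h1 : ({Sum.inl x, Sum.inl x'} : Set (Ex K L)).encard ≤ 2 := encard_pair_le' _ _
  exact (encard_insert_le' h1).trans (by norm_num)

theorem ind_of_two {I : Set (Ex K L)} (hX : LinearIndepOn L (vec (K := K) w) (I ∩ Xs K L))
    (h5 : I.encard ≤ 5) {y y' : L} (hy : Sum.inr y ∈ I) (hy' : Sum.inr y' ∈ I) (h : y ≠ y') :
    Ind w I := by
  refine ⟨hX, h5, fun hs => ?_⟩
  exfalso
  apply h
  have := hs ⟨hy, ⟨y, rfl⟩⟩ ⟨hy', ⟨y', rfl⟩⟩
  exact Sum.inr.inj this

/-- The set spanning `F₂`. -/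
def I2 (x : (Fin 3 → K) × L) (y : L) : Set (Ex K L) := {Sum.inl x, Sum.inr y}

/-- The set spanning `F₄`. -/
def I4 (x x' : (Fin 3 → K) × L) (y y' : L) : Set (Ex K L) :=
  {Sum.inl x, Sum.inl x', Sum.inr y, Sum.inr y'}

theorem I4_inter (x x' : (Fin 3 → K) × L) (y y' : L) :
    I4 x x' y y' ∩ Xs K L = {Sum.inl x, Sum.inl x'} := by
  ext e
  rcases e with e | e <;> simp [I4, Xs]

theorem ind_I2 (hw : LinearIndependent K w) (x : (Fin 3 → K) × L) (y : L) :
    Ind w (I2 x y) := by
  obtain ⟨x', hx'⟩ : ∃ x' : (Fin 3 → K) × L, x ≠ x' := by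
    refine ⟨(x.1, x.2 + 1), fun h => ?_⟩
    have := congrArg Prod.snd h
    simp at this
  apply ind_subset hw (ind_three hw hx' y)
  rintro e (rfl | rfl)
  · simp
  · simp

theorem ind_I4 {x x' : (Fin 3 → K) × L} (h : x ≠ x') {y y' : L} (hy : y ≠ y') :
    Ind w (I4 x x' y y') := by
  refine ind_of_two (y := y) (y' := y') ?_ ?_ (by simp [I4]) (by simp [I4]) hy
  · rw [I4_inter]
    exact indep_two w h
  · have h1 : ({Sum.inr y, Sum.inr y'} : Set (Ex K L)).encard ≤ 2 := encard_pair_le' _ _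
    exact (encard_insert_le' (encard_insert_le' h1)).trans (by norm_num)

theorem mem_cl {I : Set (Ex K L)} (hI : Ind w I) (e : Ex K L) :
    e ∈ (mat w hw).closure I ↔ (¬ Ind w (insert e I)) ∨ e ∈ I := by
  rw [Matroid.Indep.mem_closure_iff ((mat_indep w hw I).2 hI), Matroid.dep_iff, mat_indep]
  simp

theorem mem2X {x x' : (Fin 3 → K) × L} {y : L}
    (h : (Sum.inl x' : Ex K L) ∈ (mat w hw).closure (I2 x y)) : x' = x := by
  by_contra hne
  rcases (mem_cl (ind_I2 hw x y) _).1 h with h1 | h1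
  · apply h1
    have h2 := ind_three hw hne y
    apply ind_subset hw h2
    rintro e (rfl | rfl | rfl)
    · simp
    · simp
    · simp
  · rcases h1 with h1 | h1
    · exact hne (Sum.inl.inj h1)
    · simp at h1

theorem mem2Y {x : (Fin 3 → K) × L} {y y' : L}
    (h : (Sum.inr y' : Ex K L) ∈ (mat w hw).closure (I2 x y)) : y' = y := by
  by_contra hne
  rcases (mem_cl (ind_I2 hw x y) _).1 h with h1 | h1
  · apply h1
    obtain ⟨x', hx'⟩ : ∃ x' : (Fin 3 → K) × L, x ≠ x' := by
      refine ⟨(x.1, x.2 + 1), fun h => ?_⟩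
      have := congrArg Prod.snd h
      simp at this
    apply ind_subset hw (ind_I4 hx' hne)
    rintro e (rfl | rfl | rfl)
    · simp [I4]
    · simp [I4]
    · simp [I4]
  · rcases h1 with h1 | h1
    · simp at h1
    · exact hne (Sum.inr.inj h1)

theorem encard_I4 (x x' : (Fin 3 → K) × L) (y y' : L) (e : Ex K L) :
    (insert e (I4 x x' y y')).encard ≤ 5 := by
  have h1 : ({Sum.inr y, Sum.inr y'} : Set (Ex K L)).encard ≤ 2 := encard_pair_le' _ _
  exact (encard_insert_le' (encard_insert_le' (encard_insert_le' h1))).trans (by norm_num)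

theorem mem4Y {x x' : (Fin 3 → K) × L} (hx : x ≠ x') {y y' z : L} (hy : y ≠ y')
    (h : (Sum.inr z : Ex K L) ∈ (mat w hw).closure (I4 x x' y y')) : z = y ∨ z = y' := by
  by_contra hne
  rcases (mem_cl (ind_I4 hx hy) _).1 h with h1 | h1
  · apply h1
    refine ind_of_two (y := y) (y' := y') ?_ (encard_I4 _ _ _ _ _) (by simp [I4])
      (by simp [I4]) hy
    apply (indep_two w hx).mono
    rintro e ⟨he, ⟨e', rfl⟩⟩
    simpa [I4] using he
  · apply hne
    simpa [I4] using h1

theorem mem4X {x x' z : (Fin 3 → K) × L} (hx : x ≠ x') {y y' : L} (hy : y ≠ y')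
    (h : (Sum.inl z : Ex K L) ∈ (mat w hw).closure (I4 x x' y y')) :
    vec (K := K) w (Sum.inl z) ∈ sp w ({Sum.inl x, Sum.inl x'} : Set (Ex K L)) := by
  by_contra hne
  rcases (mem_cl (ind_I4 hx hy) _).1 h with h1 | h1
  · apply h1
    refine ind_of_two (y := y) (y' := y') ?_ (encard_I4 _ _ _ _ _) (by simp [I4])
      (by simp [I4]) hy
    apply ((indep_two w hx).insert hne).mono
    rintro e ⟨he, ⟨e', rfl⟩⟩
    simpa [I4] using he
  · apply hne
    apply Submodule.subset_span
    refine ⟨Sum.inl z, ?_, rfl⟩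
    simpa [I4] using h1

/-- A point of `X` in the span of two others. -/
theorem coords {x x' z : (Fin 3 → K) × L}
    (h : vec (K := K) w (Sum.inl z) ∈ sp w ({Sum.inl x, Sum.inl x'} : Set (Ex K L))) :
    ∃ c : L, (∀ j, algebraMap K L (z.1 j)
        = (1 - c) * algebraMap K L (x.1 j) + c * algebraMap K L (x'.1 j)) ∧
      z.2 = (1 - c) * x.2 + c * x'.2 := by
  rw [sp, Set.image_pair, Submodule.mem_span_pair] at h
  obtain ⟨c, d, hcd⟩ := h
  have h1 := congrArg Prod.fst hcd
  have h2 := congrArg Prod.snd hcd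
  simp only [vec, Prod.smul_fst, Prod.smul_snd, Prod.fst_add, Prod.snd_add, smul_eq_mul] at h1 h2
  have h3 : ∀ j : Fin 4, c * one3 (K := K) L x.1 j + d * one3 (K := K) L x'.1 j
      = one3 (K := K) L z.1 j := by
    intro j
    have := congrFun h1 j
    simpa using this
  have h0 := h3 0
  simp only [one3, Matrix.cons_val_zero, mul_one] at h0
  have hc : c = 1 - d := by linear_combination h0
  subst hc
  refine ⟨d, fun j => ?_, h2.symm⟩
  have h5 := h3 j.succ
  simp only [one3, Matrix.cons_val_succ] at h5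
  exact h5.symm

theorem eq_fst {x x' z : (Fin 3 → K) × L} (hx0 : x.1 0 = 0) (hx1 : x'.1 0 = 1) (hz : z.1 0 = 0)
    (h : vec (K := K) w (Sum.inl z) ∈ sp w ({Sum.inl x, Sum.inl x'} : Set (Ex K L))) :
    z = x := by
  obtain ⟨c, h1, h2⟩ := coords h
  have h3 := h1 0
  rw [hx0, hx1, hz, map_zero, map_one] at h3
  have hc : c = 0 := by linear_combination -h3
  subst hc
  refine Prod.ext (funext fun j => ?_) (by rw [h2]; ring)
  apply (algebraMap K L).injective
  rw [h1]
  ring

theorem eq_snd {x x' z : (Fin 3 → K) × L} (hx0 : x.1 0 = 0) (hx1 : x'.1 0 = 1) (hz : z.1 0 = 1)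
    (h : vec (K := K) w (Sum.inl z) ∈ sp w ({Sum.inl x, Sum.inl x'} : Set (Ex K L))) :
    z = x' := by
  obtain ⟨c, h1, h2⟩ := coords h
  have h3 := h1 0
  rw [hx0, hx1, hz, map_zero, map_one] at h3
  have hc : c = 1 := by linear_combination -h3
  subst hc
  refine Prod.ext (funext fun j => ?_) (by rw [h2]; ring)
  apply (algebraMap K L).injective
  rw [h1]
  ring

/-- The point `(1 - l) x + l x'`. -/
def comb (x x' : (Fin 3 → K) × L) (l : K) : (Fin 3 → K) × L :=
  (fun j => (1 - l) * x.1 j + l * x'.1 j,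
    (1 - algebraMap K L l) * x.2 + algebraMap K L l * x'.2)

theorem comb_mem (x x' : (Fin 3 → K) × L) (l : K) :
    vec (K := K) w (Sum.inl (comb x x' l)) ∈ sp w ({Sum.inl x, Sum.inl x'} : Set (Ex K L)) := by
  rw [sp, Set.image_pair, Submodule.mem_span_pair]
  refine ⟨1 - algebraMap K L l, algebraMap K L l, ?_⟩
  refine Prod.ext (funext fun j => ?_) ?_
  · simp only [vec, Prod.smul_fst, Prod.fst_add, Pi.add_apply, Pi.smul_apply, smul_eq_mul]
    refine Fin.cases ?_ (fun j => ?_) j
    · simp [one3]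
    · simp only [one3, Matrix.cons_val_succ, comb]
      simp
  · simp only [vec, comb, Prod.smul_snd, Prod.snd_add, smul_eq_mul]

theorem comb_mem_cl {x x' : (Fin 3 → K) × L} (hx : x ≠ x') {y y' : L} (l : K) :
    (Sum.inl (comb x x' l) : Ex K L) ∈ (mat w hw).closure (I4 x x' y y') := by
  have hsub : ({Sum.inl x, Sum.inl x'} : Set (Ex K L)) ⊆ I4 x x' y y' := by
    rintro e (rfl | rfl) <;> simp [I4]
  apply (mat w hw).closure_subset_closure hsub
  have hInd : Ind w ({Sum.inl x, Sum.inl x'} : Set (Ex K L)) :=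
    ind_subset hw (ind_three hw hx 0) (Set.subset_insert _ _)
  rw [mem_cl hInd]
  by_cases h : (Sum.inl (comb x x' l) : Ex K L) ∈ ({Sum.inl x, Sum.inl x'} : Set (Ex K L))
  · exact Or.inr h
  · left
    intro h1
    have h2 := h1.1
    have h3 : insert (Sum.inl (comb x x' l)) ({Sum.inl x, Sum.inl x'} : Set (Ex K L)) ∩ Xs K L
        = insert (Sum.inl (comb x x' l)) ({Sum.inl x, Sum.inl x'} : Set (Ex K L)) := by
      rw [Set.inter_eq_left]
      rintro e (rfl | rfl | rfl) <;> exact ⟨_, rfl⟩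
    rw [h3, linearIndepOn_insert h] at h2
    exact h2.2 (comb_mem x x' l)

theorem rk_cl {I : Set (Ex K L)} (hI : Ind w I) :
    rk (mat w hw) ⟨(mat w hw).closure I, (mat w hw).isFlat_closure I⟩ = I.ncard := by
  rw [rk, Matroid.eRk_closure_eq, Matroid.Indep.eRk_eq_encard ((mat_indep w hw I).2 hI)]
  rfl

theorem ncard_I2 (x : (Fin 3 → K) × L) (y : L) : (I2 x y).ncard = 2 := by
  rw [I2, Set.ncard_pair (by simp)]

theorem ncard_I4 {x x' : (Fin 3 → K) × L} (hx : x ≠ x') {y y' : L} (hy : y ≠ y') :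
    (I4 x x' y y').ncard = 4 := by
  classical
  have h : I4 x x' y y' = (({Sum.inl x, Sum.inl x', Sum.inr y, Sum.inr y'} :
      Finset (Ex K L)) : Set (Ex K L)) := by
    push_cast
    rfl
  rw [h, Set.ncard_coe_finset]
  rw [Finset.card_insert_of_notMem, Finset.card_insert_of_notMem, Finset.card_pair]
  · simpa using hy
  · simp
  · simpa using hx

/-- The data. -/
abbrev Dat (K L : Type) : Type := (K × K × K × K × K) × (L × L) × {p : L × L // p.1 ≠ p.2}

/-- First point. -/
def px (d : Dat K L) : (Fin 3 → K) × L := (![0, d.1.1, d.1.2.1], d.2.1.1)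

/-- Second point. -/
def px' (d : Dat K L) : (Fin 3 → K) × L := (![1, d.1.2.2.1, d.1.2.2.2.1], d.2.1.2)

theorem px_ne (d : Dat K L) : px d ≠ px' d := by
  intro h
  have := congrFun (congrArg Prod.fst h) 0
  simp [px, px'] at this

/-- `F₂` -/
noncomputable def F2 (w : Fin 4 → L) (hw : LinearIndependent K w) (d : Dat K L) :
    Flat (mat w hw) :=
  ⟨(mat w hw).closure (I2 (comb (px d) (px' d) d.1.2.2.2.2) d.2.2.1.1),
    (mat w hw).isFlat_closure _⟩

/-- `F₄` -/
noncomputable def F4 (w : Fin 4 → L) (hw : LinearIndependent K w) (d : Dat K L) :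
    Flat (mat w hw) :=
  ⟨(mat w hw).closure (I4 (px d) (px' d) d.2.2.1.1 d.2.2.1.2),
    (mat w hw).isFlat_closure _⟩

theorem sub_cl {I : Set (Ex K L)} : I ⊆ (mat w hw).closure I :=
  (mat w hw).subset_closure I (Set.subset_univ _)

theorem F2_lt_F4 (d : Dat K L) : F2 w hw d < F4 w hw d := by
  have h2 : rk (mat w hw) (F2 w hw d) = 2 := by
    unfold F2
    rw [rk_cl (ind_I2 hw _ _), ncard_I2]
  have h4 : rk (mat w hw) (F4 w hw d) = 4 := by
    unfold F4
    rw [rk_cl (ind_I4 (px_ne d) d.2.2.2), ncard_I4 (px_ne d) d.2.2.2]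
  refine lt_of_le_of_ne ?_ (fun h => by rw [h] at h2; omega)
  change (mat w hw).closure _ ⊆ (mat w hw).closure _
  apply Matroid.closure_subset_closure_of_subset_closure
  rintro e (rfl | rfl)
  · exact comb_mem_cl (px_ne d) _
  · apply sub_cl
    simp [I4]

theorem inj : Function.Injective (fun d : Dat K L => (F2 w hw d, F4 w hw d)) := by
  intro d d' h
  simp only [Prod.mk.injEq] at h
  obtain ⟨h2, h4⟩ := h
  have e2 : (mat w hw).closure (I2 (comb (px d) (px' d) d.1.2.2.2.2) d.2.2.1.1)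
      = (mat w hw).closure (I2 (comb (px d') (px' d') d'.1.2.2.2.2) d'.2.2.1.1) :=
    congrArg Subtype.val h2
  have e4 : (mat w hw).closure (I4 (px d) (px' d) d.2.2.1.1 d.2.2.1.2)
      = (mat w hw).closure (I4 (px d') (px' d') d'.2.2.1.1 d'.2.2.1.2) :=
    congrArg Subtype.val h4
  have a1 : px d = px d' := by
    have m : (Sum.inl (px d) : Ex K L) ∈ (mat w hw).closure
        (I4 (px d') (px' d') d'.2.2.1.1 d'.2.2.1.2) := by
      rw [← e4]
      apply sub_cl
      simp [I4]
    exact eq_fst (by simp [px]) (by simp [px']) (by simp [px]) (mem4X (px_ne d') d'.2.2.2 m)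
  have a2 : px' d = px' d' := by
    have m : (Sum.inl (px' d) : Ex K L) ∈ (mat w hw).closure
        (I4 (px d') (px' d') d'.2.2.1.1 d'.2.2.1.2) := by
      rw [← e4]
      apply sub_cl
      simp [I4]
    exact eq_snd (by simp [px]) (by simp [px']) (by simp [px']) (mem4X (px_ne d') d'.2.2.2 m)
  have a3 : d.2.2.1.1 = d'.2.2.1.1 := by
    have m : (Sum.inr d.2.2.1.1 : Ex K L) ∈ (mat w hw).closure
        (I2 (comb (px d') (px' d') d'.1.2.2.2.2) d'.2.2.1.1) := by
      rw [← e2]
      apply sub_cl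
      simp [I2]
    exact mem2Y m
  have a4 : d.2.2.1.2 = d'.2.2.1.2 := by
    have m : (Sum.inr d.2.2.1.2 : Ex K L) ∈ (mat w hw).closure
        (I4 (px d') (px' d') d'.2.2.1.1 d'.2.2.1.2) := by
      rw [← e4]
      apply sub_cl
      simp [I4]
    rcases mem4Y (px_ne d') d'.2.2.2 m with h | h
    · exfalso
      exact d.2.2.2 (a3.trans h.symm)
    · exact h
  have a5 : d.1.2.2.2.2 = d'.1.2.2.2.2 := by
    have m : (Sum.inl (comb (px d) (px' d) d.1.2.2.2.2) : Ex K L) ∈ (mat w hw).closure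
        (I2 (comb (px d') (px' d') d'.1.2.2.2.2) d'.2.2.1.1) := by
      rw [← e2]
      apply sub_cl
      simp [I2]
    have := congrFun (congrArg Prod.fst (mem2X m)) 0
    simpa [comb, px, px'] using this
  obtain ⟨⟨s1, s2, a, b, l⟩, ⟨t1, t2⟩, ⟨⟨y, y'⟩, hy⟩⟩ := d
  obtain ⟨⟨s1', s2', a', b', l'⟩, ⟨t1', t2'⟩, ⟨⟨z, z'⟩, hz⟩⟩ := d'
  simp only [px, px', Prod.mk.injEq] at a1 a2 a3 a4 a5
  obtain ⟨b1, b2⟩ := a1
  obtain ⟨b3, b4⟩ := a2
  have c1 := congrFun b1 1
  have c2 := congrFun b1 2
  have c3 := congrFun b3 1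
  have c4 := congrFun b3 2
  simp at c1 c2 c3 c4
  subst a3 a4 a5 b2 b4 c1 c2 c3 c4
  rfl

end L2aux

theorem f_24_ge (hL : Fintype.card L = Fintype.card K ^ 4) :
    Fintype.card K ^ 21 ≤ f (mat w hw) [2, 4] + Fintype.card K ^ 17 := by
  classical
  have h1 : Fintype.card (L2aux.Dat K L) ≤ f (mat w hw) [2, 4] := by
    rw [L2aux.f_two, ← Finset.card_univ]
    apply Finset.card_le_card_of_injOn (fun d => (L2aux.F2 w hw d, L2aux.F4 w hw d))
    · intro d _
      have h2 : rk (mat w hw) (L2aux.F2 w hw d) = 2 := by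
        unfold L2aux.F2
        rw [L2aux.rk_cl (L2aux.ind_I2 hw _ _), L2aux.ncard_I2]
      have h4 : rk (mat w hw) (L2aux.F4 w hw d) = 4 := by
        unfold L2aux.F4
        rw [L2aux.rk_cl (L2aux.ind_I4 (L2aux.px_ne d) d.2.2.2),
          L2aux.ncard_I4 (L2aux.px_ne d) d.2.2.2]
      have h0 : (⊥ : Flat (mat w hw)) < L2aux.F2 w hw d := by
        refine lt_of_le_of_ne bot_le (fun h => ?_)
        have h5 : FY (⊥ : Flat (mat w hw)) = ∅ := FY_bot
        have h6 : d.2.2.1.1 ∈ FY (L2aux.F2 w hw d) := by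
          rw [FY, Finset.mem_filter]
          refine ⟨Finset.mem_univ _, ?_⟩
          apply L2aux.sub_cl
          simp [L2aux.I2]
        rw [← h, h5] at h6
        simp at h6
      simp only [Finset.coe_filter, Finset.mem_univ, true_and, Set.mem_ofPred_eq]
      exact ⟨h2, h4, h0, L2aux.F2_lt_F4 d⟩
    · exact L2aux.inj.injOn
  have h2 : Fintype.card (L2aux.Dat K L) + Fintype.card K ^ 17 = Fintype.card K ^ 21 := by
    have h3 : Fintype.card {p : L × L // p.1 ≠ p.2} + Fintype.card L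
        = Fintype.card L * Fintype.card L := by
      have h4 := Fintype.card_subtype_compl (fun p : L × L => p.1 = p.2)
      have h5 : Fintype.card {p : L × L // p.1 = p.2} = Fintype.card L := by
        apply Fintype.card_congr
        exact ⟨fun p => p.1.1, fun a => ⟨(a, a), rfl⟩, fun p => Subtype.ext (Prod.ext rfl p.2),
          fun a => rfl⟩
      have h6 : Fintype.card {p : L × L // p.1 = p.2} ≤ Fintype.card (L × L) :=
        Fintype.card_subtype_le _
      rw [h5] at h4 h6
      rw [Fintype.card_prod] at h4 h6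
      change Fintype.card {p : L × L // ¬ p.1 = p.2} + _ = _
      omega
    rw [Fintype.card_prod, Fintype.card_prod, Fintype.card_prod, Fintype.card_prod,
      Fintype.card_prod, Fintype.card_prod, Fintype.card_prod]
    generalize Fintype.card {p : L × L // p.1 ≠ p.2} = u at h3 ⊢
    rw [hL] at h3 ⊢
    generalize Fintype.card K = q at h3 ⊢
    have h7 : u = q ^ 8 - q ^ 4 := by
      have : q ^ 4 * q ^ 4 = q ^ 8 := by ring
      omega
    have h8 : q ^ 4 ≤ q ^ 8 := by
      have : q ^ 4 * q ^ 4 = q ^ 8 := by ring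
      omega
    zify at h3 ⊢
    linear_combination (q : ℤ) ^ 13 * h3
  omega

end DCC8
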