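import Pool.Agent.DCC8.MatDef
import Pool.Agent.DCC8.ExtA

/-!
# [L3] Two trivial upper bounds

`f_2_le`: a flat of rank `2` is the closure of a pair of elements, `#(Ex K L) ≤ 2 q ^ 7`.
`f_123_le`: a flag `F₁ < F₂ < F₃` of ranks `1, 2, 3` is determined by
`e₁ ∈ F₁ \ ⊥`, `e₂ ∈ F₂ \ F₁`, `e₃ ∈ F₃ \ F₂` (`eq_ins`), so there are at most `(2 q ^ 7) ^ 3`.
-/

namespace DCC8

open DualChow Finset Module

variable {K L : Type} [Field K] [Fintype K] [Field L] [Fintype L] [Algebra K L]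
  {w : Fin 4 → L} {hw : LinearIndependent K w}

namespace LL3

section
variable {α : Type*} [Fintype α] (M : Matroid α)

lemma bot_lt_of_rk [M.Finite] {A : Flat M} (h : 0 < rk M A) : ⊥ < A := by
  rw [bot_lt_iff_ne_bot]
  rintro rfl
  rw [rk_bot] at h
  exact lt_irrefl _ h

open Classical in
lemma f_2_bound : f M [2] ≤ Fintype.card α ^ 2 := by
  have h1 : f M [2] = #((lev M 2).filter (fun B => ⊥ < B)) := by
    simp [f, cnt]
  have h2 : Fintype.card α ^ 2 = Fintype.card (α × α) := by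
    rw [Fintype.card_prod]; ring
  rw [h1, h2, ← card_univ]
  refine le_trans (card_le_card ?_) (card_image_le (f := fun p : α × α =>
    ins M (ins M ⊥ p.1) p.2))
  intro B hB
  rw [mem_filter, lev, mem_filter] at hB
  obtain ⟨⟨-, hr⟩, hb⟩ := hB
  obtain ⟨A, hA1, hA2, hA3⟩ := exists_between (k := 1) hb (by rw [rk_bot]; norm_num)
    (by rw [hr]; norm_num)
  obtain ⟨e1, he1, he1'⟩ := exists_mem_notMem_extA hA1
  obtain ⟨e2, he2, he2'⟩ := exists_mem_notMem_extA hA2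
  rw [mem_image]
  refine ⟨(e1, e2), mem_univ _, ?_⟩
  change ins M (ins M ⊥ e1) e2 = B
  rw [← eq_ins hA1 (by rw [hA3, rk_bot]) he1 he1', ← eq_ins hA2 (by rw [hA3, hr]) he2 he2']

open Classical in
lemma f_123_eq : f M [1, 2, 3] = #((univ : Finset (Flat M × Flat M × Flat M)).filter fun t =>
    rk M t.1 = 1 ∧ rk M t.2.1 = 2 ∧ rk M t.2.2 = 3 ∧ t.1 < t.2.1 ∧ t.2.1 < t.2.2) := by
  rw [card_filter, Fintype.sum_prod_type]
  simp only [Fintype.sum_prod_type, f, cnt, lev, filter_filter, sum_filter]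
  refine sum_congr rfl fun A _ => ?_
  by_cases hA : rk M A = 1
  · rw [if_pos ⟨hA, bot_lt_of_rk M (by omega)⟩]
    refine sum_congr rfl fun B _ => ?_
    by_cases hB : rk M B = 2 ∧ A < B
    · rw [if_pos hB]
      refine sum_congr rfl fun C _ => ?_
      by_cases hC : rk M C = 3 ∧ B < C
      · rw [if_pos hC, if_pos ⟨hA, hB.1, hC.1, hB.2, hC.2⟩]
      · rw [if_neg hC, if_neg]
        rintro ⟨-, -, h3, -, h6⟩
        exact hC ⟨h3, h6⟩
    · rw [if_neg hB]
      symm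
      apply sum_eq_zero
      intro C _
      rw [if_neg]
      rintro ⟨-, h2, -, h5, -⟩
      exact hB ⟨h2, h5⟩
  · rw [if_neg (fun h => hA h.1)]
    symm
    apply sum_eq_zero
    intro B _
    apply sum_eq_zero
    intro C _
    rw [if_neg]
    rintro ⟨h1, -⟩
    exact hA h1

open Classical in
lemma f_123_bound : f M [1, 2, 3] ≤ Fintype.card α ^ 3 := by
  have h2 : Fintype.card α ^ 3 = Fintype.card (α × α × α) := by
    rw [Fintype.card_prod, Fintype.card_prod]; ring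
  rw [f_123_eq, h2, ← card_univ]
  refine le_trans (card_le_card ?_) (card_image_le (f := fun p : α × α × α =>
    (ins M ⊥ p.1, ins M (ins M ⊥ p.1) p.2.1, ins M (ins M (ins M ⊥ p.1) p.2.1) p.2.2)))
  rintro ⟨A, B, C⟩ ht
  rw [mem_filter] at ht
  obtain ⟨-, hA, hB, hC, hAB, hBC⟩ := ht
  simp only at hA hB hC hAB hBC
  have hA0 : ⊥ < A := bot_lt_of_rk M (by omega)
  obtain ⟨e1, he1, he1'⟩ := exists_mem_notMem_extA hA0
  obtain ⟨e2, he2, he2'⟩ := exists_mem_notMem_extA hAB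
  obtain ⟨e3, he3, he3'⟩ := exists_mem_notMem_extA hBC
  rw [mem_image]
  refine ⟨(e1, e2, e3), mem_univ _, ?_⟩
  change (ins M ⊥ e1, ins M (ins M ⊥ e1) e2, ins M (ins M (ins M ⊥ e1) e2) e3) = (A, B, C)
  rw [← eq_ins hA0 (by rw [hA, rk_bot]) he1 he1', ← eq_ins hAB (by rw [hA, hB]) he2 he2',
    ← eq_ins hBC (by rw [hB, hC]) he3 he3']

end

lemma card_Ex (hL : Fintype.card L = Fintype.card K ^ 4) :
    Fintype.card (Ex K L) ≤ 2 * Fintype.card K ^ 7 := by
  have h1 : 1 ≤ Fintype.card K := Fintype.card_pos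
  have h2 : Fintype.card K ^ 4 ≤ Fintype.card K ^ 7 := Nat.pow_le_pow_right h1 (by norm_num)
  rw [Fintype.card_sum, Fintype.card_prod, Fintype.card_fun, Fintype.card_fin, hL]
  have h3 : Fintype.card K ^ 3 * Fintype.card K ^ 4 = Fintype.card K ^ 7 := by ring
  omega

end LL3

open LL3

theorem f_2_le (hL : Fintype.card L = Fintype.card K ^ 4) :
    f (mat w hw) [2] ≤ 4 * Fintype.card K ^ 14 := by
  refine (f_2_bound (mat w hw)).trans ?_
  calc Fintype.card (Ex K L) ^ 2 ≤ (2 * Fintype.card K ^ 7) ^ 2 :=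
        Nat.pow_le_pow_left (card_Ex hL) 2
    _ = 4 * Fintype.card K ^ 14 := by ring

theorem f_123_le (hL : Fintype.card L = Fintype.card K ^ 4) :
    f (mat w hw) [1, 2, 3] ≤ 8 * Fintype.card K ^ 21 := by
  refine (f_123_bound (mat w hw)).trans ?_
  calc Fintype.card (Ex K L) ^ 3 ≤ (2 * Fintype.card K ^ 7) ^ 3 :=
        Nat.pow_le_pow_left (card_Ex hL) 3
    _ = 8 * Fintype.card K ^ 21 := by ring

end DCC8
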