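import Pool.Agent.DCC8.MKey

/-!
# [M2] The independence axioms

`ind_aug` : augmentation.  Cases (`I`, `J` independent, `|I| < |J| ≤ 5`, so `|I| ≤ 4`):
  - `|I ∩ Y| ≥ 2`: if some `e ∈ J ∩ Y` is not in `I` take it.  Otherwise `J ∩ Y ⊆ I ∩ Y`, so
    `|I ∩ X| < |J ∩ X|` and linear augmentation in `X` gives `e`.
  - `|I ∩ Y| = 1`: if some `e ∈ J ∩ Y` is not in `I` take it (`insert e I` has two `Y`'s, its
    `X`-part is that of `I`).  Otherwise `J ∩ Y ⊆ I ∩ Y` is a subsingleton, `J` is linearly
    independent, and linear augmentation gives `e ∈ J \ I`, `e ∈ X`.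
  - `I ⊆ X`, `|J ∩ Y| ≤ 1`: linear augmentation.
  - `I ⊆ X`, `|J ∩ Y| ≥ 2`: if `|I| ≤ 3` every `y ∈ J ∩ Y` works by `vec_inr_notMem`; if `|I| = 4`
    then `finrank (sp w I) = 4` and by `vec_inr_two` one of two elements of `J ∩ Y` works.
Linear augmentation: if `I`, `J` are `LinearIndepOn L (vec w)` and `|I| < |J|` then
`span (vec '' I)` does not contain `vec '' J`, so some `e ∈ J` has `vec e ∉ span (vec '' I)`.
-/

namespace DCC8

open DualChow Finset Module

variable {K L : Type} [Field K] [Fintype K] [Field L] [Fintype L] [Algebra K L]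

namespace IndAux

lemma mem_or (e : Ex K L) : e ∈ Xs K L ∨ e ∈ Ys K L := by
  rcases e with x | y
  · exact Or.inl ⟨x, rfl⟩
  · exact Or.inr ⟨y, rfl⟩

lemma not_both {e : Ex K L} (h : e ∈ Xs K L) (h' : e ∈ Ys K L) : False := by
  obtain ⟨x, rfl⟩ := h
  obtain ⟨y, hy⟩ := h'
  simp at hy

lemma ncard_split (A : Set (Ex K L)) : A.ncard = (A ∩ Xs K L).ncard + (A ∩ Ys K L).ncard := by
  classical
  rw [← Set.ncard_union_eq]
  · congr 1
    ext e
    constructor
    · intro h
      rcases mem_or e with h' | h'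
      · exact Or.inl ⟨h, h'⟩
      · exact Or.inr ⟨h, h'⟩
    · rintro (h | h)
      · exact h.1
      · exact h.1
  · rw [Set.disjoint_left]
    intro e h1 h2
    exact not_both h1.2 h2.2

lemma finrank_eq {w : Fin 4 → L} {I : Set (Ex K L)} (h : LinearIndepOn L (vec w) I) :
    finrank L (sp w I) = I.ncard := by
  classical
  have h1 : LinearIndependent L (fun x : I => vec w x.1) := h
  have h2 := finrank_span_eq_card h1
  have h3 : Set.range (fun x : I => vec w x.1) = vec w '' I := by
    ext v
    simp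
  rw [h3] at h2
  unfold sp
  rw [h2, ← Nat.card_eq_fintype_card, Nat.card_coe_set_eq]

/-- Linear augmentation. -/
lemma lin_aug {w : Fin 4 → L} {I J : Set (Ex K L)} (hI : LinearIndepOn L (vec w) I)
    (hJ : LinearIndepOn L (vec w) J) (h : I.ncard < J.ncard) :
    ∃ e ∈ J, e ∉ I ∧ LinearIndepOn L (vec w) (insert e I) := by
  by_contra hc
  push Not at hc
  have h1 : sp w J ≤ sp w I := by
    unfold sp
    rw [Submodule.span_le]
    rintro v ⟨e, he, rfl⟩
    by_cases heI : e ∈ I
    · exact Submodule.subset_span ⟨e, heI, rfl⟩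
    · by_contra hv
      exact hc e he heI ((linearIndepOn_insert heI).2 ⟨hI, hv⟩)
  have h2 := Submodule.finrank_mono h1
  rw [finrank_eq hI, finrank_eq hJ] at h2
  omega

lemma insert_X {I : Set (Ex K L)} {e : Ex K L} (he : e ∈ Xs K L) :
    insert e I ∩ Xs K L = insert e (I ∩ Xs K L) := by
  rw [Set.insert_inter_of_mem he]

lemma insert_X' {I : Set (Ex K L)} {e : Ex K L} (he : e ∈ Xs K L) :
    insert e I ∩ Ys K L = I ∩ Ys K L := by
  rw [Set.insert_inter_of_notMem (fun h => not_both he h)]

lemma insert_Y {I : Set (Ex K L)} {e : Ex K L} (he : e ∈ Ys K L) :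
    insert e I ∩ Xs K L = I ∩ Xs K L := by
  rw [Set.insert_inter_of_notMem (fun h => not_both h he)]

lemma insert_Y' {I : Set (Ex K L)} {e : Ex K L} (he : e ∈ Ys K L) :
    insert e I ∩ Ys K L = insert e (I ∩ Ys K L) := by
  rw [Set.insert_inter_of_mem he]

lemma encard_insert_le {I : Set (Ex K L)} (e : Ex K L) (h : I.ncard ≤ 4) :
    (insert e I).encard ≤ 5 := by
  have h1 : (insert e I).ncard ≤ 5 := (Set.ncard_insert_le e I).trans (by omega)
  rw [← (Set.toFinite (insert e I)).cast_ncard_eq]
  exact_mod_cast h1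

lemma two_le {A : Set (Ex K L)} (h : ¬ A.Subsingleton) : 2 ≤ A.ncard := by
  rw [Set.not_subsingleton_iff] at h
  exact Set.one_lt_ncard_iff_nontrivial.2 h

end IndAux

open IndAux

theorem ind_empty (w : Fin 4 → L) : Ind (K := K) w ∅ := by
  refine ⟨?_, by simp, fun _ => linearIndepOn_empty L (vec w)⟩
  rw [Set.empty_inter]
  exact linearIndepOn_empty L (vec w)

theorem ind_subset {w : Fin 4 → L} (hw : LinearIndependent K w) ⦃I J : Set (Ex K L)⦄
    (hJ : Ind w J) (hIJ : I ⊆ J) : Ind w I := by
  obtain ⟨h1, h2, h3⟩ := hJ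
  have hX : LinearIndepOn L (vec w) (I ∩ Xs K L) := h1.mono (Set.inter_subset_inter_left _ hIJ)
  refine ⟨hX, (Set.encard_le_encard hIJ).trans h2, ?_⟩
  intro h
  by_cases hJs : (J ∩ Ys K L).Subsingleton
  · exact (h3 hJs).mono hIJ
  · have hJc : J.ncard ≤ 5 := by
      rw [← (Set.toFinite J).cast_ncard_eq] at h2
      exact_mod_cast h2
    have h4 : 2 ≤ (J ∩ Ys K L).ncard := two_le hJs
    have h5 := ncard_split J
    have h6 : (I ∩ Xs K L).ncard ≤ 3 := by
      have := Set.ncard_le_ncard (Set.inter_subset_inter_left (Xs K L) hIJ) (Set.toFinite _)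
      omega
    rcases h.eq_empty_or_singleton with h7 | ⟨e, h7⟩
    · have h8 : I ∩ Xs K L = I := by
        rw [Set.inter_eq_left]
        intro e he
        rcases mem_or e with h' | h'
        · exact h'
        · have : e ∈ I ∩ Ys K L := ⟨he, h'⟩
          rw [h7] at this
          exact this.elim
      rw [h8] at hX
      exact hX
    · have heI : e ∈ I ∩ Ys K L := by rw [h7]; rfl
      have h8 : I = insert e (I ∩ Xs K L) := by
        ext e'
        constructor
        · intro he'
          rcases mem_or e' with h' | h'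
          · exact Or.inr ⟨he', h'⟩
          · have : e' ∈ I ∩ Ys K L := ⟨he', h'⟩
            rw [h7] at this
            exact Or.inl this
        · rintro (rfl | he')
          · exact heI.1
          · exact he'.1
      have h9 : e ∉ I ∩ Xs K L := fun h' => not_both h'.2 heI.2
      rw [h8, linearIndepOn_insert h9]
      refine ⟨hX, ?_⟩
      obtain ⟨y, rfl⟩ := heI.2
      exact vec_inr_notMem hw Set.inter_subset_right (by rw [finrank_eq hX]; exact h6) y

theorem ind_aug {w : Fin 4 → L} (hw : LinearIndependent K w) ⦃I J : Set (Ex K L)⦄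
    (hI : Ind w I) (hJ : Ind w J) (hlt : I.ncard < J.ncard) :
    ∃ e ∈ J, e ∉ I ∧ Ind w (insert e I) := by
  obtain ⟨i1, i2, i3⟩ := hI
  obtain ⟨j1, j2, j3⟩ := hJ
  have hJc : J.ncard ≤ 5 := by
    rw [← (Set.toFinite J).cast_ncard_eq] at j2
    exact_mod_cast j2
  have hIc : I.ncard ≤ 4 := by omega
  have sI := ncard_split I
  have sJ := ncard_split J
  by_cases hIY : I ∩ Ys K L = ∅
  · -- `I` has no `Y`
    have hIX : I ∩ Xs K L = I := by
      rw [Set.inter_eq_left]
      intro e he
      rcases mem_or e with h' | h'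
      · exact h'
      · have : e ∈ I ∩ Ys K L := ⟨he, h'⟩
        rw [hIY] at this
        exact this.elim
    have hI' : LinearIndepOn L (vec w) I := by rw [hIX] at i1; exact i1
    -- one more element which keeps linear independence is enough
    have key : ∀ e ∈ J, e ∉ I → LinearIndepOn L (vec w) (insert e I) →
        ∃ e ∈ J, e ∉ I ∧ Ind w (insert e I) := by
      intro e he heI h
      refine ⟨e, he, heI, ?_, encard_insert_le e hIc, fun _ => h⟩
      exact h.mono Set.inter_subset_left
    by_cases hJY : (J ∩ Ys K L).Subsingleton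
    · obtain ⟨e, he, heI, h⟩ := lin_aug hI' (j3 hJY) hlt
      exact key e he heI h
    · rw [Set.not_subsingleton_iff] at hJY
      obtain ⟨e1, he1, e2, he2, hne⟩ := hJY
      have n1 : e1 ∉ I := fun h => by
        have : e1 ∈ I ∩ Ys K L := ⟨h, he1.2⟩
        rw [hIY] at this; exact this
      have n2 : e2 ∉ I := fun h => by
        have : e2 ∈ I ∩ Ys K L := ⟨h, he2.2⟩
        rw [hIY] at this; exact this
      have hIXs : I ⊆ Xs K L := by rw [← hIX]; exact Set.inter_subset_right
      by_cases v1 : vec w e1 ∈ sp w I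
      · by_cases v2 : vec w e2 ∈ sp w I
        · exfalso
          obtain ⟨y1, rfl⟩ := he1.2
          obtain ⟨y2, rfl⟩ := he2.2
          have h5 := vec_inr_two hw hIXs (fun h => hne (by rw [h])) v1 v2
          rw [finrank_eq hI'] at h5
          omega
        · exact key e2 he2.1 n2 ((linearIndepOn_insert n2).2 ⟨hI', v2⟩)
      · exact key e1 he1.1 n1 ((linearIndepOn_insert n1).2 ⟨hI', v1⟩)
  · -- `I` has a `Y`
    obtain ⟨e0, he0⟩ := Set.nonempty_iff_ne_empty.2 hIY
    by_cases hsub : J ∩ Ys K L ⊆ I ∩ Ys K L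
    · have hYc : (J ∩ Ys K L).ncard ≤ (I ∩ Ys K L).ncard :=
        Set.ncard_le_ncard hsub (Set.toFinite _)
      by_cases hIs : (I ∩ Ys K L).Subsingleton
      · obtain ⟨e, he, heI, h⟩ := lin_aug (i3 hIs) (j3 (hIs.anti hsub)) hlt
        exact ⟨e, he, heI, h.mono Set.inter_subset_left, encard_insert_le e hIc, fun _ => h⟩
      · obtain ⟨e, he, heI, h⟩ := lin_aug i1 j1 (by omega)
        have heI' : e ∉ I := fun h' => heI ⟨h', he.2⟩
        refine ⟨e, he.1, heI', ?_, encard_insert_le e hIc, ?_⟩
        · rw [insert_X he.2]; exact h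
        · intro h'
          rw [insert_X' he.2] at h'
          exact absurd h' hIs
    · rw [Set.not_subset] at hsub
      obtain ⟨e, he, heI⟩ := hsub
      have heI' : e ∉ I := fun h' => heI ⟨h', he.2⟩
      refine ⟨e, he.1, heI', ?_, encard_insert_le e hIc, ?_⟩
      · rw [insert_Y he.2]; exact i1
      · intro h'
        exfalso
        rw [insert_Y' he.2] at h'
        have : e = e0 := h' (Set.mem_insert _ _) (Set.mem_insert_of_mem _ he0)
        rw [this] at heI
        exact heI he0

end DCC8
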