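import Pool.Agent.DCC8.Defs

/-!
# [M1] Linear algebra facts behind the matroid

* `KEY`.  Let `U ≤ (Fin 4 → K)` be the `K`-span of the vectors `Matrix.vecCons 1 s`, `s ∈ S`.
  If `U ≠ ⊤` there is a nonzero functional `c : Fin 4 → K` with `∑ j, c j * u j = 0` on `U`
  (`Submodule.exists_dual_map_eq_bot_of_lt_top` or similar), hence
  `∑ j, algebraMap (c j) * v j = 0` for all `v` in the `L`-span of the `one3 s`, in particular for
  `v = w`: `∑ j, c j • w j = 0` contradicts the `K`-independence of `w`.  So `U = ⊤`, all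
  `Pi.single j 1` are in `U`, and (map by the `K`-linear inclusion `K ^ 4 → L ^ 4`) in the `L`-span.
* `vec_inr_notMem`.  The projection `Prod.fst` maps `sp w A` onto the span of the `one3 s`; if
  `vec w (inr y) = (w, y) ∈ sp w A`, `KEY` gives that the image is `⊤` and `finrank (sp w A) ≥ 4`.
* `vec_inr_two`.  `(0, y - y') ∈ sp w A`, so `(0, 1) ∈ sp w A`, and `Prod.fst` maps `sp w A` onto
  everything by `KEY`, so `sp w A = ⊤`, of dimension `5`.
-/

namespace DCC8

open DualChow Finset Module

variable {K L : Type} [Field K] [Fintype K] [Field L] [Fintype L] [Algebra K L]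

theorem KEY {w : Fin 4 → L} (hw : LinearIndependent K w) (S : Set (Fin 3 → K))
    (h : w ∈ Submodule.span L (one3 (K := K) L '' S)) :
    Submodule.span L (one3 (K := K) L '' S) = ⊤ := by
  classical
  set V := Submodule.span L (one3 (K := K) L '' S) with hV
  let cv : (Fin 3 → K) → (Fin 4 → K) := fun s => Matrix.vecCons 1 s
  let U : Submodule K (Fin 4 → K) := Submodule.span K (cv '' S)
  have hone : ∀ s : Fin 3 → K, one3 (K := K) L s = fun j => algebraMap K L (cv s j) := by
    intro s
    funext j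
    refine Fin.cases ?_ (fun i => ?_) j
    · simp [one3, cv]
    · simp [one3, cv]
  have hU : U = ⊤ := by
    by_contra hne
    obtain ⟨f, hf0, hf⟩ := Submodule.exists_le_ker_of_lt_top U (lt_top_iff_ne_top.2 hne)
    apply hf0
    have hfe : ∀ v : Fin 4 → K, f v = ∑ j, v j * f (Pi.single j 1) := by
      intro v
      conv_lhs => rw [pi_eq_sum_univ' v]
      rw [map_sum]
      refine Finset.sum_congr rfl fun j _ => ?_
      rw [map_smul, smul_eq_mul]
    let g : (Fin 4 → L) →ₗ[L] L :=
      { toFun := fun v => ∑ j, algebraMap K L (f (Pi.single j 1)) * v j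
        map_add' := by
          intro a b
          simp [mul_add, Finset.sum_add_distrib]
        map_smul' := by
          intro a b
          simp only [Pi.smul_apply, smul_eq_mul, RingHom.id_apply, Finset.mul_sum]
          refine Finset.sum_congr rfl fun j _ => by ring }
    have hg : V ≤ LinearMap.ker g := by
      rw [hV, Submodule.span_le]
      rintro _ ⟨s, hs, rfl⟩
      have h1 : f (cv s) = 0 := hf (Submodule.subset_span ⟨s, hs, rfl⟩)
      have h2 : g (one3 (K := K) L s) = algebraMap K L (f (cv s)) := by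
        rw [hfe (cv s), map_sum, hone s]
        simp only [g, LinearMap.coe_mk, AddHom.coe_mk, map_mul]
        exact Finset.sum_congr rfl fun j _ => mul_comm _ _
      rw [SetLike.mem_coe, LinearMap.mem_ker, h2, h1, map_zero]
    have hgw : g w = 0 := hg h
    have hc : ∑ j, (f (Pi.single j 1)) • w j = 0 := by
      rw [← hgw]
      simp only [g, LinearMap.coe_mk, AddHom.coe_mk, Algebra.smul_def]
    have hz := (Fintype.linearIndependent_iff.1 hw) (fun j => f (Pi.single j 1)) hc
    ext j
    simpa using hz j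
  let ι : (Fin 4 → K) →ₗ[K] (Fin 4 → L) :=
    { toFun := fun v j => algebraMap K L (v j)
      map_add' := by
        intro a b
        funext j
        simp
      map_smul' := by
        intro a b
        funext j
        simp [Algebra.smul_def] }
  have hle : U ≤ (V.restrictScalars K).comap ι := by
    rw [Submodule.span_le]
    rintro _ ⟨s, hs, rfl⟩
    change ι (cv s) ∈ V
    have : ι (cv s) = one3 (K := K) L s := by
      rw [hone s]
      rfl
    rw [this]
    exact Submodule.subset_span ⟨s, hs, rfl⟩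
  rw [eq_top_iff, ← (Pi.basisFun L (Fin 4)).span_eq, Submodule.span_le]
  rintro _ ⟨j, rfl⟩
  have h3 : (Pi.single j 1 : Fin 4 → K) ∈ U := by
    rw [hU]
    trivial
  have h4 : ι (Pi.single j 1) ∈ V := hle h3
  have h5 : ι (Pi.single j 1) = (Pi.basisFun L (Fin 4)) j := by
    funext k
    change algebraMap K L ((Pi.single j 1 : Fin 4 → K) k) = _
    rw [Pi.basisFun_apply]
    by_cases hk : k = j
    · subst hk
      simp
    · simp [hk]
  rw [SetLike.mem_coe, ← h5]
  exact h4

omit [Fintype K] [Fintype L] in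
private theorem map_fst_sp (w : Fin 4 → L) {A : Set (Ex K L)} (hA : A ⊆ Xs K L) :
    (sp w A).map (LinearMap.fst L (Fin 4 → L) L) =
      Submodule.span L (one3 (K := K) L '' {s | ∃ t, (Sum.inl (s, t) : Ex K L) ∈ A}) := by
  rw [sp, Submodule.map_span]
  congr 1
  ext v
  constructor
  · rintro ⟨_, ⟨a, ha, rfl⟩, rfl⟩
    obtain ⟨⟨s, t⟩, rfl⟩ := hA ha
    exact ⟨s, ⟨t, ha⟩, rfl⟩
  · rintro ⟨s, ⟨t, ht⟩, rfl⟩
    exact ⟨_, ⟨_, ht, rfl⟩, rfl⟩

private theorem map_fst_top {w : Fin 4 → L} (hw : LinearIndependent K w) {A : Set (Ex K L)}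
    (hA : A ⊆ Xs K L) {y : L} (h : vec (K := K) w (Sum.inr y) ∈ sp w A) :
    (sp w A).map (LinearMap.fst L (Fin 4 → L) L) = ⊤ := by
  have h1 : w ∈ (sp w A).map (LinearMap.fst L (Fin 4 → L) L) := ⟨_, h, rfl⟩
  rw [map_fst_sp w hA] at h1 ⊢
  exact KEY hw _ h1

theorem vec_inr_notMem {w : Fin 4 → L} (hw : LinearIndependent K w) {A : Set (Ex K L)}
    (hA : A ⊆ Xs K L) (h3 : finrank L (sp w A) ≤ 3) (y : L) :
    vec (K := K) w (Sum.inr y) ∉ sp w A := by
  intro h
  have h1 := map_fst_top hw hA h
  have h2 : finrank L ((sp w A).map (LinearMap.fst L (Fin 4 → L) L)) ≤ finrank L (sp w A) :=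
    Submodule.finrank_map_le _ _
  rw [h1, finrank_top] at h2
  simp at h2
  omega

theorem vec_inr_two {w : Fin 4 → L} (hw : LinearIndependent K w) {A : Set (Ex K L)}
    (hA : A ⊆ Xs K L) {y y' : L} (hy : y ≠ y') (h1 : vec (K := K) w (Sum.inr y) ∈ sp w A)
    (h2 : vec (K := K) w (Sum.inr y') ∈ sp w A) : finrank L (sp w A) = 5 := by
  have htop := map_fst_top hw hA h1
  have h01 : ((0 : Fin 4 → L), (1 : L)) ∈ sp w A := by
    have h3 : vec (K := K) w (Sum.inr y) - vec (K := K) w (Sum.inr y') ∈ sp w A :=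
      Submodule.sub_mem _ h1 h2
    have h4 := Submodule.smul_mem (sp w A) (y - y')⁻¹ h3
    have h5 : (y - y')⁻¹ • (vec (K := K) w (Sum.inr y) - vec (K := K) w (Sum.inr y')) =
        ((0 : Fin 4 → L), (1 : L)) := by
      simp only [vec, Prod.mk_sub_mk, sub_self, Prod.smul_mk, smul_zero, smul_eq_mul]
      rw [inv_mul_cancel₀ (sub_ne_zero.2 hy)]
    rwa [h5] at h4
  have hall : sp w A = ⊤ := by
    rw [eq_top_iff]
    rintro ⟨a, b⟩ -
    have ha : a ∈ (sp w A).map (LinearMap.fst L (Fin 4 → L) L) := by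
      rw [htop]
      trivial
    obtain ⟨⟨a', b'⟩, hm, rfl⟩ := ha
    have h6 := Submodule.add_mem _ hm (Submodule.smul_mem (sp w A) (b - b') h01)
    have h7 : ((a', b') : (Fin 4 → L) × L) + (b - b') • ((0 : Fin 4 → L), (1 : L)) =
        ((LinearMap.fst L (Fin 4 → L) L) (a', b'), b) := by
      simp
    rwa [h7] at h6
  rw [hall, finrank_top, Module.finrank_prod]
  simp

end DCC8
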