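import Pool.Agent.DCC8.ExtB

/-!
# [N1] The discriminant

By `f_mono` each of `f1, f2, f3, f12, f13, f23 ≤ f123`, `f4, f14, f24 ≤ f124`, `f34 ≤ f134`, and so
on, so `f1 + f2 + f3 + f4 ≤ 100 q ^ 21`,
`g0 ≥ f1234 - (f123 + f124 + f134 + f234) - (f1 + f2 + f3 + f4) ≥ q ^ 22 - 400 q ^ 21`,
`|g1| ≤ 1500 q ^ 21`, `g2 ≥ f24 - f2 - f4 ≥ f24 / 2 - f2 ≥ q ^ 21 / 4` (`two_f4_le`), and
`1500 ^ 2 < q - 400` if `q ≥ 10 ^ 7`.
-/

namespace DCC8

open DualChow Finset Polynomial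

theorem numeric {α : Type*} (M : Matroid α) [M.Finite] (hr : M.eRank = ((5 : ℕ) : ℕ∞)) (q : ℕ)
    (hq : 10 ^ 7 ≤ q) (h1234 : q ^ 22 ≤ f M [1, 2, 3, 4]) (h123 : f M [1, 2, 3] ≤ 8 * q ^ 21)
    (h124 : f M [1, 2, 4] ≤ 73 * q ^ 21) (h134 : f M [1, 3, 4] ≤ 73 * q ^ 21)
    (h234 : f M [2, 3, 4] ≤ 73 * q ^ 21) (h24 : q ^ 21 ≤ f M [2, 4] + q ^ 17)
    (h2 : f M [2] ≤ 4 * q ^ 14) :
    0 < g0 M ∧ g1 M ^ 2 < 4 * g0 M * g2 M := by
  obtain ⟨a1, a2, a3, a12, a13, a23⟩ := f_mono (M := M) hr (i := 1) (j := 2) (k := 3)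
    (by norm_num) (by norm_num) (by norm_num) (by norm_num)
  obtain ⟨_, _, b4, _, b14, b24⟩ := f_mono (M := M) hr (i := 1) (j := 2) (k := 4)
    (by norm_num) (by norm_num) (by norm_num) (by norm_num)
  obtain ⟨_, _, _, _, _, c34⟩ := f_mono (M := M) hr (i := 1) (j := 3) (k := 4)
    (by norm_num) (by norm_num) (by norm_num) (by norm_num)
  have d4 := two_f4_le (M := M)
  have e1 : q ^ 22 = q * q ^ 21 := by ring
  have e2 : q ^ 21 = q ^ 4 * q ^ 17 := by ring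
  have e3 : q ^ 21 = q ^ 7 * q ^ 14 := by ring
  have hq4 : 8 ≤ q ^ 4 := le_trans (by norm_num) (Nat.pow_le_pow_left hq 4)
  have hq7 : 64 ≤ q ^ 7 := le_trans (by norm_num) (Nat.pow_le_pow_left hq 7)
  have f1 : 8 * q ^ 17 ≤ q ^ 21 := by rw [e2]; exact Nat.mul_le_mul_right _ hq4
  have f2 : 64 * q ^ 14 ≤ q ^ 21 := by rw [e3]; exact Nat.mul_le_mul_right _ hq7
  have hpos : 0 < q ^ 21 := by positivity
  set Q := q ^ 21 with hQ
  clear_value Q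
  rw [e1] at h1234
  have k1 : 10 ^ 7 * Q ≤ q * Q := Nat.mul_le_mul_right _ hq
  unfold g0 g1 g2
  generalize f M [1, 2, 3, 4] = x1234 at *
  generalize f M [1, 2, 3] = x123 at *
  generalize f M [1, 2, 4] = x124 at *
  generalize f M [1, 3, 4] = x134 at *
  generalize f M [2, 3, 4] = x234 at *
  generalize f M [1, 2] = x12 at *
  generalize f M [1, 3] = x13 at *
  generalize f M [1, 4] = x14 at *
  generalize f M [2, 3] = x23 at *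
  generalize f M [2, 4] = x24 at *
  generalize f M [3, 4] = x34 at *
  generalize f M [1] = x1 at *
  generalize f M [2] = x2 at *
  generalize f M [3] = x3 at *
  generalize f M [4] = x4 at *
  have hg0 : (q : ℤ) * Q - 400 * Q ≤ 1 - ((x1 : ℤ) + x2 + x3 + x4)
      + ((x12 : ℤ) + x13 + x14 + x23 + x24 + x34) - ((x123 : ℤ) + x124 + x134 + x234) + x1234 := by
    zify at *
    linarith
  have hg1u : ((x234 : ℤ) + x134 + x124) - ((x12 : ℤ) + x13 + 2 * x14 + x23 + 2 * x24 + 2 * x34)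
      + (2 * (x1 : ℤ) + 2 * x2 + 2 * x3 + 3 * x4) - 3 ≤ 1500 * Q := by
    zify at *
    linarith
  have hg1l : -(1500 * (Q : ℤ)) ≤ ((x234 : ℤ) + x134 + x124) -
      ((x12 : ℤ) + x13 + 2 * x14 + x23 + 2 * x24 + 2 * x34)
      + (2 * (x1 : ℤ) + 2 * x2 + 2 * x3 + 3 * x4) - 3 := by
    zify at *
    linarith
  have hg2 : (Q : ℤ) ≤ 4 * ((x24 : ℤ) - x2 - x4 + 1) := by
    zify at *
    linarith
  have hQ0 : (0 : ℤ) < Q := by exact_mod_cast hpos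
  have hqz : (10 : ℤ) ^ 7 ≤ q := by exact_mod_cast hq
  set G0 : ℤ := 1 - ((x1 : ℤ) + x2 + x3 + x4)
      + ((x12 : ℤ) + x13 + x14 + x23 + x24 + x34) - ((x123 : ℤ) + x124 + x134 + x234) + x1234
  set G1 : ℤ := ((x234 : ℤ) + x134 + x124) -
      ((x12 : ℤ) + x13 + 2 * x14 + x23 + 2 * x24 + 2 * x34)
      + (2 * (x1 : ℤ) + 2 * x2 + 2 * x3 + 3 * x4) - 3
  set G2 : ℤ := (x24 : ℤ) - x2 - x4 + 1
  clear_value G0 G1 G2
  have hG0 : (9000000 : ℤ) * Q ≤ G0 := by nlinarith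
  refine ⟨by nlinarith, ?_⟩
  have h5 : G1 ^ 2 ≤ (1500 * (Q : ℤ)) ^ 2 := by
    apply sq_le_sq'
    · exact hg1l
    · exact hg1u
  have h6 : (9000000 : ℤ) * Q * Q ≤ G0 * (4 * G2) :=
    mul_le_mul hG0 hg2 hQ0.le (by nlinarith)
  nlinarith [mul_pos hQ0 hQ0]

end DCC8
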