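import Mathlib

/-!
# [N2] The fields

`K = ZMod p` with `p ≥ 10 ^ 7` prime, `L = GaloisField p 4`, `w` a basis.
-/

namespace DCC8

theorem exists_fields : ∃ (K L : Type) (_ : Field K) (_ : Fintype K) (_ : Field L) (_ : Fintype L)
    (_ : Algebra K L) (w : Fin 4 → L), LinearIndependent K w ∧ 10 ^ 7 ≤ Fintype.card K ∧
      Fintype.card L = Fintype.card K ^ 4 := by
  obtain ⟨p, hp, hprime⟩ := Nat.exists_infinite_primes (10 ^ 7)
  have : Fact p.Prime := ⟨hprime⟩
  have : NeZero p := ⟨hprime.ne_zero⟩
  have : Fintype (GaloisField p 4) := Fintype.ofFinite _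
  have hfin : Module.finrank (ZMod p) (GaloisField p 4) = 4 := GaloisField.finrank p (by norm_num)
  refine ⟨ZMod p, GaloisField p 4, inferInstance, inferInstance, inferInstance, inferInstance,
    inferInstance, Module.finBasisOfFinrankEq (ZMod p) (GaloisField p 4) hfin, ?_, ?_, ?_⟩
  · exact (Module.finBasisOfFinrankEq (ZMod p) (GaloisField p 4) hfin).linearIndependent
  · rw [ZMod.card]; exact hp
  · rw [ZMod.card, ← Nat.card_eq_fintype_card, GaloisField.card p 4 (by norm_num)]

end DCC8
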