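import Pool.Agent.DCC8.UDefs

/-!
# [U2] Thick intervals

`mid`: if `rk G = rk F + 2`, `F < G` and `dX G = rk G` then there are at least `q` flats `C` with
`F < C < G`, `rk C = rk F + 1`, `FX F ≠ FX C`, `FX C ≠ FX G`.
Proof: `dX F ≤ rk F < dX G` so `FX F ≠ FX G` and `FX G \ FX F` is nonempty (`dX` only depends on
`FX`); every `x ∈ FX G \ FX F` gives `C = ins F x`, `rk C = rk F + 1`, `C ≤ G`,
`dX C ≤ rk C < dX G` so `FX C ≠ FX G`, hence `q * #(FX C) ≤ #(FX G)` and
`q ^ 2 * #(FX F) ≤ #(FX G)` (`card_FX_lt`).  The sets `FX C \ FX F` cover `FX G \ FX F`, so with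
`m` the number of the `C`'s:
`m * #(FX G) ≥ q * (#(FX G) - #(FX F))`, `q * #(FX F) ≤ #(FX G) / q < #(FX G)`,
so `m * #(FX G) > (q - 1) * #(FX G)` and `m ≥ q`.
-/

namespace DCC8

open DualChow Finset Module

variable {K L : Type} [Field K] [Fintype K] [Field L] [Fintype L] [Algebra K L]
  {w : Fin 4 → L} {hw : LinearIndependent K w}

namespace U2Aux

theorem inter_Xs (F : Flat (mat w hw)) :
    F.1 ∩ Xs K L = Sum.inl '' (FX F : Set ((Fin 3 → K) × L)) := by
  ext e
  constructor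
  · rintro ⟨h, y, rfl⟩
    exact ⟨y, by simpa [mem_FX] using h, rfl⟩
  · rintro ⟨y, hy, rfl⟩
    exact ⟨by simpa [mem_FX] using hy, y, rfl⟩

/-- `dX` only depends on `FX`. -/
theorem dX_congr {F G : Flat (mat w hw)} (h : FX F = FX G) : dX F = dX G := by
  unfold dX
  rw [inter_Xs, inter_Xs, h]

/-- The flat `ins F x` for `x ∈ FX G \ FX F`. -/
theorem ins_props {F G : Flat (mat w hw)} (h : F < G)
    (hr : rk (mat w hw) G = rk (mat w hw) F + 2) (hd : dX G = rk (mat w hw) G)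
    {x : (Fin 3 → K) × L} (hx : x ∈ FX G) (hx' : x ∉ FX F) :
    rk (mat w hw) (ins (mat w hw) F (Sum.inl x)) = rk (mat w hw) F + 1 ∧
      F < ins (mat w hw) F (Sum.inl x) ∧ ins (mat w hw) F (Sum.inl x) < G ∧
      FX F ≠ FX (ins (mat w hw) F (Sum.inl x)) ∧ FX (ins (mat w hw) F (Sum.inl x)) ≠ FX G ∧
      x ∈ FX (ins (mat w hw) F (Sum.inl x)) := by
  have hE : (Sum.inl x : Ex K L) ∈ (mat w hw).E := by simp
  rw [mem_FX] at hx hx'
  have h1 := rk_ins hE hx'
  have h2 := le_ins (F := F) hE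
  have h3 := ins_le h.le hx
  have h4 : x ∈ FX (ins (mat w hw) F (Sum.inl x)) := by
    rw [mem_FX]
    exact h2.2
  refine ⟨h1, ?_, ?_, ?_, ?_, h4⟩
  · refine lt_of_le_of_ne h2.1 ?_
    intro hh
    rw [← hh] at h1
    omega
  · refine lt_of_le_of_ne h3 ?_
    intro hh
    rw [hh] at h1
    omega
  · intro hh
    rw [← hh, mem_FX] at h4
    exact hx' h4
  · intro hh
    have h5 := dX_congr hh
    have h6 := dX_le_rk (ins (mat w hw) F (Sum.inl x))
    omega

end U2Aux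

open U2Aux

open Classical in
theorem mid {F G : Flat (mat w hw)} (h : F < G) (hr : rk (mat w hw) G = rk (mat w hw) F + 2)
    (hd : dX G = rk (mat w hw) G) :
    Fintype.card K ≤ #((lev (mat w hw) (rk (mat w hw) F + 1)).filter
      fun C => F < C ∧ C < G ∧ FX F ≠ FX C ∧ FX C ≠ FX G) := by
  set S := (lev (mat w hw) (rk (mat w hw) F + 1)).filter
      fun C => F < C ∧ C < G ∧ FX F ≠ FX C ∧ FX C ≠ FX G with hS
  set q := Fintype.card K with hq
  have hq2 : 1 < q := Fintype.one_lt_card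
  have hne : ∃ x ∈ FX G, x ∉ FX F := by
    by_contra hcon
    push Not at hcon
    have h1 : FX F = FX G := Finset.Subset.antisymm (FX_mono h.le) hcon
    have h2 := dX_congr h1
    have h3 := dX_le_rk F
    omega
  obtain ⟨x, hx, hx'⟩ := hne
  -- the covering
  have hcov : FX G \ FX F ⊆ S.biUnion fun C => FX C \ FX F := by
    intro y hy
    rw [mem_sdiff] at hy
    obtain ⟨h1, h2, h3, h4, h5, h6⟩ := ins_props h hr hd hy.1 hy.2
    rw [mem_biUnion]
    refine ⟨ins (mat w hw) F (Sum.inl y), ?_, mem_sdiff.2 ⟨h6, hy.2⟩⟩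
    rw [hS, mem_filter, mem_lev]
    exact ⟨h1, h2, h3, h4, h5⟩
  have hcard : #(FX G) - #(FX F) ≤ ∑ C ∈ S, #(FX C \ FX F) := by
    rw [← card_sdiff_of_subset (FX_mono h.le)]
    exact (card_le_card hcov).trans card_biUnion_le
  have hsum : q * ∑ C ∈ S, #(FX C \ FX F) ≤ #S * #(FX G) := by
    rw [mul_sum, ← smul_eq_mul (#S)]
    apply sum_le_card_nsmul
    intro C hC
    rw [hS, mem_filter] at hC
    refine (Nat.mul_le_mul_left q (card_le_card sdiff_subset)).trans ?_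
    exact card_FX_lt hC.2.2.1.le hC.2.2.2.2
  -- the estimate for `FX F`
  have hF : q * #(FX F) < #(FX G) := by
    obtain ⟨h1, h2, h3, h4, h5, h6⟩ := ins_props h hr hd hx hx'
    have h7 := card_FX_lt h2.le h4
    have h8 := card_FX_lt h3.le h5
    have h9 : 0 < #(FX (ins (mat w hw) F (Sum.inl x))) := card_pos.2 ⟨x, h6⟩
    calc q * #(FX F) ≤ #(FX (ins (mat w hw) F (Sum.inl x))) := h7
      _ < q * #(FX (ins (mat w hw) F (Sum.inl x))) := by nlinarith
      _ ≤ #(FX G) := h8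
  have h1 : q * (#(FX G) - #(FX F)) ≤ #S * #(FX G) :=
    (Nat.mul_le_mul_left q hcard).trans hsum
  have h2 : q * #(FX G) < (#S + 1) * #(FX G) := by
    rw [Nat.mul_sub] at h1
    have h3 : (#S + 1) * #(FX G) = #S * #(FX G) + #(FX G) := by ring
    omega
  have h3 : q < #S + 1 := lt_of_mul_lt_mul_right h2 (Nat.zero_le _)
  omega

end DCC8
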