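import Pool.Agent.DCC8.U4
import Pool.Agent.DCC8.U2

/-!
# [U5] Upper bounds for the flag numbers of three ranks

A chain of ranks `{1,2,3,4} \ {s}` that extends to a flag with all steps
`X`-steps has at least `q` such extensions (`mid` with `F = F_{s-1}`, `G = F_{s+1}`; `dX G = rk G`
because all steps up to `G` are `X`-steps, `dX_lt`, `dX_le_rk`; the other steps are unchanged), so
there are at most `16 q ^ 21` such chains (`allX_card`); the others extend (`exists_between`) to a
flag counted in `notX_card`, injectively.  First step: rewrite `f M [i, j, k]` as the number of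
triples of flats of ranks `i, j, k` with `A < B < C`.
-/

namespace DCC8

open DualChow Finset Module

variable {K L : Type} [Field K] [Fintype K] [Field L] [Fintype L] [Algebra K L]
  {w : Fin 4 → L} {hw : LinearIndependent K w}

open Classical in
/-- The flag numbers of three ranks count triples. -/
theorem u5_f_triple {α : Type*} (M : Matroid α) [M.Finite] {i j k : ℕ} (hi : 0 < i) :
    f M [i, j, k] = #((univ : Finset (Flat M × Flat M × Flat M)).filter fun t =>
      rk M t.1 = i ∧ rk M t.2.1 = j ∧ rk M t.2.2 = k ∧ t.1 < t.2.1 ∧ t.2.1 < t.2.2) := by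
  have h : (univ : Finset (Flat M × Flat M × Flat M)).filter (fun t =>
      rk M t.1 = i ∧ rk M t.2.1 = j ∧ rk M t.2.2 = k ∧ t.1 < t.2.1 ∧ t.2.1 < t.2.2) =
      ((lev M i).filter (fun B => ⊥ < B)).biUnion fun A =>
        ((lev M j).filter (fun B => A < B)).biUnion fun B =>
          ((lev M k).filter (fun C => B < C)).image fun C => (A, B, C) := by
    ext ⟨A, B, C⟩
    simp only [mem_filter, mem_univ, true_and, mem_biUnion, mem_image, Prod.mk.injEq, lev]
    constructor
    · rintro ⟨h1, h2, h3, h4, h5⟩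
      refine ⟨A, ⟨h1, ?_⟩, B, ⟨h2, h4⟩, C, ⟨h3, h5⟩, rfl, rfl, rfl⟩
      rw [bot_lt_iff_ne_bot]
      rintro rfl
      rw [rk_bot] at h1
      omega
    · rintro ⟨A', ⟨h1, -⟩, B', ⟨h2, h4⟩, C', ⟨h3, h5⟩, rfl, rfl, rfl⟩
      exact ⟨h1, h2, h3, h4, h5⟩
  rw [h, card_biUnion]
  · unfold f
    simp only [cnt]
    refine sum_congr rfl fun A _ => ?_
    rw [card_biUnion]
    · refine sum_congr rfl fun B _ => ?_
      rw [card_image_of_injective]
      · simp
      · intro C C' hC
        simpa using hC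
    · intro B _ B' _ hne
      rw [Function.onFun, disjoint_left]
      rintro ⟨a, b, c⟩ h1 h2
      simp only [mem_image, Prod.mk.injEq] at h1 h2
      obtain ⟨_, _, _, rfl, _⟩ := h1
      obtain ⟨_, _, _, rfl, _⟩ := h2
      exact hne rfl
  · intro A _ A' _ hne
    rw [Function.onFun, disjoint_left]
    rintro ⟨a, b, c⟩ h1 h2
    simp only [mem_biUnion, mem_image, Prod.mk.injEq] at h1 h2
    obtain ⟨_, _, _, _, rfl, _⟩ := h1
    obtain ⟨_, _, _, _, rfl, _⟩ := h2
    exact hne rfl

open Classical in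
/-- The counting scheme: a map `pr` from flags to triples whose image contains `S` and whose
fibres through flags with four `X`-steps have at least `q` such elements. -/
theorem u5_tri_le (hL : Fintype.card L = Fintype.card K ^ 4) (hq : 3 ≤ Fintype.card K)
    {T : Type*} (S : Finset T)
    (pr : Flat (mat w hw) × Flat (mat w hw) × Flat (mat w hw) × Flat (mat w hw) → T)
    (h1 : ∀ t ∈ S, ∃ u ∈ FL w hw, pr u = t)
    (h2 : ∀ u ∈ FL w hw, allX u →
      Fintype.card K ≤ #(((FL w hw).filter allX).filter fun v => pr v = pr u)) :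
    #S ≤ 73 * Fintype.card K ^ 21 := by
  have hsub : S ⊆ ((FL w hw).filter allX).image pr ∪
      ((FL w hw).filter fun t => ¬ allX t).image pr := by
    intro t ht
    obtain ⟨u, hu, rfl⟩ := h1 t ht
    rw [mem_union]
    by_cases hx : allX u
    · exact Or.inl (mem_image_of_mem _ (mem_filter.2 ⟨hu, hx⟩))
    · exact Or.inr (mem_image_of_mem _ (mem_filter.2 ⟨hu, hx⟩))
  have hA : Fintype.card K * #(((FL w hw).filter allX).image pr) ≤ #((FL w hw).filter allX) := by
    refine mul_card_image_le_card _ _ ?_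
    intro a ha
    obtain ⟨u, hu, rfl⟩ := mem_image.1 ha
    rw [mem_filter] at hu
    exact h2 u hu.1 hu.2
  have hA' : #(((FL w hw).filter allX).image pr) ≤ 16 * Fintype.card K ^ 21 := by
    have h3 := hA.trans (allX_card hL)
    have hq0 : 0 < Fintype.card K := by omega
    refine Nat.le_of_mul_le_mul_left (h3.trans (le_of_eq ?_)) hq0
    ring
  have hB : #(((FL w hw).filter fun t => ¬ allX t).image pr) ≤ 57 * Fintype.card K ^ 21 :=
    card_image_le.trans (notX_card hL hq)
  calc #S ≤ #(((FL w hw).filter allX).image pr ∪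
        ((FL w hw).filter fun t => ¬ allX t).image pr) := card_le_card hsub
    _ ≤ _ := card_union_le _ _
    _ ≤ 16 * Fintype.card K ^ 21 + 57 * Fintype.card K ^ 21 := Nat.add_le_add hA' hB
    _ = 73 * Fintype.card K ^ 21 := by ring

/-- The dimensions of the `X`-parts along a flag with four `X`-steps. -/
theorem u5_dims {A B C D : Flat (mat w hw)} (hrA : rk (mat w hw) A = 1)
    (hrB : rk (mat w hw) B = 2) (hrC : rk (mat w hw) C = 3) (hrD : rk (mat w hw) D = 4)
    (hAB : A < B) (hBC : B < C) (hCD : C < D) (hX : allX (A, B, C, D)) :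
    (⊥ : Flat (mat w hw)) < A ∧ dX A = 1 ∧ dX B = 2 ∧ dX C = 3 ∧ dX D = 4 := by
  obtain ⟨x1, x2, x3, x4⟩ := hX
  simp only at x1 x2 x3 x4
  have hbA : (⊥ : Flat (mat w hw)) < A := by
    rw [bot_lt_iff_ne_bot]
    rintro rfl
    rw [rk_bot] at hrA
    omega
  have h1 : dX (⊥ : Flat (mat w hw)) < dX A :=
    dX_lt (by rw [rk_bot]; omega) hbA (by rw [FX_bot]; exact fun h => x1 h.symm)
  have h2 := dX_lt (by omega) hAB x2
  have h3 := dX_lt (by omega) hBC x3
  have h4 := dX_lt (by omega) hCD x4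
  have h5 := dX_le_rk A
  have h6 := dX_le_rk B
  have h7 := dX_le_rk C
  have h8 := dX_le_rk D
  refine ⟨hbA, ?_, ?_, ?_, ?_⟩ <;> omega

theorem f_234_le (hL : Fintype.card L = Fintype.card K ^ 4) (hq : 3 ≤ Fintype.card K) :
    f (mat w hw) [2, 3, 4] ≤ 73 * Fintype.card K ^ 21 := by
  classical
  rw [u5_f_triple _ (by norm_num)]
  refine u5_tri_le hL hq _ (fun u => (u.2.1, u.2.2.1, u.2.2.2)) ?_ ?_
  · rintro ⟨B, C, D⟩ ht
    simp only [mem_filter, mem_univ, true_and] at ht
    obtain ⟨h1, h2, h3, h4, h5⟩ := ht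
    have hb : (⊥ : Flat (mat w hw)) < B := by
      rw [bot_lt_iff_ne_bot]
      rintro rfl
      rw [rk_bot] at h1
      omega
    obtain ⟨A, -, hA2, hA3⟩ := exists_between (k := 1) hb (by rw [rk_bot]; omega) (by omega)
    refine ⟨(A, B, C, D), ?_, rfl⟩
    simp only [FL, mem_filter, mem_univ, true_and]
    exact ⟨hA3, h1, h2, h3, hA2, h4, h5⟩
  · rintro ⟨A, B, C, D⟩ hu hx
    simp only [FL, mem_filter, mem_univ, true_and] at hu
    obtain ⟨r1, r2, r3, r4, l1, l2, l3⟩ := hu
    obtain ⟨hb, d1, d2, d3, d4⟩ := u5_dims r1 r2 r3 r4 l1 l2 l3 hx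
    refine (mid (F := ⊥) (G := B) (hb.trans l1) (by rw [rk_bot]; omega) (by omega)).trans ?_
    refine card_le_card_of_injOn (fun E => (E, B, C, D)) ?_ ?_
    · intro E hE
      simp only [coe_filter, mem_filter, Set.mem_ofPred_eq, lev, mem_univ, true_and, rk_bot] at hE
      obtain ⟨e0, e1, e2, e3, e4⟩ := hE
      simp only [coe_filter, mem_filter, Set.mem_ofPred_eq, FL, mem_univ, true_and]
      refine ⟨⟨⟨by omega, r2, r3, r4, e2, l2, l3⟩, ?_⟩, trivial⟩
      rw [FX_bot] at e3
      exact ⟨fun h => e3 h.symm, e4, hx.2.2.1, hx.2.2.2⟩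
    · intro E _ E' _ h
      simpa using h

theorem f_134_le (hL : Fintype.card L = Fintype.card K ^ 4) (hq : 3 ≤ Fintype.card K) :
    f (mat w hw) [1, 3, 4] ≤ 73 * Fintype.card K ^ 21 := by
  classical
  rw [u5_f_triple _ (by norm_num)]
  refine u5_tri_le hL hq _ (fun u => (u.1, u.2.2.1, u.2.2.2)) ?_ ?_
  · rintro ⟨A, C, D⟩ ht
    simp only [mem_filter, mem_univ, true_and] at ht
    obtain ⟨h1, h2, h3, h4, h5⟩ := ht
    obtain ⟨B, hB1, hB2, hB3⟩ := exists_between (k := 2) h4 (by omega) (by omega)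
    refine ⟨(A, B, C, D), ?_, rfl⟩
    simp only [FL, mem_filter, mem_univ, true_and]
    exact ⟨h1, hB3, h2, h3, hB1, hB2, h5⟩
  · rintro ⟨A, B, C, D⟩ hu hx
    simp only [FL, mem_filter, mem_univ, true_and] at hu
    obtain ⟨r1, r2, r3, r4, l1, l2, l3⟩ := hu
    obtain ⟨hb, d1, d2, d3, d4⟩ := u5_dims r1 r2 r3 r4 l1 l2 l3 hx
    refine (mid (F := A) (G := C) (l1.trans l2) (by omega) (by omega)).trans ?_
    refine card_le_card_of_injOn (fun E => (A, E, C, D)) ?_ ?_
    · intro E hE
      simp only [coe_filter, mem_filter, Set.mem_ofPred_eq, lev, mem_univ, true_and] at hE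
      obtain ⟨e0, e1, e2, e3, e4⟩ := hE
      simp only [coe_filter, mem_filter, Set.mem_ofPred_eq, FL, mem_univ, true_and]
      exact ⟨⟨⟨r1, by omega, r3, r4, e1, e2, l3⟩, ⟨hx.1, e3, e4, hx.2.2.2⟩⟩, trivial⟩
    · intro E _ E' _ h
      simpa using h

theorem f_124_le (hL : Fintype.card L = Fintype.card K ^ 4) (hq : 3 ≤ Fintype.card K) :
    f (mat w hw) [1, 2, 4] ≤ 73 * Fintype.card K ^ 21 := by
  classical
  rw [u5_f_triple _ (by norm_num)]
  refine u5_tri_le hL hq _ (fun u => (u.1, u.2.1, u.2.2.2)) ?_ ?_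
  · rintro ⟨A, B, D⟩ ht
    simp only [mem_filter, mem_univ, true_and] at ht
    obtain ⟨h1, h2, h3, h4, h5⟩ := ht
    obtain ⟨C, hC1, hC2, hC3⟩ := exists_between (k := 3) h5 (by omega) (by omega)
    refine ⟨(A, B, C, D), ?_, rfl⟩
    simp only [FL, mem_filter, mem_univ, true_and]
    exact ⟨h1, h2, hC3, h3, h4, hC1, hC2⟩
  · rintro ⟨A, B, C, D⟩ hu hx
    simp only [FL, mem_filter, mem_univ, true_and] at hu
    obtain ⟨r1, r2, r3, r4, l1, l2, l3⟩ := hu
    obtain ⟨hb, d1, d2, d3, d4⟩ := u5_dims r1 r2 r3 r4 l1 l2 l3 hx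
    refine (mid (F := B) (G := D) (l2.trans l3) (by omega) (by omega)).trans ?_
    refine card_le_card_of_injOn (fun E => (A, B, E, D)) ?_ ?_
    · intro E hE
      simp only [coe_filter, mem_filter, Set.mem_ofPred_eq, lev, mem_univ, true_and] at hE
      obtain ⟨e0, e1, e2, e3, e4⟩ := hE
      simp only [coe_filter, mem_filter, Set.mem_ofPred_eq, FL, mem_univ, true_and]
      exact ⟨⟨⟨r1, r2, by omega, r4, l1, e1, e2⟩, ⟨hx.1, hx.2.1, e3, e4⟩⟩, trivial⟩
    · intro E _ E' _ h
      simpa using h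

end DCC8
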