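import Pool.Agent.DCC8.Gamma
import Pool.Agent.DCC8.U5
import Pool.Agent.DCC8.L1
import Pool.Agent.DCC8.L2
import Pool.Agent.DCC8.L3
import Pool.Agent.DCC8.N1
import Pool.Agent.DCC8.N2

/-!
# Assembly
-/

namespace DCC8

open DualChow Finset Polynomial

/-- There is a matroid of rank `5` whose dual Chow polynomial has a non-real zero. -/
theorem main : ∃ (α : Type) (_ : Fintype α) (M : Matroid α), M.eRank = 5 ∧
    dualChow M ≠ 0 ∧ ∃ z : ℂ, z.im ≠ 0 ∧ aeval z (dualChow M) = 0 := by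
  obtain ⟨K, L, i1, i2, i3, i4, i5, w, hw, hK, hL⟩ := exists_fields
  refine ⟨Ex K L, inferInstance, mat w hw, ?_, ?_⟩
  · rw [eRank_mat]; rfl
  · have hr := eRank_mat w hw
    have h3 : 3 ≤ Fintype.card K := le_trans (by norm_num) hK
    obtain ⟨h0, hd⟩ := numeric (mat w hw) hr (Fintype.card K) hK (f_1234_ge hL) (f_123_le hL)
      (f_124_le hL h3) (f_134_le hL h3) (f_234_le hL h3) (f_24_ge hL) (f_2_le hL)
    rw [dualChow_gamma (mat w hw) hr]
    refine ⟨fun h => ?_, nonreal_root _ _ _ h0 hd⟩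
    have h2 := congrArg (eval 0) h
    simp at h2
    omega

end DCC8
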