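import Pool.Agent.DCC8.MInd

/-!
# The matroid
-/

namespace DCC8

open DualChow Finset Module

variable {K L : Type} [Field K] [Fintype K] [Field L] [Fintype L] [Algebra K L]

/-- The matroid. -/
noncomputable def mat (w : Fin 4 → L) (hw : LinearIndependent K w) : Matroid (Ex K L) :=
  (IndepMatroid.ofFinite (E := Set.univ) Set.finite_univ (Ind w) (ind_empty w) (ind_subset hw)
    (ind_aug hw) (fun _ _ => Set.subset_univ _)).matroid

@[simp] theorem mat_indep (w : Fin 4 → L) (hw : LinearIndependent K w) (I : Set (Ex K L)) :
    (mat w hw).Indep I ↔ Ind w I := by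
  simp [mat]

@[simp] theorem mat_E (w : Fin 4 → L) (hw : LinearIndependent K w) :
    (mat w hw).E = Set.univ := rfl

open Classical in
/-- The `X`-part of a flat. -/
noncomputable def FX {w : Fin 4 → L} {hw : LinearIndependent K w} (F : Flat (mat w hw)) :
    Finset ((Fin 3 → K) × L) :=
  univ.filter fun x => (Sum.inl x : Ex K L) ∈ F.1

open Classical in
/-- The `Y`-part of a flat. -/
noncomputable def FY {w : Fin 4 → L} {hw : LinearIndependent K w} (F : Flat (mat w hw)) :
    Finset L :=
  univ.filter fun y => (Sum.inr y : Ex K L) ∈ F.1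

/-- The dimension of the span of the `X`-part. -/
noncomputable def dX {w : Fin 4 → L} {hw : LinearIndependent K w} (F : Flat (mat w hw)) : ℕ :=
  finrank L (sp w (F.1 ∩ Xs K L))

end DCC8
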