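import Pool.Agent.DCC8.PolyDefs

/-!
# [P1] The dual Chow polynomial of a matroid of rank 5 in terms of Möbius sums

From `dualChow_eq` and `chain_rec`:
`T G = ∑ᶠ m, chainSum (uu M) (ww M) G m` satisfies `T G = uu G + ∑ F < G, T F * ww F G`,
`uu G = C (μ(⊥, G))`, `ww F G = C (μ(F, G)) * gap (rk G - rk F)`, `gap 1 = 0`, `gap 2 = X`,
`gap 3 = X + X ^ 2`, `gap 4 = X + X ^ 2 + X ^ 3`, ....  So
`T F = μ(⊥, F)` if `rk F ≤ 1`; `T F = μ(⊥, F) (1 + X)` if `rk F = 2`;
`T F = μ(⊥, F) (1 + X + X ^ 2) + X ∑ (G < F, rk G = 1) μ(⊥, G) μ(G, F)` if `rk F = 3`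
(`⊥` is the only flat of rank `0`), flats of rank `4` do not contribute to `T ⊤`, and
`dualChow M = (-1) ^ 5 * T ⊤`.
-/

namespace DCC8

open DualChow Finset Polynomial IncidenceAlgebra

variable {α : Type*} (M : Matroid α) [M.Finite]

section PolyA

/-- The total chain sum. -/
noncomputable def TA (G : Flat M) : ℤ[X] := ∑ᶠ m : ℕ, chainSum (uu M) (ww M) G m

open Classical in
lemma TA_rec (G : Flat M) :
    TA M G = uu M G + ∑ F : Flat M with F < G, TA M F * ww M F G :=
  chain_rec (uu M) (ww M) G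

lemma gap_le_one {d : ℕ} (h : d ≤ 1) : gap d = 0 := by
  unfold gap
  rw [Finset.Ico_eq_empty (by omega)]
  simp

lemma gap_two' : gap 2 = X := by
  unfold gap
  rw [show (Ico 1 2 : Finset ℕ) = {1} by decide]
  simp

lemma gap_three' : gap 3 = X + X ^ 2 := by
  unfold gap
  rw [show (Ico 1 3 : Finset ℕ) = {1, 2} by decide]
  simp

lemma gap_four' : gap 4 = X + X ^ 2 + X ^ 3 := by
  unfold gap
  rw [show (Ico 1 4 : Finset ℕ) = {1, 2, 3} by decide]
  simp [add_assoc]

lemma gap_five' : gap 5 = X + X ^ 2 + X ^ 3 + X ^ 4 := by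
  unfold gap
  rw [show (Ico 1 5 : Finset ℕ) = {1, 2, 3, 4} by decide]
  simp [add_assoc]

variable {M}

lemma eq_bot_of_rk {F : Flat M} (h : rk M F = 0) : F = ⊥ := by
  rcases (bot_le (a := F)).eq_or_lt with h1 | h1
  · exact h1.symm
  · have := rk_lt_of_lt h1
    omega

lemma TA_le_one {F : Flat M} (h : rk M F ≤ 1) : TA M F = uu M F := by
  classical
  rw [TA_rec, sum_eq_zero, add_zero]
  intro G hG
  rw [mem_filter] at hG
  have := rk_lt_of_lt hG.2
  rw [ww, gap_le_one (by omega)]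
  simp

open Classical in
lemma sum_lt_split (F : Flat M) (φ : Flat M → ℤ[X]) (n : ℕ) (hn : rk M F ≤ n) :
    ∑ G : Flat M with G < F, φ G
      = ∑ k ∈ range n, ∑ G ∈ (lev M k).filter (fun G => G < F), φ G := by
  have h := sum_fiberwise_of_maps_to (s := univ.filter fun G : Flat M => G < F) (t := range n)
    (g := fun G => rk M G) (f := φ) (by
      intro G hG
      rw [mem_filter] at hG
      have := rk_lt_of_lt hG.2
      rw [mem_range]
      omega)
  rw [← h]
  apply sum_congr rfl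
  intro k _
  apply sum_congr _ fun _ _ => rfl
  ext G
  simp only [lev, mem_filter, mem_univ, true_and]
  tauto

open Classical in
lemma lev_zero_filter {F : Flat M} (h : 0 < rk M F) :
    (lev M 0).filter (fun G => G < F) = {⊥} := by
  ext G
  simp only [lev, mem_filter, mem_univ, true_and, mem_singleton]
  constructor
  · rintro ⟨h1, -⟩
    exact eq_bot_of_rk h1
  · rintro rfl
    refine ⟨rk_bot, lt_of_le_of_ne bot_le ?_⟩
    rintro rfl
    rw [rk_bot] at h
    omega

lemma mem_lev' {k : ℕ} {F : Flat M} : F ∈ lev M k ↔ rk M F = k := by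
  simp [lev]

lemma TA_bot : TA M ⊥ = 1 := by
  rw [TA_le_one (by rw [rk_bot]; omega), uu]
  simp

lemma TA_two {F : Flat M} (h : rk M F = 2) : TA M F = C (mu ℤ ⊥ F) * (1 + X) := by
  classical
  rw [TA_rec, sum_lt_split F _ 2 h.le, sum_range_succ, sum_range_one, lev_zero_filter (by omega),
    sum_singleton, TA_bot, uu, ww, h, rk_bot, gap_two']
  rw [sum_eq_zero]
  · ring
  · intro G hG
    rw [mem_filter, mem_lev'] at hG
    rw [ww, hG.1, h, gap_le_one le_rfl]
    simp

open Classical in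
lemma TA_three {F : Flat M} (h : rk M F = 3) :
    TA M F = C (mu ℤ ⊥ F) * (1 + X + X ^ 2)
      + C (∑ G ∈ (lev M 1).filter (fun G => G < F), mu ℤ ⊥ G * mu ℤ G F) * X := by
  rw [TA_rec, sum_lt_split F _ 3 h.le, sum_range_succ, sum_range_succ, sum_range_one,
    lev_zero_filter (by omega), sum_singleton, TA_bot, uu, ww, h, rk_bot, gap_three']
  rw [sum_eq_zero (s := (lev M 2).filter (fun G => G < F))]
  · have h1 : ∀ G ∈ (lev M 1).filter (fun G => G < F), TA M G * ww M G F
        = C (mu ℤ ⊥ G * mu ℤ G F) * X := by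
      intro G hG
      rw [mem_filter, mem_lev'] at hG
      rw [TA_le_one hG.1.le, uu, ww, hG.1, h, gap_two', C_mul]
      ring
    rw [sum_congr rfl h1, ← sum_mul, ← map_sum]
    ring
  · intro G hG
    rw [mem_filter, mem_lev'] at hG
    rw [ww, hG.1, h, gap_le_one le_rfl]
    simp

open Classical in
lemma lev_filter_top (hr : M.eRank = ((5 : ℕ) : ℕ∞)) {k : ℕ} (hk : k < 5) :
    (lev M k).filter (fun G => G < ⊤) = lev M k := by
  rw [filter_eq_self]
  intro G hG
  rw [mem_lev'] at hG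
  apply lt_of_le_of_ne le_top
  rintro rfl
  have h := rk_top (K := 3) hr
  omega

end PolyA

theorem dualChow_rank5 (hr : M.eRank = ((5 : ℕ) : ℕ∞)) :
    dualChow M = -(C (m5 M) * (1 + X + X ^ 2 + X ^ 3 + X ^ 4) + C (S M 1) * (X + X ^ 2 + X ^ 3)
      + C (S M 2) * (X + 2 * X ^ 2 + X ^ 3) + C (S M 3) * (X + X ^ 2 + X ^ 3)
      + C (S13 M) * X ^ 2) := by
  classical
  have htop : rk M (⊤ : Flat M) = 5 := rk_top (K := 3) hr
  have h0 : dualChow M = -TA M ⊤ := by
    rw [dualChow_eq, hr]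
    unfold TA
    simp [pow_succ]
  have hT : TA M ⊤ = C (m5 M) * (1 + X + X ^ 2 + X ^ 3 + X ^ 4) + C (S M 1) * (X + X ^ 2 + X ^ 3)
      + C (S M 2) * (X + 2 * X ^ 2 + X ^ 3) + C (S M 3) * (X + X ^ 2 + X ^ 3)
      + C (S13 M) * X ^ 2 := by
    rw [TA_rec, sum_lt_split ⊤ _ 5 htop.le, sum_range_succ, sum_range_succ, sum_range_succ,
      sum_range_succ, sum_range_one, lev_zero_filter (by omega), sum_singleton, TA_bot, uu, ww,
      htop, rk_bot, gap_five', lev_filter_top hr (by omega), lev_filter_top hr (by omega),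
      lev_filter_top hr (by omega), lev_filter_top hr (by omega)]
    rw [sum_eq_zero (s := lev M 4)]
    swap
    · intro G hG
      rw [mem_lev'] at hG
      rw [ww, hG, htop, gap_le_one le_rfl]
      simp
    have h1 : ∑ G ∈ lev M 1, TA M G * ww M G ⊤ = C (S M 1) * (X + X ^ 2 + X ^ 3) := by
      rw [S, map_sum, sum_mul]
      apply sum_congr rfl
      intro G hG
      rw [mem_lev'] at hG
      rw [TA_le_one hG.le, uu, ww, hG, htop, gap_four', C_mul]
      ring
    have h2 : ∑ G ∈ lev M 2, TA M G * ww M G ⊤ = C (S M 2) * (X + 2 * X ^ 2 + X ^ 3) := by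
      rw [S, map_sum, sum_mul]
      apply sum_congr rfl
      intro G hG
      rw [mem_lev'] at hG
      rw [TA_two hG, ww, hG, htop, gap_three', C_mul]
      ring
    have h3 : ∑ G ∈ lev M 3, TA M G * ww M G ⊤
        = C (S M 3) * (X + X ^ 2 + X ^ 3) + C (S13 M) * X ^ 2 := by
      rw [S, S13, map_sum, map_sum, sum_mul, sum_mul, ← sum_add_distrib]
      apply sum_congr rfl
      intro G hG
      rw [mem_lev'] at hG
      rw [TA_three hG, ww, hG, htop, gap_two', C_mul]
      have h4 : ∑ G' ∈ (lev M 1).filter (fun G' => G' < G), mu ℤ ⊥ G' * mu ℤ G' G * mu ℤ G ⊤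
          = (∑ G' ∈ (lev M 1).filter (fun G' => G' < G), mu ℤ ⊥ G' * mu ℤ G' G) * mu ℤ G ⊤ := by
        rw [sum_mul]
      rw [h4, C_mul]
      ring
    rw [h1, h2, h3, m5]
    ring
  rw [h0, hT]

end DCC8
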