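import Pool.Agent.DCC8.Defs

/-!
# Möbius sums
-/

namespace DCC8

open DualChow Finset Polynomial IncidenceAlgebra

variable {α : Type*} (M : Matroid α) [M.Finite]

/-- `μ(⊥, ⊤)` -/
noncomputable def m5 : ℤ := mu ℤ (⊥ : Flat M) ⊤

/-- `∑ μ(⊥, F) μ(F, ⊤)` over the flats of rank `k`. -/
noncomputable def S (k : ℕ) : ℤ := ∑ F ∈ lev M k, mu ℤ ⊥ F * mu ℤ F ⊤

open Classical in
/-- `∑ μ(⊥, G) μ(G, F) μ(F, ⊤)` over `G < F`, of ranks `1` and `3`. -/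
noncomputable def S13 : ℤ :=
  ∑ F ∈ lev M 3, ∑ G ∈ (lev M 1).filter (fun G => G < F), mu ℤ ⊥ G * mu ℤ G F * mu ℤ F ⊤

end DCC8
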