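import Pool.Agent.DCC8.MatDef

/-!
# [M3] The rank formula

* `eRk_one` : if `A ∩ Y` is a subsingleton then `r(A) = finrank (sp w A)`.
  (A maximal linearly independent `I ⊆ A` is `Ind` — it has at most `5` elements since
  `finrank (L ^ 4 × L) = 5` — and every `Ind` subset of `A` is linearly independent.)
* `eRk_two` : otherwise `r(A) = min 5 (finrank (sp w (A ∩ X)) + |A ∩ Y|)`.
  (Take a basis `I₀` of `A ∩ X` (linearly independent) and all of `A ∩ Y`; a subset of
  `I₀ ∪ (A ∩ Y)` with `min 5 (..)` elements containing at least two `Y`'s is independent;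
  conversely an independent `I ⊆ A` has `|I| ≤ 5` and
  `|I| = |I ∩ X| + |I ∩ Y| ≤ finrank (sp w (A ∩ X)) + |A ∩ Y|`.)
* `eRank_mat` : the rank is `5`. (Every independent set has at most `5` elements; the vectors
  `((1, s), t)` of `X` span everything, so `X` has rank `5` by `eRk_one`.)
-/

set_option linter.unusedSectionVars false

namespace DCC8

open DualChow Finset Module

variable {K L : Type} [Field K] [Fintype K] [Field L] [Fintype L] [Algebra K L]

namespace RankF

theorem lin_card (w : Fin 4 → L) {I : Set (Ex K L)} (h : LinearIndepOn L (vec w) I) :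
    I.encard = (finrank L (sp w I) : ℕ∞) := by
  classical
  have h1 : LinearIndependent L (fun x : I => vec w x.1) := h
  have h2 := finrank_span_eq_card h1
  have h3 : Set.range (fun x : I => vec w x.1) = vec w '' I := by
    ext v
    simp
  rw [h3] at h2
  unfold sp
  rw [h2, Set.encard_eq_coe_toFinset_card, Set.toFinset_card]

theorem lin_le_five (w : Fin 4 → L) (A : Set (Ex K L)) : finrank L (sp w A) ≤ 5 := by
  have h1 := Submodule.finrank_le (sp w A)
  have h2 : finrank L ((Fin 4 → L) × L) = 5 := by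
    rw [finrank_prod, finrank_fin_fun, finrank_self]
  omega

theorem sp_mono (w : Fin 4 → L) {A B : Set (Ex K L)} (h : A ⊆ B) :
    finrank L (sp w A) ≤ finrank L (sp w B) :=
  Submodule.finrank_mono (Submodule.span_mono (Set.image_mono h))

theorem exists_basis (w : Fin 4 → L) (A : Set (Ex K L)) :
    ∃ I ⊆ A, LinearIndepOn L (vec w) I ∧ sp w I = sp w A := by
  obtain ⟨b, h1, _, h3, h4⟩ := exists_linearIndepOn_extension (v := vec (K := K) w)
    (linearIndepOn_empty L (vec w)) (Set.empty_subset A)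
  refine ⟨b, h1, h4, le_antisymm (Submodule.span_mono (Set.image_mono h1)) ?_⟩
  exact Submodule.span_le.2 h3

end RankF

open RankF

theorem eRk_one (w : Fin 4 → L) (hw : LinearIndependent K w) (A : Set (Ex K L))
    (h : (A ∩ Ys K L).Subsingleton) :
    (mat w hw).eRk A = (finrank L (sp w A) : ℕ∞) := by
  apply le_antisymm
  · rw [Matroid.eRk_le_iff]
    intro I hIA hI
    rw [mat_indep] at hI
    have h1 := hI.2.2 (h.anti (Set.inter_subset_inter_left _ hIA))
    rw [lin_card w h1]
    exact_mod_cast sp_mono w hIA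
  · obtain ⟨I, h1, h2, h3⟩ := exists_basis w A
    rw [Matroid.le_eRk_iff]
    refine ⟨I, h1, ?_, by rw [lin_card w h2, h3]⟩
    rw [mat_indep]
    refine ⟨h2.mono Set.inter_subset_left, ?_, fun _ => h2⟩
    rw [lin_card w h2]
    exact_mod_cast lin_le_five w I

theorem eRk_two (w : Fin 4 → L) (hw : LinearIndependent K w) (A : Set (Ex K L))
    (h : ¬ (A ∩ Ys K L).Subsingleton) :
    (mat w hw).eRk A
      = min 5 ((finrank L (sp w (A ∩ Xs K L)) : ℕ∞) + (A ∩ Ys K L).encard) := by
  have hXY : ∀ e : Ex K L, e ∈ Xs K L ∨ e ∈ Ys K L := by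
    rintro (x | y)
    · exact Or.inl ⟨x, rfl⟩
    · exact Or.inr ⟨y, rfl⟩
  have hdis : Disjoint (Xs K L) (Ys K L) := by
    rw [Set.disjoint_left]
    rintro _ ⟨x, rfl⟩ ⟨y, hy⟩
    exact Sum.inr_ne_inl hy
  apply le_antisymm
  · rw [Matroid.eRk_le_iff]
    intro I hIA hI
    rw [mat_indep] at hI
    refine le_min hI.2.1 ?_
    have h1 : I = (I ∩ Xs K L) ∪ (I ∩ Ys K L) := by
      rw [← Set.inter_union_distrib_left]
      symm
      rw [Set.inter_eq_left]
      intro e _
      exact hXY e
    rw [h1, Set.encard_union_eq (hdis.mono Set.inter_subset_right Set.inter_subset_right),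
      lin_card w hI.1]
    refine add_le_add ?_ ?_
    · exact_mod_cast sp_mono w (Set.inter_subset_inter_left _ hIA)
    · exact Set.encard_le_encard (Set.inter_subset_inter_left _ hIA)
  · obtain ⟨I, h1, h2, h3⟩ := exists_basis w (A ∩ Xs K L)
    rw [Set.not_subsingleton_iff] at h
    obtain ⟨y, hy, y', hy', hne⟩ := h
    have hI : I ⊆ Xs K L := h1.trans Set.inter_subset_right
    have hJ : (I ∪ (A ∩ Ys K L)).encard =
        (finrank L (sp w (A ∩ Xs K L)) : ℕ∞) + (A ∩ Ys K L).encard := by
      rw [Set.encard_union_eq (hdis.mono hI Set.inter_subset_right), lin_card w h2, h3]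
    have hsub : ({y, y'} : Set (Ex K L)) ⊆ I ∪ (A ∩ Ys K L) := by
      rintro e (rfl | rfl)
      · exact Or.inr hy
      · exact Or.inr hy'
    have h4 : ({y, y'} : Set (Ex K L)).encard ≤
        min 5 ((finrank L (sp w (A ∩ Xs K L)) : ℕ∞) + (A ∩ Ys K L).encard) := by
      refine le_min ?_ ?_
      · rw [Set.encard_pair hne]
        norm_num
      · rw [← hJ]
        exact Set.encard_le_encard hsub
    obtain ⟨J, h5, h6, h7⟩ := Set.exists_superset_subset_encard_eq hsub h4
      (by rw [hJ]; exact min_le_right _ _)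
    rw [Matroid.le_eRk_iff]
    refine ⟨J, ?_, ?_, h7⟩
    · refine h6.trans (Set.union_subset (h1.trans Set.inter_subset_left) Set.inter_subset_left)
    · rw [mat_indep]
      refine ⟨h2.mono ?_, by rw [h7]; exact min_le_left _ _, ?_⟩
      · rintro e ⟨he1, he2⟩
        rcases h6 he1 with h8 | h8
        · exact h8
        · exact absurd h8.2 (Set.disjoint_left.1 hdis he2)
      · intro hs
        exact absurd (hs ⟨h5 (Or.inl rfl), hy.2⟩ ⟨h5 (Or.inr rfl), hy'.2⟩) hne

theorem eRank_mat (w : Fin 4 → L) (hw : LinearIndependent K w) :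
    (mat w hw).eRank = ((5 : ℕ) : ℕ∞) := by
  apply le_antisymm
  · rw [← Matroid.eRk_ground, Matroid.eRk_le_iff]
    intro I _ hI
    rw [mat_indep] at hI
    exact hI.2.1
  · refine le_trans ?_ (Matroid.eRk_le_eRank _ (Xs K L))
    rw [eRk_one w hw (Xs K L) (by
      rintro _ ⟨⟨x, rfl⟩, ⟨y, hy⟩⟩
      exact absurd hy Sum.inr_ne_inl)]
    have htop : sp w (Xs K L) = ⊤ := by
      have hm : ∀ (s : Fin 3 → K) (t : L), (one3 (K := K) L s, t) ∈ sp w (Xs K L) := by
        intro s t
        exact Submodule.subset_span ⟨Sum.inl (s, t), ⟨(s, t), rfl⟩, rfl⟩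
      rw [Submodule.eq_top_iff']
      rintro ⟨v, t⟩
      have key : ((v, t) : (Fin 4 → L) × L) =
          v 0 • (one3 (K := K) L ![0, 0, 0], (0 : L)) +
          v 1 • ((one3 (K := K) L ![1, 0, 0], (0 : L)) - (one3 (K := K) L ![0, 0, 0], (0 : L))) +
          v 2 • ((one3 (K := K) L ![0, 1, 0], (0 : L)) - (one3 (K := K) L ![0, 0, 0], (0 : L))) +
          v 3 • ((one3 (K := K) L ![0, 0, 1], (0 : L)) - (one3 (K := K) L ![0, 0, 0], (0 : L))) +
          t • ((one3 (K := K) L ![0, 0, 0], (1 : L)) - (one3 (K := K) L ![0, 0, 0], (0 : L))) := by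
        apply Prod.ext
        · funext j
          fin_cases j <;> simp [one3]
        · simp
      rw [key]
      refine add_mem (add_mem (add_mem (add_mem ?_ ?_) ?_) ?_) ?_
      · exact Submodule.smul_mem _ _ (hm _ _)
      · exact Submodule.smul_mem _ _ (sub_mem (hm _ _) (hm _ _))
      · exact Submodule.smul_mem _ _ (sub_mem (hm _ _) (hm _ _))
      · exact Submodule.smul_mem _ _ (sub_mem (hm _ _) (hm _ _))
      · exact Submodule.smul_mem _ _ (sub_mem (hm _ _) (hm _ _))
    rw [htop, finrank_top, finrank_prod, finrank_fin_fun, finrank_self]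

end DCC8
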