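import Pool.Agent.DCC8.UDefs

/-!
# [U1] Degree bounds and the middle lemma

`degX`: at most `2 q ^ 7 / b` covers `G` of `F` by an `X`-step have `b ≤ #(FX G)`:
by `card_FX_lt` such a `G` contains at least `#(FX G) - #(FX F) ≥ #(FX G) / 2 ≥ b / 2` elements of
`X` outside `F`; use `card_covers_mul_le` with `P = X`, `#X = q ^ 7`, and `(b + 1) / 2`.
`degY`: at most `q ^ 4` covers by a `Y`-step (`P = Y`, `b = 1`).
-/

namespace DCC8

open DualChow Finset Module

variable {K L : Type} [Field K] [Fintype K] [Field L] [Fintype L] [Algebra K L]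
  {w : Fin 4 → L} {hw : LinearIndependent K w}

open Classical in
theorem degX (hL : Fintype.card L = Fintype.card K ^ 4) (F : Flat (mat w hw)) (b : ℕ) :
    b * #((lev (mat w hw) (rk (mat w hw) F + 1)).filter
      fun G => F < G ∧ FX F ≠ FX G ∧ b ≤ #(FX G)) ≤ 2 * Fintype.card K ^ 7 := by
  set s := (lev (mat w hw) (rk (mat w hw) F + 1)).filter
      fun G => F < G ∧ FX F ≠ FX G ∧ b ≤ #(FX G) with hs
  have hq : 2 ≤ Fintype.card K := Fintype.one_lt_card
  have key := card_covers_mul_le (M := mat w hw) (F := F) s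
    ((univ : Finset ((Fin 3 → K) × L)).image (Sum.inl : _ → Ex K L)) ((b + 1) / 2)
    (by
      intro G hG
      simp only [hs, lev, mem_filter, mem_univ, true_and] at hG
      exact ⟨hG.2.1, hG.1⟩)
    (by
      intro G hG
      simp only [hs, lev, mem_filter, mem_univ, true_and] at hG
      obtain ⟨_, hFG, hne, hb⟩ := hG
      have h1 := card_FX_lt hFG.le hne
      have h2 : 2 * #(FX F) ≤ #(FX G) := le_trans (Nat.mul_le_mul_right _ hq) h1
      have h3 : #(FX G \ FX F) = #(FX G) - #(FX F) := card_sdiff_of_subset (FX_mono hFG.le)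
      have h4 : (b + 1) / 2 ≤ #(FX G \ FX F) := by omega
      refine h4.trans ?_
      refine le_trans (le_of_eq (card_image_of_injective (FX G \ FX F)
        (Sum.inl_injective (α := (Fin 3 → K) × L) (β := L))).symm) (card_le_card ?_)
      intro e he
      rw [mem_image] at he
      obtain ⟨x, hx, rfl⟩ := he
      rw [mem_sdiff] at hx
      simp only [FX, mem_filter, mem_univ, true_and] at hx
      rw [mem_filter]
      exact ⟨mem_image_of_mem _ (mem_univ _), hx⟩)
  have hcard : #(((univ : Finset ((Fin 3 → K) × L)).image (Sum.inl : _ → Ex K L)).filter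
      fun e => e ∉ F.1) ≤ Fintype.card K ^ 7 := by
    refine (card_filter_le _ _).trans ?_
    rw [card_image_of_injective _ (Sum.inl_injective (α := (Fin 3 → K) × L) (β := L)), card_univ,
      Fintype.card_prod, Fintype.card_fun, Fintype.card_fin, hL, ← pow_add]
  have h5 := key.trans hcard
  have h6 : b ≤ 2 * ((b + 1) / 2) := by omega
  calc b * #s ≤ 2 * ((b + 1) / 2) * #s := Nat.mul_le_mul_right _ h6
    _ = 2 * ((b + 1) / 2 * #s) := by ring
    _ ≤ 2 * Fintype.card K ^ 7 := Nat.mul_le_mul_left _ h5

open Classical in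
theorem degY (hL : Fintype.card L = Fintype.card K ^ 4) (F : Flat (mat w hw)) :
    #((lev (mat w hw) (rk (mat w hw) F + 1)).filter fun G => F < G ∧ FX F = FX G)
      ≤ Fintype.card K ^ 4 := by
  set s := (lev (mat w hw) (rk (mat w hw) F + 1)).filter fun G => F < G ∧ FX F = FX G with hs
  have key := card_covers_mul_le (M := mat w hw) (F := F) s
    ((univ : Finset L).image (Sum.inr : _ → Ex K L)) 1
    (by
      intro G hG
      simp only [hs, lev, mem_filter, mem_univ, true_and] at hG
      exact ⟨hG.2.1, hG.1⟩)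
    (by
      intro G hG
      simp only [hs, lev, mem_filter, mem_univ, true_and] at hG
      obtain ⟨_, hFG, heq⟩ := hG
      have hne : FY F ≠ FY G := by
        intro h
        exact hFG.ne (flat_ext heq h)
      obtain ⟨y, hyG, hyF⟩ : ∃ y ∈ FY G, y ∉ FY F := by
        by_contra hc
        push Not at hc
        exact hne (Subset.antisymm (FY_mono hFG.le) hc)
      simp only [FY, mem_filter, mem_univ, true_and] at hyG hyF
      refine card_pos.2 ⟨Sum.inr y, ?_⟩
      rw [mem_filter]
      exact ⟨mem_image_of_mem _ (mem_univ _), hyG, hyF⟩)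
  have hcard : #(((univ : Finset L).image (Sum.inr : _ → Ex K L)).filter
      fun e => e ∉ F.1) ≤ Fintype.card K ^ 4 := by
    refine (card_filter_le _ _).trans ?_
    rw [card_image_of_injective _ (Sum.inr_injective (α := (Fin 3 → K) × L) (β := L)), card_univ,
      hL]
  rw [one_mul] at key
  exact key.trans hcard

end DCC8
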