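import Pool.Agent.DCC8.U1

/-!
# [U3] Complete flags with four `X`-steps

By `dX_lt` `dX Fᵢ ≥ i`, so `#(FX Fᵢ) ≥ q ^ (i - 1)` by `card_FX_ge`, so by `degX` there are at most
`2 q ^ 7`, `2 q ^ 6`, `2 q ^ 5`, `2 q ^ 4` choices for `F₁`, `F₂`, `F₃`, `F₄`.
`chain_card` is the general counting lemma for nested choices.
-/

namespace DCC8

open DualChow Finset Module

variable {K L : Type} [Field K] [Fintype K] [Field L] [Fintype L] [Algebra K L]
  {w : Fin 4 → L} {hw : LinearIndependent K w}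

theorem mem_filter_any {β : Type*} {s : Finset β} {p : β → Prop} {inst : DecidablePred p} {a : β}
    (h1 : a ∈ s) (h2 : p a) : a ∈ @filter β p inst s := Finset.mem_filter.2 ⟨h1, h2⟩

theorem sum_ite_le {β : Type*} [Fintype β] (A : Prop) [Decidable A] (Q : β → Prop)
    [DecidablePred Q] [DecidablePred fun x => A ∧ Q x] (d e : ℕ)
    (h : A → #(univ.filter Q) ≤ d) :
    ∑ x : β, (if A ∧ Q x then e else 0) ≤ if A then d * e else 0 := by
  by_cases hA : A
  · simp only [hA, true_and, if_true]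
    rw [← Finset.sum_filter, Finset.sum_const, smul_eq_mul]
    exact Nat.mul_le_mul_right _ (h hA)
  · simp [hA]

open Classical in
/-- Nested choices: if `a` has at most `d1` values, given `a` there are at most `d2` values of `b`,
and so on, there are at most `d1 * d2 * d3 * d4` quadruples. -/
theorem chain_card {β : Type*} [Fintype β] (P1 : β → Prop) (P2 P3 P4 : β → β → Prop)
    (d1 d2 d3 d4 : ℕ) (h1 : #(univ.filter P1) ≤ d1)
    (h2 : ∀ a, P1 a → #(univ.filter (P2 a)) ≤ d2)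
    (h3 : ∀ a b, P1 a → P2 a b → #(univ.filter (P3 b)) ≤ d3)
    (h4 : ∀ a b c, P1 a → P2 a b → P3 b c → #(univ.filter (P4 c)) ≤ d4) :
    #((univ : Finset (β × β × β × β)).filter fun t =>
      P1 t.1 ∧ P2 t.1 t.2.1 ∧ P3 t.2.1 t.2.2.1 ∧ P4 t.2.2.1 t.2.2.2) ≤ d1 * d2 * d3 * d4 := by
  rw [Finset.card_filter]
  simp only [Fintype.sum_prod_type]
  have s4 : ∀ a b c : β, ∑ d : β, (if P1 a ∧ P2 a b ∧ P3 b c ∧ P4 c d then 1 else 0) ≤
      if (P1 a ∧ P2 a b) ∧ P3 b c then d4 * 1 else 0 := by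
    intro a b c
    have := sum_ite_le ((P1 a ∧ P2 a b) ∧ P3 b c) (P4 c) d4 1
      (fun h => h4 a b c h.1.1 h.1.2 h.2)
    simpa only [and_assoc] using this
  have s3 : ∀ a b : β, ∑ c : β, (if (P1 a ∧ P2 a b) ∧ P3 b c then d4 * 1 else 0) ≤
      if P1 a ∧ P2 a b then d3 * (d4 * 1) else 0 := by
    intro a b
    have := sum_ite_le (P1 a ∧ P2 a b) (P3 b) d3 (d4 * 1) (fun h => h3 a b h.1 h.2)
    exact this
  have s2 : ∀ a : β, ∑ b : β, (if P1 a ∧ P2 a b then d3 * (d4 * 1) else 0) ≤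
      if P1 a then d2 * (d3 * (d4 * 1)) else 0 := by
    intro a
    have := sum_ite_le (P1 a) (P2 a) d2 (d3 * (d4 * 1)) (fun h => h2 a h)
    exact this
  have s1 : ∑ a : β, (if P1 a then d2 * (d3 * (d4 * 1)) else 0) ≤
      d1 * (d2 * (d3 * (d4 * 1))) := by
    have := sum_ite_le True P1 d1 (d2 * (d3 * (d4 * 1))) (fun _ => h1)
    simpa only [true_and, if_true] using this
  calc _ ≤ ∑ a : β, ∑ b : β, ∑ c : β, (if (P1 a ∧ P2 a b) ∧ P3 b c then d4 * 1 else 0) :=
        sum_le_sum fun a _ => sum_le_sum fun b _ => sum_le_sum fun c _ => s4 a b c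
    _ ≤ ∑ a : β, ∑ b : β, (if P1 a ∧ P2 a b then d3 * (d4 * 1) else 0) :=
        sum_le_sum fun a _ => sum_le_sum fun b _ => s3 a b
    _ ≤ ∑ a : β, (if P1 a then d2 * (d3 * (d4 * 1)) else 0) := sum_le_sum fun a _ => s2 a
    _ ≤ d1 * (d2 * (d3 * (d4 * 1))) := s1
    _ = d1 * d2 * d3 * d4 := by ring

open Classical in
/-- The number of covers by an `X`-step which raise `dX` to at least `k + 1`. -/
theorem step_card (hL : Fintype.card L = Fintype.card K ^ 4) (F : Flat (mat w hw)) {r k m : ℕ}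
    (hr : rk (mat w hw) F = r) (hr4 : r ≤ 4) (hk : k ≤ dX F) (hm : k + m = 7) :
    #(univ.filter fun G : Flat (mat w hw) => rk (mat w hw) G = r + 1 ∧ F < G ∧ FX F ≠ FX G)
      ≤ 2 * Fintype.card K ^ m := by
  have hq : 0 < Fintype.card K ^ k := pow_pos Fintype.card_pos _
  have h := degX (w := w) (hw := hw) hL F (Fintype.card K ^ k)
  have hsub : (univ.filter fun G : Flat (mat w hw) =>
      rk (mat w hw) G = r + 1 ∧ F < G ∧ FX F ≠ FX G) ⊆
      (lev (mat w hw) (rk (mat w hw) F + 1)).filter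
        fun G => F < G ∧ FX F ≠ FX G ∧ Fintype.card K ^ k ≤ #(FX G) := by
    intro G hG
    rw [mem_filter] at hG
    obtain ⟨-, h1, h2, h3⟩ := hG
    have hd : dX F < dX G := dX_lt (by omega) h2 h3
    have hge := card_FX_ge G (by omega)
    rw [mem_filter, lev, mem_filter]
    refine ⟨⟨mem_univ _, by rw [h1, hr]⟩, h2, h3, le_trans ?_ hge⟩
    exact Nat.pow_le_pow_right Fintype.card_pos (by omega)
  have hle := card_le_card hsub
  refine hle.trans ?_
  refine Nat.le_of_mul_le_mul_left ?_ hq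
  refine h.trans (le_of_eq ?_)
  rw [← hm, pow_add]
  ring

open Classical in
theorem allX_card (hL : Fintype.card L = Fintype.card K ^ 4) :
    #((FL w hw).filter allX) ≤ 16 * Fintype.card K ^ 22 := by
  set q := Fintype.card K with hq
  have key := chain_card (β := Flat (mat w hw))
    (fun a => rk (mat w hw) a = 0 + 1 ∧ (⊥ : Flat (mat w hw)) < a ∧ FX (⊥ : Flat (mat w hw)) ≠ FX a)
    (fun a b => rk (mat w hw) b = 1 + 1 ∧ a < b ∧ FX a ≠ FX b)
    (fun b c => rk (mat w hw) c = 2 + 1 ∧ b < c ∧ FX b ≠ FX c)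
    (fun c d => rk (mat w hw) d = 3 + 1 ∧ c < d ∧ FX c ≠ FX d)
    (2 * q ^ 7) (2 * q ^ 6) (2 * q ^ 5) (2 * q ^ 4) ?_ ?_ ?_ ?_
  · refine le_trans (card_le_card ?_) (key.trans (le_of_eq (by ring)))
    intro t ht
    rw [mem_filter, FL, mem_filter] at ht
    obtain ⟨⟨-, h1, h2, h3, h4, l1, l2, l3⟩, x1, x2, x3, x4⟩ := ht
    refine mem_filter_any (mem_univ _) ⟨⟨h1, ?_, ?_⟩, ⟨h2, l1, x2⟩, ⟨h3, l2, x3⟩, ⟨h4, l3, x4⟩⟩
    · rw [bot_lt_iff_ne_bot]
      rintro h
      rw [h] at x1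
      exact x1 FX_bot
    · rw [FX_bot]
      exact fun h => x1 h.symm
  · have := step_card (w := w) (hw := hw) (r := 0) (k := 0) (m := 7) hL ⊥ rk_bot (by norm_num)
      (Nat.zero_le _) (by norm_num)
    refine le_trans (card_le_card fun x hx => ?_) this
    simpa using hx
  · rintro a ⟨h1, h2, h3⟩
    have hd : dX (⊥ : Flat (mat w hw)) < dX a := dX_lt (by rw [rk_bot]; norm_num) h2 h3
    refine le_trans (card_le_card fun x hx => ?_) (step_card (k := 1) (m := 6) hL a h1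
      (by norm_num) (by omega) (by norm_num))
    simpa using hx
  · rintro a b ⟨h1, h2, h3⟩ ⟨h4, h5, h6⟩
    have hd : dX (⊥ : Flat (mat w hw)) < dX a := dX_lt (by rw [rk_bot]; norm_num) h2 h3
    have hd2 : dX a < dX b := dX_lt (by omega) h5 h6
    refine le_trans (card_le_card fun x hx => ?_) (step_card (k := 2) (m := 5) hL b h4
      (by norm_num) (by omega) (by norm_num))
    simpa using hx
  · rintro a b c ⟨h1, h2, h3⟩ ⟨h4, h5, h6⟩ ⟨h7, h8, h9⟩
    have hd : dX (⊥ : Flat (mat w hw)) < dX a := dX_lt (by rw [rk_bot]; norm_num) h2 h3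
    have hd2 : dX a < dX b := dX_lt (by omega) h5 h6
    have hd3 : dX b < dX c := dX_lt (by omega) h8 h9
    refine le_trans (card_le_card fun x hx => ?_) (step_card (k := 3) (m := 4) hL c h7
      (by norm_num) (by omega) (by norm_num))
    simpa using hx

end DCC8
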