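import Pool.Agent.DCC8.U3

/-!
# [U4] Complete flags with at least one `Y`-step

By the position of the `X`-steps (`a` of them): after `j` `X`-steps `dX ≥ j` (`dX_lt`, `dX_mono`),
so `#(FX F) ≥ q ^ (j - 1)` (`card_FX_ge`).
* `a = 3` (4 patterns): `dX F₄ ≥ 3`, `FY F₄` nonempty (because of the `Y`-step; `flat_ext`), so
  `#(FY F₄) = 1` by `rk_two` and `#(FX F₄) ≥ q ^ 3` by `card_FX_hyp`; if the last step is a `Y`-step
  then `FX F₃ = FX F₄`.  So the third `X`-step has at most `2 q ^ 4` choices (`degX` with
  `b = q ^ 3`): at most `2 q ^ 7 * 2 q ^ 6 * 2 q ^ 4 * q ^ 4 = 8 q ^ 21` flags per pattern.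
* `a = 2` (6 patterns): `2 q ^ 7 * 2 q ^ 6 * q ^ 4 * q ^ 4 = 4 q ^ 21`.
* `a = 1` (4 patterns): `2 q ^ 7 * q ^ 12`; `a = 0`: `q ^ 16`.
Total `32 + 24 + 1` (for `q ≥ 3`: `8 q ^ 19 + q ^ 16 ≤ q ^ 21`).
Use `chain_card` for each pattern, with the lower bounds for `#(FX Fᵢ)` included in the
conditions `Pᵢ`.
-/

namespace DCC8

open DualChow Finset Module

variable {K L : Type} [Field K] [Fintype K] [Field L] [Fintype L] [Algebra K L]
  {w : Fin 4 → L} {hw : LinearIndependent K w}

private noncomputable def db (P : Prop) : Bool := @decide P (Classical.propDecidable P)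

private theorem db_true {P : Prop} : db P = true ↔ P := by
  unfold db
  exact @decide_eq_true_iff P (Classical.propDecidable P)

private theorem db_false {P : Prop} : db P = false ↔ ¬ P := by
  unfold db
  exact @decide_eq_false_iff_not P (Classical.propDecidable P)

private theorem rk_bot' : rk (mat w hw) (⊥ : Flat (mat w hw)) = 0 := by
  have h : (⊥ : Flat (mat w hw)).1 = (mat w hw).closure ∅ := rfl
  unfold rk
  rw [h, Matroid.eRk_closure_eq, Matroid.eRk_empty]
  rfl

/-- A step of type `s` (`true` for an `X`-step) with at least `q ^ j` elements of `X`. -/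
private def Stp (s : Bool) (j : ℕ) (F G : Flat (mat w hw)) : Prop :=
  F < G ∧ rk (mat w hw) G = rk (mat w hw) F + 1 ∧
    if s = true then FX F ≠ FX G ∧ Fintype.card K ^ j ≤ #(FX G) else FX F = FX G

private def bd (q : ℕ) (s : Bool) (j : ℕ) : ℕ := if s = true then 2 * q ^ (7 - j) else q ^ 4

open Classical in
private theorem stp_card (hL : Fintype.card L = Fintype.card K ^ 4) (s : Bool) (j : ℕ)
    (hj : j ≤ 7) (F : Flat (mat w hw)) :
    #((univ : Finset (Flat (mat w hw))).filter (Stp s j F)) ≤ bd (Fintype.card K) s j := by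
  cases s with
  | false =>
    refine le_trans (card_le_card ?_) (degY hL F)
    intro G hG
    have h := (mem_filter.1 hG).2
    unfold Stp at h
    simp only [Bool.false_eq_true, if_false] at h
    exact mem_filter.2 ⟨mem_filter.2 ⟨mem_univ _, h.2.1⟩, h.1, h.2.2⟩
  | true =>
    have h1 : Fintype.card K ^ j * #((univ : Finset (Flat (mat w hw))).filter (Stp true j F)) ≤
        Fintype.card K ^ j * (2 * Fintype.card K ^ (7 - j)) := by
      have h2 : Fintype.card K ^ j * (2 * Fintype.card K ^ (7 - j)) = 2 * Fintype.card K ^ 7 := by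
        rw [mul_left_comm, ← pow_add]
        congr 2
        omega
      rw [h2]
      refine le_trans (Nat.mul_le_mul_left _ (card_le_card ?_)) (degX hL F (Fintype.card K ^ j))
      intro G hG
      have h := (mem_filter.1 hG).2
      unfold Stp at h
      simp only [if_true] at h
      exact mem_filter.2 ⟨mem_filter.2 ⟨mem_univ _, h.2.1⟩, h.1, h.2.2.1, h.2.2.2⟩
    have h3 : 0 < Fintype.card K ^ j := pow_pos Fintype.card_pos _
    exact Nat.le_of_mul_le_mul_left h1 h3

/-- The exponent of the lower bound of the `a`-th `X`-step, if there are `A` of them. -/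
private def jj (A a : ℕ) : ℕ := if A = 3 ∧ a = 3 then 3 else a - 1

private theorem jj_le {A a : ℕ} (h : a ≤ 4) : jj A a ≤ 7 := by
  unfold jj
  split_ifs <;> omega

private abbrev BB : Type := Bool × Bool × Bool × Bool

private def a1 (p : BB) : ℕ := p.1.toNat
private def a2 (p : BB) : ℕ := p.1.toNat + p.2.1.toNat
private def a3 (p : BB) : ℕ := p.1.toNat + p.2.1.toNat + p.2.2.1.toNat
private def a4 (p : BB) : ℕ := p.1.toNat + p.2.1.toNat + p.2.2.1.toNat + p.2.2.2.toNat

private def Pat (p : BB)
    (t : Flat (mat w hw) × Flat (mat w hw) × Flat (mat w hw) × Flat (mat w hw)) : Prop :=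
  Stp p.1 (jj (a4 p) (a1 p)) ⊥ t.1 ∧ Stp p.2.1 (jj (a4 p) (a2 p)) t.1 t.2.1 ∧
    Stp p.2.2.1 (jj (a4 p) (a3 p)) t.2.1 t.2.2.1 ∧
    Stp p.2.2.2 (jj (a4 p) (a4 p)) t.2.2.1 t.2.2.2

private def PB (q : ℕ) (p : BB) : ℕ :=
  bd q p.1 (jj (a4 p) (a1 p)) * bd q p.2.1 (jj (a4 p) (a2 p)) *
    bd q p.2.2.1 (jj (a4 p) (a3 p)) * bd q p.2.2.2 (jj (a4 p) (a4 p))

private theorem toNat_le_one (b : Bool) : b.toNat ≤ 1 := by cases b <;> simp

open Classical in
private theorem pat_card (hL : Fintype.card L = Fintype.card K ^ 4) (p : BB) :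
    #((univ : Finset (Flat (mat w hw) × Flat (mat w hw) × Flat (mat w hw) ×
      Flat (mat w hw))).filter (Pat p)) ≤ PB (Fintype.card K) p := by
  have e1 := toNat_le_one p.1
  have e2 := toNat_le_one p.2.1
  have e3 := toNat_le_one p.2.2.1
  have e4 := toNat_le_one p.2.2.2
  have h := chain_card (Stp p.1 (jj (a4 p) (a1 p)) (⊥ : Flat (mat w hw)))
    (Stp p.2.1 (jj (a4 p) (a2 p)))
    (Stp p.2.2.1 (jj (a4 p) (a3 p))) (Stp p.2.2.2 (jj (a4 p) (a4 p))) _ _ _ _
    (stp_card hL _ _ (jj_le (by unfold a1; omega)) _)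
    (fun a _ => stp_card hL _ _ (jj_le (by unfold a2; omega)) a)
    (fun _ b _ _ => stp_card hL _ _ (jj_le (by unfold a3; omega)) b)
    (fun _ _ c _ _ _ => stp_card hL _ _ (jj_le (by unfold a4; omega)) c)
  refine le_trans (card_le_card ?_) h
  intro t ht
  rw [mem_filter] at ht ⊢
  exact ht

private theorem dX_step {F G : Flat (mat w hw)} (h4 : rk (mat w hw) F ≤ 4) (h : F < G) :
    dX F + (db (FX F ≠ FX G)).toNat ≤ dX G := by
  by_cases hX : FX F = FX G
  · rw [db_false.2 (not_not.2 hX)]
    exact dX_mono h.le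
  · rw [db_true.2 hX]
    exact dX_lt h4 h hX

private theorem FY_step {F G : Flat (mat w hw)} (h : F < G) (hX : FX F = FX G) :
    (FY G).Nonempty := by
  rw [nonempty_iff_ne_empty]
  intro h0
  have h1 := FY_mono h.le
  rw [h0, subset_empty] at h1
  exact h.ne (flat_ext hX (h1.trans h0.symm))

/-- The main point: a flag has its pattern. -/
private theorem pat_mem (hL : Fintype.card L = Fintype.card K ^ 4)
    {F1 F2 F3 F4 : Flat (mat w hw)} (r1 : rk (mat w hw) F1 = 1) (r2 : rk (mat w hw) F2 = 2)
    (r3 : rk (mat w hw) F3 = 3) (r4 : rk (mat w hw) F4 = 4) (l1 : F1 < F2) (l2 : F2 < F3)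
    (l3 : F3 < F4)
    (hn : ¬ (FX (⊥ : Flat (mat w hw)) ≠ FX F1 ∧ FX F1 ≠ FX F2 ∧ FX F2 ≠ FX F3 ∧ FX F3 ≠ FX F4)) :
    Pat (db (FX (⊥ : Flat (mat w hw)) ≠ FX F1), db (FX F1 ≠ FX F2),
      db (FX F2 ≠ FX F3), db (FX F3 ≠ FX F4)) (F1, F2, F3, F4) := by
  have r0 := rk_bot' (w := w) (hw := hw)
  have l0 : (⊥ : Flat (mat w hw)) < F1 := by
    rw [bot_lt_iff_ne_bot]
    rintro rfl
    omega
  have hq : 0 < Fintype.card K := Fintype.card_pos
  have g1 := dX_step (by omega) l0
  have g2 := dX_step (by omega) l1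
  have g3 := dX_step (by omega) l2
  have g4 := dX_step (by omega) l3
  set s1 := db (FX (⊥ : Flat (mat w hw)) ≠ FX F1) with hs1
  set s2 := db (FX F1 ≠ FX F2) with hs2
  set s3 := db (FX F2 ≠ FX F3) with hs3
  set s4 := db (FX F3 ≠ FX F4) with hs4
  have e1 := toNat_le_one s1
  have e2 := toNat_le_one s2
  have e3 := toNat_le_one s3
  have e4 := toNat_le_one s4
  -- at most three X-steps
  have hA : s1.toNat + s2.toNat + s3.toNat + s4.toNat ≤ 3 := by
    by_contra hcon
    apply hn
    have t1 : s1 = true := by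
      cases h : s1 with
      | true => rfl
      | false => rw [h] at hcon; simp only [Bool.toNat_false] at hcon; omega
    have t2 : s2 = true := by
      cases h : s2 with
      | true => rfl
      | false => rw [h] at hcon; simp only [Bool.toNat_false] at hcon; omega
    have t3 : s3 = true := by
      cases h : s3 with
      | true => rfl
      | false => rw [h] at hcon; simp only [Bool.toNat_false] at hcon; omega
    have t4 : s4 = true := by
      cases h : s4 with
      | true => rfl
      | false => rw [h] at hcon; simp only [Bool.toNat_false] at hcon; omega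
    exact ⟨db_true.1 t1, db_true.1 t2, db_true.1 t3,
      db_true.1 t4⟩
  -- the hyperplane bound
  have hhyp : s1.toNat + s2.toNat + s3.toNat + s4.toNat = 3 → Fintype.card K ^ 3 ≤ #(FX F4) := by
    intro h3
    have hY : (FY F4).Nonempty := by
      rcases Nat.eq_zero_or_pos s1.toNat with z | z
      · have h : s1 = false := by
          cases h : s1 with
          | false => rfl
          | true => rw [h] at z; simp at z
        have h' : FX (⊥ : Flat (mat w hw)) = FX F1 := not_not.1 (db_false.1 h)
        exact (FY_step l0 h').mono (FY_mono (l1.trans (l2.trans l3)).le)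
      rcases Nat.eq_zero_or_pos s2.toNat with z | z
      · have h : s2 = false := by
          cases h : s2 with
          | false => rfl
          | true => rw [h] at z; simp at z
        have h' : FX F1 = FX F2 := not_not.1 (db_false.1 h)
        exact (FY_step l1 h').mono (FY_mono (l2.trans l3).le)
      rcases Nat.eq_zero_or_pos s3.toNat with z | z
      · have h : s3 = false := by
          cases h : s3 with
          | false => rfl
          | true => rw [h] at z; simp at z
        have h' : FX F2 = FX F3 := not_not.1 (db_false.1 h)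
        exact (FY_step l2 h').mono (FY_mono l3.le)
      · have z' : s4.toNat = 0 := by omega
        have h : s4 = false := by
          cases h : s4 with
          | false => rfl
          | true => rw [h] at z'; simp at z'
        have h' : FX F3 = FX F4 := not_not.1 (db_false.1 h)
        exact FY_step l3 h'
    have hY1 : #(FY F4) = 1 := by
      by_contra hne
      have hpos := card_pos.2 hY
      have := rk_two F4 (by omega) (by omega)
      omega
    exact card_FX_hyp hL F4 r4 hY1
  -- lower bounds
  have low : ∀ (F : Flat (mat w hw)) (a : ℕ), a ≤ dX F → 1 ≤ a →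
      Fintype.card K ^ (a - 1) ≤ #(FX F) := by
    intro F a h1 h2
    exact le_trans (Nat.pow_le_pow_right hq (by omega)) (card_FX_ge F (by omega))
  have fin : ∀ (s : Bool) (F G : Flat (mat w hw)) (a A : ℕ), s = db (FX F ≠ FX G) → F < G →
      rk (mat w hw) G = rk (mat w hw) F + 1 → (s = true → 1 ≤ a) → a ≤ dX G →
      (s = true → A = 3 → a = 3 → Fintype.card K ^ 3 ≤ #(FX G)) →
      Stp s (jj A a) F G := by
    intro s F G a A hs hlt hr ha hd h3
    refine ⟨hlt, hr, ?_⟩
    split_ifs with h
    · refine ⟨db_true.1 (hs ▸ h), ?_⟩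
      unfold jj
      split_ifs with h'
      · exact h3 h h'.1 h'.2
      · exact low G a hd (ha h)
    · have h' : db (FX F ≠ FX G) = false := by
        rw [← hs]
        simpa using h
      exact not_not.1 (db_false.1 h')
  have tn : ∀ s : Bool, s = true → s.toNat = 1 := by
    rintro s rfl
    rfl
  refine ⟨?_, ?_, ?_, ?_⟩
  · refine fin s1 ⊥ F1 _ _ hs1 l0 (by omega) (fun h => ?_) ?_ (fun h hA3 ha3 => ?_)
    · show 1 ≤ s1.toNat
      rw [tn _ h]
    · show s1.toNat ≤ dX F1
      omega
    · exfalso
      have : s1.toNat = 3 := ha3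
      omega
  · refine fin s2 F1 F2 _ _ hs2 l1 (by omega) (fun h => ?_) ?_ (fun h hA3 ha3 => ?_)
    · show 1 ≤ s1.toNat + s2.toNat
      rw [tn _ h]
      omega
    · show s1.toNat + s2.toNat ≤ dX F2
      omega
    · exfalso
      have : s1.toNat + s2.toNat = 3 := ha3
      omega
  · refine fin s3 F2 F3 _ _ hs3 l2 (by omega) (fun h => ?_) ?_ (fun h hA3 ha3 => ?_)
    · show 1 ≤ s1.toNat + s2.toNat + s3.toNat
      rw [tn _ h]
      omega
    · show s1.toNat + s2.toNat + s3.toNat ≤ dX F3
      omega
    · have ha3' : s1.toNat + s2.toNat + s3.toNat = 3 := ha3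
      have hA3' : s1.toNat + s2.toNat + s3.toNat + s4.toNat = 3 := hA3
      have z' : s4.toNat = 0 := by omega
      have h : s4 = false := by
        cases h : s4 with
        | false => rfl
        | true => rw [h] at z'; simp at z'
      have h' : FX F3 = FX F4 := not_not.1 (db_false.1 h)
      rw [h']
      exact hhyp hA3'
  · refine fin s4 F3 F4 _ _ hs4 l3 (by omega) (fun h => ?_) ?_ (fun h hA3 ha3 => ?_)
    · show 1 ≤ s1.toNat + s2.toNat + s3.toNat + s4.toNat
      rw [tn _ h]
      omega
    · show s1.toNat + s2.toNat + s3.toNat + s4.toNat ≤ dX F4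
      omega
    · exact hhyp hA3

private theorem sum_PB {q : ℕ} (hq : 3 ≤ q) :
    ∑ p ∈ (univ : Finset BB).erase (true, true, true, true), PB q p ≤ 57 * q ^ 21 := by
  have hsum : ∑ p ∈ (univ : Finset BB).erase (true, true, true, true), PB q p =
      56 * q ^ 21 + 8 * q ^ 19 + q ^ 16 := by
    have hu : (univ : Finset BB).erase (true, true, true, true) =
      {(true, true, true, false), (true, true, false, true), (true, false, true, true),
        (false, true, true, true), (true, true, false, false), (true, false, true, false),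
        (true, false, false, true), (false, true, true, false), (false, true, false, true),
        (false, false, true, true), (true, false, false, false), (false, true, false, false),
        (false, false, true, false), (false, false, false, true),
        (false, false, false, false)} := by decide
    rw [hu]
    repeat rw [Finset.sum_insert (by decide)]
    rw [Finset.sum_singleton]
    simp only [PB, bd, jj, a1, a2, a3, a4, Bool.toNat_true, Bool.toNat_false]
    norm_num
    ring
  rw [hsum]
  have h1 : 9 * q ^ 19 ≤ q ^ 21 := by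
    have : q ^ 21 = q ^ 2 * q ^ 19 := by ring
    rw [this]
    have h2 : 9 ≤ q ^ 2 := by nlinarith
    exact Nat.mul_le_mul_right _ h2
  have h2 : q ^ 16 ≤ q ^ 19 := Nat.pow_le_pow_right (by omega) (by norm_num)
  omega

open Classical in
theorem notX_card (hL : Fintype.card L = Fintype.card K ^ 4) (hq : 3 ≤ Fintype.card K) :
    #((FL w hw).filter fun t => ¬ allX t) ≤ 57 * Fintype.card K ^ 21 := by
  have hsub : ((FL w hw).filter fun t => ¬ allX t) ⊆
      ((univ : Finset BB).erase (true, true, true, true)).biUnion fun p =>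
        (univ : Finset (Flat (mat w hw) × Flat (mat w hw) × Flat (mat w hw) ×
          Flat (mat w hw))).filter (Pat p) := by
    rintro ⟨F1, F2, F3, F4⟩ ht
    obtain ⟨ht1, ht2⟩ := mem_filter.1 ht
    have ht3 := (mem_filter.1 ht1).2
    obtain ⟨r1, r2, r3, r4, l1, l2, l3⟩ := ht3
    have hn : ¬ (FX (⊥ : Flat (mat w hw)) ≠ FX F1 ∧ FX F1 ≠ FX F2 ∧ FX F2 ≠ FX F3 ∧
        FX F3 ≠ FX F4) := by
      rintro ⟨h1, h2, h3, h4⟩
      rw [FX_bot] at h1
      exact ht2 ⟨fun h => h1 h.symm, h2, h3, h4⟩
    refine mem_biUnion.2 ⟨_, ?_, mem_filter.2 ⟨mem_univ _, pat_mem hL r1 r2 r3 r4 l1 l2 l3 hn⟩⟩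
    rw [mem_erase]
    refine ⟨fun h => hn ?_, mem_univ _⟩
    simp only [Prod.mk.injEq] at h
    obtain ⟨h1, h2, h3, h4⟩ := h
    exact ⟨db_true.1 h1, db_true.1 h2, db_true.1 h3,
      db_true.1 h4⟩
  refine (card_le_card hsub).trans (card_biUnion_le.trans ?_)
  exact (sum_le_sum fun p _ => pat_card hL p).trans (sum_PB hq)

end DCC8
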