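import Pool.Agent.DCC8.Aff
import Pool.Agent.DCC8.Hyp
import Pool.Agent.DCC8.ExtB

/-!
# Complete flags

`q = #K`, `#L = q ^ 4`, so `#X = q ^ 7`.  A step `F < G` (`rk G = rk F + 1`) is an `X`-step if
`FX F ≠ FX G`, otherwise a `Y`-step (then `FY F ≠ FY G`).
-/

namespace DCC8

open DualChow Finset Module

variable {K L : Type} [Field K] [Fintype K] [Field L] [Fintype L] [Algebra K L]
  {w : Fin 4 → L} {hw : LinearIndependent K w}

open Classical in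
/-- The complete flags. -/
noncomputable def FL (w : Fin 4 → L) (hw : LinearIndependent K w) :
    Finset (Flat (mat w hw) × Flat (mat w hw) × Flat (mat w hw) × Flat (mat w hw)) :=
  univ.filter fun t => rk (mat w hw) t.1 = 1 ∧ rk (mat w hw) t.2.1 = 2 ∧
    rk (mat w hw) t.2.2.1 = 3 ∧ rk (mat w hw) t.2.2.2 = 4 ∧
    t.1 < t.2.1 ∧ t.2.1 < t.2.2.1 ∧ t.2.2.1 < t.2.2.2

/-- All steps are `X`-steps. -/
def allX (t : Flat (mat w hw) × Flat (mat w hw) × Flat (mat w hw) × Flat (mat w hw)) : Prop :=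
  FX t.1 ≠ ∅ ∧ FX t.1 ≠ FX t.2.1 ∧ FX t.2.1 ≠ FX t.2.2.1 ∧ FX t.2.2.1 ≠ FX t.2.2.2

end DCC8
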